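import Mathlib
import Pool.Agent.Lib.MP_562b47_mp.QP.Noise

/-!
Transient energies with random sets (MP_562b47_mp), module Abs2: the main inequality at a fixed
spectral parameter, abstractly, with one digit for each site and arbitrary events `V x`.
-/

open MeasureTheory Set Filter Topology Complex
open scoped Real ENNReal NNReal InnerProductSpace

namespace Pool.Agent.Lib.MP_562b47_mp.TR

open Pool.Agent.Lib.MP_562b47_mp.QP

variable {Ω Λ : Type*} [DecidableEq Λ] [MeasurableSpace Ω] {P : Measure Ω} [IsProbabilityMeasure P]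
  {σ : Λ × ℕ → Ω → Ω}

private theorem qp_int {h : Ω → ℝ} (hm : Measurable h) {C : ℝ} (hC : ∀ ω, |h ω| ≤ C) :
    Integrable h P :=
  Integrable.of_bound hm.aestronglyMeasurable C
    (ae_of_all _ (fun ω => by rw [Real.norm_eq_abs]; exact hC ω))

private theorem qp_sq_bd {u : Ω → ℂ} (hu : BM u) :
    Measurable (fun ω => ‖u ω‖ ^ 2) ∧ ∃ C : ℝ, ∀ ω, |‖u ω‖ ^ 2| ≤ C := by
  obtain ⟨hm, C, hC⟩ := hu
  refine ⟨hm.norm.pow_const 2, C ^ 2, fun ω => ?_⟩
  rw [abs_of_nonneg (by positivity)]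
  exact pow_le_pow_left₀ (norm_nonneg _) (hC ω) 2

private theorem qp_int_norm {u : Ω → ℂ} (hu : BM u) : Integrable (fun ω => ‖u ω‖) P := by
  obtain ⟨hm, C, hC⟩ := hu
  exact qp_int hm.norm (fun ω => by rw [abs_of_nonneg (norm_nonneg _)]; exact hC ω)

private theorem qp_int_sq {u : Ω → ℂ} (hu : BM u) : Integrable (fun ω => ‖u ω‖ ^ 2) P := by
  obtain ⟨hm, C, hC⟩ := qp_sq_bd hu
  exact qp_int hm hC

private theorem qp_nn_nonneg (u : Ω → ℂ) : 0 ≤ nn P u :=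
  integral_nonneg fun ω => by positivity

/-- step 3 for one index -/
private theorem qp_step3 {u : Ω → ℂ} (hu : BM u) {V : Set Ω} {ℓ δ t : ℝ}
    (hℓ : 0 < ℓ) (hδ : 0 < δ) (ht : 0 < t) :
    (1 / ℓ) * ∫ ω in V, ‖u ω‖ ∂P ≤ δ * t / 2 * nn P u + P.real V / (2 * δ * t * ℓ ^ 2) := by
  have h1 : ∀ ω, (1 / ℓ) * ‖u ω‖ ≤ δ * t / 2 * ‖u ω‖ ^ 2 + 1 / (2 * δ * t * ℓ ^ 2) := by
    intro ω
    have e : δ * t / 2 * ‖u ω‖ ^ 2 + 1 / (2 * δ * t * ℓ ^ 2) - (1 / ℓ) * ‖u ω‖ =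
        (δ * t * ℓ * ‖u ω‖ - 1) ^ 2 / (2 * δ * t * ℓ ^ 2) := by
      field_simp
      ring
    have h2 : 0 ≤ (δ * t * ℓ * ‖u ω‖ - 1) ^ 2 / (2 * δ * t * ℓ ^ 2) := by positivity
    linarith
  have h3 : Integrable (fun ω => δ * t / 2 * ‖u ω‖ ^ 2) (P.restrict V) :=
    ((qp_int_sq hu).const_mul _).integrableOn
  have h4 : Integrable (fun _ : Ω => 1 / (2 * δ * t * ℓ ^ 2)) (P.restrict V) :=
    integrable_const _
  calc (1 / ℓ) * ∫ ω in V, ‖u ω‖ ∂P = ∫ ω in V, (1 / ℓ) * ‖u ω‖ ∂P := by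
        rw [integral_const_mul]
    _ ≤ ∫ ω in V, (δ * t / 2 * ‖u ω‖ ^ 2 + 1 / (2 * δ * t * ℓ ^ 2)) ∂P :=
        integral_mono ((qp_int_norm hu).integrableOn.const_mul _) (h3.add h4) h1
    _ = δ * t / 2 * (∫ ω in V, ‖u ω‖ ^ 2 ∂P) + P.real V / (2 * δ * t * ℓ ^ 2) := by
        rw [integral_add h3 h4, integral_const_mul, setIntegral_const, smul_eq_mul]
        ring
    _ ≤ δ * t / 2 * nn P u + P.real V / (2 * δ * t * ℓ ^ 2) := by
        have h5 : ∫ ω in V, ‖u ω‖ ^ 2 ∂P ≤ nn P u :=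
          setIntegral_le_integral (qp_int_sq hu) (ae_of_all _ fun ω => by positivity)
        have h6 : 0 ≤ δ * t / 2 := by positivity
        nlinarith [mul_le_mul_of_nonneg_left h5 h6]

/-- sums over disjoint sets -/
private theorem qp_disj {W : ℕ → Set Ω} (hWm : ∀ k, MeasurableSet (W k))
    (hWd : ∀ j k, j ≠ k → Disjoint (W j) (W k)) {h : Ω → ℝ} (hh : Integrable h P)
    (h0 : ∀ ω, 0 ≤ h ω) (n : ℕ) :
    ∑ k ∈ Finset.range n, ∫ ω in W k, h ω ∂P ≤ ∫ ω, h ω ∂P := by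
  rw [← integral_biUnion_finset (Finset.range n) (fun i _ => hWm i)
    (fun i _ j _ hij => hWd i j hij) (fun i _ => hh.integrableOn)]
  exact setIntegral_le_integral hh (ae_of_all _ h0)

/-- set integrals over an invariant set -/
private theorem qp_invset (hσ : Flips P σ) (a : Λ × ℕ) {W : Set Ω} (hWm : MeasurableSet W)
    (hW : ∀ ω, σ a ω ∈ W ↔ ω ∈ W) {h : Ω → ℝ} (hm : Measurable h) :
    ∫ ω in W, h (σ a ω) ∂P = ∫ ω in W, h ω ∂P := by
  have hpre : σ a ⁻¹' W = W := by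
    ext ω
    exact hW ω
  have h1 := (hσ.mp a).restrict_preimage hWm
  rw [hpre] at h1
  rw [← h1.map_eq, integral_map h1.measurable.aemeasurable hm.aestronglyMeasurable, h1.map_eq]

/-- pointwise estimate of step 4 -/
private theorem qp_pt {l : List (Λ × ℕ)} (hcomm : ∀ a b ω, σ a (σ b ω) = σ b (σ a ω)) {s : Λ × ℕ → ℝ}
    (h0 : ∀ b, 0 ≤ s b) (h1 : ∀ b, s b ≤ 1) (a : Λ × ℕ) {D g : Ω → ℂ} {sn : Ω → ℝ}
    (hsn : ∀ ω, |sn ω| ≤ 1) (hinv : ∀ b, b ≠ a → ∀ ω, sn (σ b ω) = sn ω) {ℓ lam : ℝ}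
    (hℓ : 0 < ℓ) (hlam : 0 < lam)
    (hod : ∀ ω, D ω = ((sn ω * ℓ / 2 : ℝ) : ℂ) * g ω * g (σ a ω)) (ω : Ω) :
    ‖D ω - tt σ (Function.update s a 0) l D ω‖ ≤
      (ℓ / 2) * ((lam / 2) * tt σ (Function.update s a 0) l (fun ω' => ‖g ω - g ω'‖ ^ 2) ω +
        (1 / (2 * lam)) * ‖g (σ a ω)‖ ^ 2 +
        (1 / (2 * lam)) * tt σ (Function.update s a 0) l (fun ω' => ‖g ω'‖ ^ 2) ω +
        (lam / 2) * tt σ (Function.update s a 0) l (fun ω' => ‖g (σ a ω) - g ω'‖ ^ 2) (σ a ω)) := by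
  have hu0 : ∀ b, 0 ≤ Function.update s a 0 b := by
    intro b
    by_cases hb : b = a
    · subst hb; simp
    · rw [Function.update_of_ne hb]; exact h0 b
  have hu1 : ∀ b, Function.update s a 0 b ≤ 1 := by
    intro b
    by_cases hb : b = a
    · subst hb; simp
    · rw [Function.update_of_ne hb]; exact h1 b
  set s₀ := Function.update s a 0 with hs₀
  refine (norm_sub_tt_le hu0 hu1 l D ω).trans ?_
  have h2 : tt σ s₀ l (fun ω' => ‖D ω - D ω'‖) ω ≤
      tt σ s₀ l (fun ω' => (ℓ / 2) • ((lam / 2) • ‖g ω - g ω'‖ ^ 2 +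
        (1 / (2 * lam)) • ‖g (σ a ω)‖ ^ 2 + (1 / (2 * lam)) • ‖g ω'‖ ^ 2 +
        (lam / 2) • ‖g (σ a ω) - g (σ a ω')‖ ^ 2)) ω := by
    refine tt_mono_on (O := {ω' | sn ω' = sn ω}) hu0 hu1 ?_ ?_ rfl
    · intro b _ hb ω' hω'
      have hba : b ≠ a := by
        rintro rfl
        exact hb (by rw [hs₀]; simp)
      change sn (σ b ω') = sn ω
      rw [hinv b hba]
      exact hω'
    · intro ω' hω'
      have hω'' : sn ω' = sn ω := hω'
      simp only [smul_eq_mul]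
      rw [hod ω, hod ω', hω'']
      have e : ((sn ω * ℓ / 2 : ℝ) : ℂ) * g ω * g (σ a ω) -
          ((sn ω * ℓ / 2 : ℝ) : ℂ) * g ω' * g (σ a ω') =
          ((sn ω * ℓ / 2 : ℝ) : ℂ) * ((g ω - g ω') * g (σ a ω) +
            g ω' * (g (σ a ω) - g (σ a ω'))) := by ring
      rw [e, norm_mul, Complex.norm_real, Real.norm_eq_abs]
      have e1 : |sn ω * ℓ / 2| ≤ ℓ / 2 := by
        rw [mul_div_assoc, abs_mul, abs_of_pos (by positivity : 0 < ℓ / 2)]
        have := hsn ω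
        nlinarith [abs_nonneg (sn ω)]
      have e2 : ‖(g ω - g ω') * g (σ a ω) + g ω' * (g (σ a ω) - g (σ a ω'))‖ ≤
          ‖g ω - g ω'‖ * ‖g (σ a ω)‖ + ‖g ω'‖ * ‖g (σ a ω) - g (σ a ω')‖ := by
        refine (norm_add_le _ _).trans ?_
        rw [norm_mul, norm_mul]
      have key : ∀ p r : ℝ, p * r ≤ (lam / 2) * p ^ 2 + (1 / (2 * lam)) * r ^ 2 := by
        intro p r
        have e3 : (lam / 2) * p ^ 2 + (1 / (2 * lam)) * r ^ 2 - p * r =
            (lam * p - r) ^ 2 / (2 * lam) := by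
          field_simp
          ring
        have e4 : 0 ≤ (lam * p - r) ^ 2 / (2 * lam) := by positivity
        linarith
      have e5 := key ‖g ω - g ω'‖ ‖g (σ a ω)‖
      have e6 := key ‖g (σ a ω) - g (σ a ω')‖ ‖g ω'‖
      have e7 : ‖(g ω - g ω') * g (σ a ω) + g ω' * (g (σ a ω) - g (σ a ω'))‖ ≤
          (lam / 2) * ‖g ω - g ω'‖ ^ 2 + (1 / (2 * lam)) * ‖g (σ a ω)‖ ^ 2 +
            (1 / (2 * lam)) * ‖g ω'‖ ^ 2 + (lam / 2) * ‖g (σ a ω) - g (σ a ω')‖ ^ 2 := by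
        linarith
      exact mul_le_mul e1 e7 (norm_nonneg _) (by positivity)
  refine h2.trans (le_of_eq ?_)
  rw [tt_smul, tt_add, tt_add, tt_add, tt_smul, tt_smul, tt_smul, tt_smul, tt_const]
  rw [tt_comp hcomm s₀ l a (fun ω' => ‖g (σ a ω) - g ω'‖ ^ 2) ω]
  simp only [smul_eq_mul]

/-- step 4 for one site -/
private theorem qp_step4 (hσ : Flips P σ) {n : ℕ}
    {l : List (Λ × ℕ)} (hl : l.Nodup) {s : Λ × ℕ → ℝ} (h0 : ∀ b, 0 ≤ s b) (h1 : ∀ b, s b ≤ 1)
    {x : Λ} (hxl : ∀ k, k ≤ n → (x, k) ∈ l)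
    {c lam : ℝ} (hc : 0 < c) (hlam : 0 < lam)
    {F : Ω → ℂ} (hF : BM F) {g : Ω → ℂ} (hg : BM g)
    {sn : Λ × ℕ → Ω → ℝ} (hsn : ∀ a ω, |sn a ω| ≤ 1)
    (hinv : ∀ a b, b ≠ a → ∀ ω, sn a (σ b ω) = sn a ω)
    (hod : ∀ k ω, od σ (x, k) F ω =
      ((sn (x, k) ω * len c k / 2 : ℝ) : ℂ) * g ω * g (σ (x, k) ω))
    {W : ℕ → Set Ω} {N : Set Ω} (hWm : ∀ k, MeasurableSet (W k))
    (hNm : MeasurableSet N) (hWd : ∀ j k, j ≠ k → Disjoint (W j) (W k))
    (hWinv : ∀ k ω, σ (x, k) ω ∈ W k ↔ ω ∈ W k) :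
    ∑ k ∈ Finset.range (n + 1), (1 / len c k) * ∫ ω in W k ∩ N,
      ‖od σ (x, k) F ω - tt σ (Function.update s (x, k) 0) l (od σ (x, k) F) ω‖ ∂P ≤
      2 * lam * ∑ b ∈ l.toFinset, s b * nn P (od σ b g) + 3 / (4 * lam) * nn P g := by
  obtain ⟨hgsm, C, hC⟩ := qp_sq_bd hg
  have hC0 : 0 ≤ C := by
    by_contra hcon
    have hne : Nonempty Ω := by
      by_contra he
      rw [not_nonempty_iff] at he
      have h2 : P Set.univ = 0 := by rw [Set.univ_eq_empty_iff.2 he, measure_empty]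
      rw [measure_univ] at h2
      exact one_ne_zero h2
    obtain ⟨ω⟩ := hne
    have := (abs_nonneg _).trans (hC ω)
    exact hcon this
  -- the two diagonal functions
  set Φ : Ω → ℝ := fun ω => tt σ s l (fun ω' => ‖g ω - g ω'‖ ^ 2) ω with hΦ
  set Ψ : Ω → ℝ := fun ω => tt σ s l (fun ω' => ‖g ω'‖ ^ 2) ω with hΨ
  have hΦm : Measurable Φ := by
    refine measurable_tt2 hσ s l (k := fun ω ω' => ‖g ω - g ω'‖ ^ 2) ?_
    have h2 : Measurable fun p : Ω × Ω => ‖g p.1 - g p.2‖ ^ 2 :=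
      ((hg.1.comp measurable_fst).sub (hg.1.comp measurable_snd)).norm.pow_const 2
    exact h2
  have hΨm : Measurable Ψ := by
    refine measurable_tt2 hσ s l (k := fun _ ω' => ‖g ω'‖ ^ 2) ?_
    have h2 : Measurable fun p : Ω × Ω => ‖g p.2‖ ^ 2 :=
      (hg.1.comp measurable_snd).norm.pow_const 2
    exact h2
  have hdiff : ∀ ω ω', |‖g ω - g ω'‖ ^ 2| ≤ 4 * C := by
    intro ω ω'
    rw [abs_of_nonneg (by positivity)]
    have e1 := norm_sub_le (g ω) (g ω')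
    have e2 := hC ω
    have e3 := hC ω'
    rw [abs_of_nonneg (by positivity)] at e2 e3
    nlinarith [norm_nonneg (g ω), norm_nonneg (g ω'), norm_nonneg (g ω - g ω'),
      sq_nonneg (‖g ω‖ - ‖g ω'‖)]
  have hΦC : ∀ ω, |Φ ω| ≤ 4 * C := fun ω => abs_tt_le h0 h1 l (hdiff ω) ω
  have hΨC : ∀ ω, |Ψ ω| ≤ C := fun ω => abs_tt_le h0 h1 l hC ω
  have hΦ0 : ∀ ω, 0 ≤ Φ ω := fun ω => tt_nonneg h0 h1 l (fun ω' => by positivity) ω
  have hΨ0 : ∀ ω, 0 ≤ Ψ ω := fun ω => tt_nonneg h0 h1 l (fun ω' => by positivity) ω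
  have hΦi : Integrable Φ P := qp_int hΦm hΦC
  have hΨi : Integrable Ψ P := qp_int hΨm hΨC
  have hgi : Integrable (fun ω => ‖g ω‖ ^ 2) P := qp_int_sq hg
  -- one index
  have hone : ∀ k ∈ Finset.range (n + 1), (1 / len c k) * ∫ ω in W k ∩ N,
      ‖od σ (x, k) F ω - tt σ (Function.update s (x, k) 0) l (od σ (x, k) F) ω‖ ∂P ≤
      lam * (∫ ω in W k, Φ ω ∂P) + 1 / (4 * lam) * (∫ ω in W k, ‖g ω‖ ^ 2 ∂P) +
        1 / (2 * lam) * ∫ ω in W k, Ψ ω ∂P := by
    intro k hk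
    have hkn : k ≤ n := Nat.lt_succ_iff.1 (Finset.mem_range.1 hk)
    have hal := hxl k hkn
    have hℓ : 0 < len c k := by unfold len; positivity
    have hDB : BM (fun ω => od σ (x, k) F ω -
        tt σ (Function.update s (x, k) 0) l (od σ (x, k) F) ω) := by
      obtain ⟨m1, C1, hC1⟩ := BM.od hσ hF (x, k)
      obtain ⟨m2, C2, hC2⟩ := BM.tt hσ (BM.od hσ hF (x, k)) (Function.update s (x, k) 0) l
      exact ⟨m1.sub m2, C1 + C2, fun ω => (norm_sub_le _ _).trans (add_le_add (hC1 ω) (hC2 ω))⟩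
    have hpt : ∀ ω, (1 / len c k) * ‖od σ (x, k) F ω -
        tt σ (Function.update s (x, k) 0) l (od σ (x, k) F) ω‖ ≤
        lam / 2 * Φ ω + 1 / (4 * lam) * ‖g (σ (x, k) ω)‖ ^ 2 + 1 / (2 * lam) * Ψ ω +
          lam / 2 * Φ (σ (x, k) ω) := by
      intro ω
      have e1 := qp_pt (l := l) hσ.comm h0 h1 (x, k) (hsn (x, k)) (hinv (x, k)) hℓ hlam
        (hod k) ω
      have e2 : tt σ (Function.update s (x, k) 0) l (fun ω' => ‖g ω - g ω'‖ ^ 2) ω ≤ 2 * Φ ω :=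
        tt_update_le h0 h1 hl hal (fun ω' => by positivity) ω
      have e3 : tt σ (Function.update s (x, k) 0) l (fun ω' => ‖g ω'‖ ^ 2) ω ≤ 2 * Ψ ω :=
        tt_update_le h0 h1 hl hal (fun ω' => by positivity) ω
      have e4 : tt σ (Function.update s (x, k) 0) l
          (fun ω' => ‖g (σ (x, k) ω) - g ω'‖ ^ 2) (σ (x, k) ω) ≤ 2 * Φ (σ (x, k) ω) :=
        tt_update_le h0 h1 hl hal (fun ω' => by positivity) (σ (x, k) ω)
      have e5 : (1 / len c k) * ‖od σ (x, k) F ω -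
          tt σ (Function.update s (x, k) 0) l (od σ (x, k) F) ω‖ ≤ (1 / len c k) *
          ((len c k / 2) * ((lam / 2) * (2 * Φ ω) + (1 / (2 * lam)) * ‖g (σ (x, k) ω)‖ ^ 2 +
            (1 / (2 * lam)) * (2 * Ψ ω) + (lam / 2) * (2 * Φ (σ (x, k) ω)))) := by
        refine mul_le_mul_of_nonneg_left (e1.trans ?_) (by positivity)
        refine mul_le_mul_of_nonneg_left ?_ (by positivity)
        have e6 := mul_le_mul_of_nonneg_left e2 (by positivity : 0 ≤ lam / 2)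
        have e7 := mul_le_mul_of_nonneg_left e3 (by positivity : 0 ≤ 1 / (2 * lam))
        have e8 := mul_le_mul_of_nonneg_left e4 (by positivity : 0 ≤ lam / 2)
        linarith
      refine e5.trans (le_of_eq ?_)
      field_simp
      ring
    have hcomp_m : MeasurePreserving (σ (x, k)) P P := hσ.mp (x, k)
    have hΦci : Integrable (fun ω => Φ (σ (x, k) ω)) P :=
      qp_int (hΦm.comp hcomp_m.measurable) (fun ω => hΦC _)
    have hgci : Integrable (fun ω => ‖g (σ (x, k) ω)‖ ^ 2) P :=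
      qp_int (hgsm.comp hcomp_m.measurable) (fun ω => hC _)
    set R : Ω → ℝ := fun ω => lam / 2 * Φ ω + 1 / (4 * lam) * ‖g (σ (x, k) ω)‖ ^ 2 +
      1 / (2 * lam) * Ψ ω + lam / 2 * Φ (σ (x, k) ω) with hR
    have hR0 : ∀ ω, 0 ≤ R ω := by
      intro ω
      have := hΦ0 ω
      have := hΨ0 ω
      have := hΦ0 (σ (x, k) ω)
      simp only [hR]
      positivity
    have i1 : Integrable (fun ω => lam / 2 * Φ ω) (P.restrict (W k)) :=
      (hΦi.const_mul _).integrableOn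
    have i2 : Integrable (fun ω => 1 / (4 * lam) * ‖g (σ (x, k) ω)‖ ^ 2) (P.restrict (W k)) :=
      (hgci.const_mul _).integrableOn
    have i3 : Integrable (fun ω => 1 / (2 * lam) * Ψ ω) (P.restrict (W k)) :=
      (hΨi.const_mul _).integrableOn
    have i4 : Integrable (fun ω => lam / 2 * Φ (σ (x, k) ω)) (P.restrict (W k)) :=
      (hΦci.const_mul _).integrableOn
    have i12 : Integrable (fun ω => lam / 2 * Φ ω + 1 / (4 * lam) * ‖g (σ (x, k) ω)‖ ^ 2)
        (P.restrict (W k)) := i1.add i2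
    have i123 : Integrable (fun ω => lam / 2 * Φ ω + 1 / (4 * lam) * ‖g (σ (x, k) ω)‖ ^ 2 +
        1 / (2 * lam) * Ψ ω) (P.restrict (W k)) := i12.add i3
    have hRi : Integrable R P :=
      (((hΦi.const_mul _).add (hgci.const_mul _)).add (hΨi.const_mul _)).add
        (hΦci.const_mul _)
    calc (1 / len c k) * ∫ ω in W k ∩ N, ‖od σ (x, k) F ω -
          tt σ (Function.update s (x, k) 0) l (od σ (x, k) F) ω‖ ∂P
        = ∫ ω in W k ∩ N, (1 / len c k) * ‖od σ (x, k) F ω -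
          tt σ (Function.update s (x, k) 0) l (od σ (x, k) F) ω‖ ∂P := by
          rw [integral_const_mul]
      _ ≤ ∫ ω in W k ∩ N, R ω ∂P :=
          integral_mono ((qp_int_norm hDB).integrableOn.const_mul _) hRi.integrableOn hpt
      _ ≤ ∫ ω in W k, R ω ∂P :=
          setIntegral_mono_set hRi.integrableOn (ae_of_all _ hR0)
            (Set.inter_subset_left.eventuallyLE)
      _ = lam / 2 * (∫ ω in W k, Φ ω ∂P) + 1 / (4 * lam) *
            (∫ ω in W k, ‖g (σ (x, k) ω)‖ ^ 2 ∂P) + 1 / (2 * lam) * (∫ ω in W k, Ψ ω ∂P) +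
            lam / 2 * ∫ ω in W k, Φ (σ (x, k) ω) ∂P := by
          simp only [hR]
          rw [integral_add i123 i4, integral_add i12 i3, integral_add i1 i2, integral_const_mul, integral_const_mul, integral_const_mul,
            integral_const_mul]
      _ = lam * (∫ ω in W k, Φ ω ∂P) + 1 / (4 * lam) * (∫ ω in W k, ‖g ω‖ ^ 2 ∂P) +
            1 / (2 * lam) * ∫ ω in W k, Ψ ω ∂P := by
          rw [qp_invset hσ (x, k) (hWm k) (hWinv k) hΦm,
            qp_invset hσ (x, k) (hWm k) (hWinv k) hgsm]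
          ring
  refine (Finset.sum_le_sum hone).trans ?_
  rw [Finset.sum_add_distrib, Finset.sum_add_distrib, ← Finset.mul_sum, ← Finset.mul_sum,
    ← Finset.mul_sum]
  have d1 := qp_disj hWm hWd hΦi hΦ0 (n + 1)
  have d2 := qp_disj hWm hWd hgi (fun ω => by positivity) (n + 1)
  have d3 := qp_disj hWm hWd hΨi hΨ0 (n + 1)
  have d4 : ∫ ω, Φ ω ∂P ≤ 2 * ∑ b ∈ l.toFinset, s b * nn P (od σ b g) := stab hσ hl hg h0 h1
  have d5 : ∫ ω, Ψ ω ∂P = nn P g := integral_tt hσ s l hgsm hC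
  have d6 : ∫ ω, ‖g ω‖ ^ 2 ∂P = nn P g := rfl
  rw [d5] at d3
  rw [d6] at d2
  have m1 := mul_le_mul_of_nonneg_left (d1.trans d4) hlam.le
  have m2 := mul_le_mul_of_nonneg_left d2 (by positivity : 0 ≤ 1 / (4 * lam))
  have m3 := mul_le_mul_of_nonneg_left d3 (by positivity : 0 ≤ 1 / (2 * lam))
  have e : 1 / (4 * lam) * nn P g + 1 / (2 * lam) * nn P g = 3 / (4 * lam) * nn P g := by
    field_simp
    ring
  linarith

theorem abs2 (hσ : Flips P σ) {L B : Finset Λ} (hB : B ⊆ L) {K n : ℕ} (hn : n < K)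
    {l : List (Λ × ℕ)} (hl : l.Nodup) (hlm : ∀ a, a ∈ l ↔ a.1 ∈ L ∧ a.2 < K)
    {c ε : ℝ} (hc : 0 < c) (hε : 0 < ε) (hε1 : ε ≤ 1)
    {F : Ω → ℂ} (hF : BM F) {g : Λ → Ω → ℂ} (hg : ∀ x, BM (g x))
    {sn : Λ × ℕ → Ω → ℝ} (hsn : ∀ a ω, |sn a ω| ≤ 1)
    (hinv : ∀ a b, b ≠ a → ∀ ω, sn a (σ b ω) = sn a ω)
    (hod : ∀ a ω, od σ a F ω = ((sn a ω * len c a.2 / 2 : ℝ) : ℂ) * g a.1 ω * g a.1 (σ a ω))
    {V : Λ → Set Ω} (hVm : ∀ x, MeasurableSet (V x)) {Q : ℝ} (hQ : 0 < Q)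
    (hlow : ∀ x, ∀ ω ∈ V x, |sn (x, 0) ω| = 1 ∧ ‖g x ω‖ ≤ Q * ‖g x (σ (x, 0) ω)‖)
    {S : ℝ} (hS : ∑ x ∈ B, nn P (g x) ≤ S)
    (hstab : ∑ b ∈ l.toFinset, rate ε n b * ∑ x ∈ B, nn P (od σ b (g x)) ≤ 5 * ε * S)
    {t : ℝ} (ht : 0 < t) :
    (1 / (2 * Q)) * ∑ x ∈ B, ∫ ω in V x, ‖g x ω‖ ^ 2 ∂P ≤ 11 * √ε * S
      + t / 2 * RR P σ l (rate ε (n + 1)) (rate ε n) F
      + (∑ x ∈ B, P.real (V x)) / (t * ε * (c * len c n)) := by
  have hε0 : 0 ≤ ε := hε.le
  set s : Λ × ℕ → ℝ := rate ε n with hs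
  set s' : Λ × ℕ → ℝ := rate ε (n + 1) with hs'
  have h0' : ∀ b, 0 ≤ s' b := by
    intro b
    simp only [hs', rate]
    positivity
  have h1' : ∀ b, s' b ≤ s b := by
    intro b
    simp only [hs, hs', rate]
    refine mul_le_mul_of_nonneg_left ?_ hε0
    refine min_le_min_right 1 ?_
    exact div_le_div_of_nonneg_left (by positivity) (by positivity)
      (pow_le_pow_right₀ (by norm_num) (Nat.le_succ n))
  have h2' : ∀ b, s b ≤ 1 := by
    intro b
    simp only [hs, rate]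
    have : min ((2:ℝ) ^ b.2 / 2 ^ n) 1 ≤ 1 := min_le_right _ _
    have h3 : 0 ≤ min ((2:ℝ) ^ b.2 / 2 ^ n) 1 := by positivity
    nlinarith
  have h0 : ∀ b, 0 ≤ s b := fun b => (h0' b).trans (h1' b)
  have hδ : ∀ x : Λ, s (x, 0) - s' (x, 0) = ε / 2 ^ (n + 1) := by
    intro x
    simp only [hs, hs', rate]
    have e1 : (2:ℝ) ^ 0 ≤ 2 ^ n := pow_le_pow_right₀ (by norm_num) (Nat.zero_le n)
    have e2 : (2:ℝ) ^ 0 ≤ 2 ^ (n + 1) := e1.trans (pow_le_pow_right₀ (by norm_num) (Nat.le_succ n))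
    rw [min_eq_left ((div_le_one (by positivity)).2 e1),
      min_eq_left ((div_le_one (by positivity)).2 e2)]
    rw [pow_succ, pow_zero]
    field_simp
    ring
  have hlen : ∀ k, 0 < len c k := fun k => by unfold len; positivity
  have hmem : ∀ x ∈ B, ∀ k, k ≤ n → (x, k) ∈ l := fun x hx k hk =>
    (hlm (x, k)).2 ⟨hB hx, lt_of_le_of_lt hk hn⟩
  have hDB : ∀ a, BM (od σ a F) := fun a => BM.od hσ hF a
  have hTB : ∀ a, BM (tt σ (Function.update s a 0) l (od σ a F)) := fun a =>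
    BM.tt hσ (hDB a) _ l
  have hEB : ∀ a, BM (fun ω => od σ a F ω - tt σ (Function.update s a 0) l (od σ a F) ω) := by
    intro a
    obtain ⟨m1, C1, hC1⟩ := hDB a
    obtain ⟨m2, C2, hC2⟩ := hTB a
    exact ⟨m1.sub m2, C1 + C2, fun ω => (norm_sub_le _ _).trans (add_le_add (hC1 ω) (hC2 ω))⟩
  -- step 1
  have st1 : ∀ x, (1 / (2 * Q)) * ∫ ω in V x, ‖g x ω‖ ^ 2 ∂P ≤
      (1 / len c 0) * ∫ ω in V x, ‖od σ (x, 0) F ω‖ ∂P := by
    intro x
    rw [← integral_const_mul, ← integral_const_mul]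
    refine setIntegral_mono_on ((qp_int_sq (hg x)).integrableOn.const_mul _)
      ((qp_int_norm (hDB (x, 0))).integrableOn.const_mul _) (hVm x) ?_
    intro ω hω
    obtain ⟨h3, h4⟩ := hlow x ω hω
    rw [hod (x, 0) ω, norm_mul, norm_mul, Complex.norm_real, Real.norm_eq_abs,
      mul_div_assoc, abs_mul, h3, one_mul, abs_of_pos (by have := hlen 0; positivity)]
    have e2 : (1 / len c 0) * (len c 0 / 2 * ‖g x ω‖ * ‖g x (σ (x, 0) ω)‖) =
        (1 / (2 * Q)) * (‖g x ω‖ * (Q * ‖g x (σ (x, 0) ω)‖)) := by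
      have := (hlen 0).ne'
      field_simp
    change 1 / (2 * Q) * ‖g x ω‖ ^ 2 ≤
      (1 / len c 0) * (len c 0 / 2 * ‖g x ω‖ * ‖g x (σ (x, 0) ω)‖)
    rw [e2]
    refine mul_le_mul_of_nonneg_left ?_ (by positivity)
    rw [pow_two]
    exact mul_le_mul_of_nonneg_left h4 (norm_nonneg _)
  -- step 2
  have st2 : ∀ x, (1 / len c 0) * ∫ ω in V x, ‖od σ (x, 0) F ω‖ ∂P ≤
      (1 / len c 0) * (∫ ω in V x,
        ‖tt σ (Function.update s (x, 0) 0) l (od σ (x, 0) F) ω‖ ∂P) +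
      (1 / len c 0) * ∫ ω in V x, ‖od σ (x, 0) F ω -
        tt σ (Function.update s (x, 0) 0) l (od σ (x, 0) F) ω‖ ∂P := by
    intro x
    rw [← mul_add]
    refine mul_le_mul_of_nonneg_left ?_ (by have := hlen 0; positivity)
    rw [← integral_add (qp_int_norm (hTB (x, 0))).integrableOn
      (qp_int_norm (hEB (x, 0))).integrableOn]
    refine integral_mono (qp_int_norm (hDB (x, 0))).integrableOn
      ((qp_int_norm (hTB (x, 0))).integrableOn.add (qp_int_norm (hEB (x, 0))).integrableOn) ?_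
    intro ω
    simp only [Pi.add_apply]
    calc ‖od σ (x, 0) F ω‖ = ‖tt σ (Function.update s (x, 0) 0) l (od σ (x, 0) F) ω +
          (od σ (x, 0) F ω - tt σ (Function.update s (x, 0) 0) l (od σ (x, 0) F) ω)‖ := by
          congr 1
          ring
      _ ≤ _ := norm_add_le _ _
  -- step 3
  have st3a : ∑ x ∈ B, (s (x, 0) - s' (x, 0)) *
      nn P (tt σ (Function.update s (x, 0) 0) l (od σ (x, 0) F)) ≤ RR P σ l s' s F := by
    refine le_trans ?_ (RR_ge hσ hl hF h0' h1' h2')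
    have e1 : ∑ x ∈ B, (s (x, 0) - s' (x, 0)) *
        nn P (tt σ (Function.update s (x, 0) 0) l (od σ (x, 0) F)) =
        ∑ a ∈ B ×ˢ ({0} : Finset ℕ), (s a - s' a) *
          nn P (tt σ (Function.update s a 0) l (od σ a F)) := by
      rw [Finset.sum_product]
      refine Finset.sum_congr rfl fun x _ => ?_
      rw [Finset.sum_singleton]
    rw [e1]
    refine Finset.sum_le_sum_of_subset_of_nonneg ?_ ?_
    · intro a ha
      rw [Finset.mem_product, Finset.mem_singleton] at ha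
      rw [List.mem_toFinset]
      have h3 := hmem a.1 ha.1 a.2 (by omega)
      exact h3
    · intro a _ _
      exact mul_nonneg (sub_nonneg.2 (h1' a)) (qp_nn_nonneg _)
  have st3 : ∑ x ∈ B, (1 / len c 0) * (∫ ω in V x,
        ‖tt σ (Function.update s (x, 0) 0) l (od σ (x, 0) F) ω‖ ∂P) ≤
      t / 2 * RR P σ l s' s F + (∑ x ∈ B, P.real (V x)) / (t * ε * (c * len c n)) := by
    have e1 : ∀ x ∈ B, (1 / len c 0) * (∫ ω in V x,
        ‖tt σ (Function.update s (x, 0) 0) l (od σ (x, 0) F) ω‖ ∂P) ≤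
        t / 2 * ((s (x, 0) - s' (x, 0)) *
          nn P (tt σ (Function.update s (x, 0) 0) l (od σ (x, 0) F))) +
        P.real (V x) / (t * ε * (c * len c n)) := by
      intro x hx
      have hδp : 0 < s (x, 0) - s' (x, 0) := by
        rw [hδ x]
        positivity
      have e2 := qp_step3 (P := P) (hTB (x, 0)) (V := V x) (hlen 0) hδp ht
      refine e2.trans (le_of_eq ?_)
      have e3 : P.real (V x) / (2 * (s (x, 0) - s' (x, 0)) * t * len c 0 ^ 2) =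
          P.real (V x) / (t * ε * (c * len c n)) := by
        rw [hδ x]
        congr 1
        unfold len
        rw [pow_succ, pow_zero]
        field_simp
      rw [e3]
      ring
    refine (Finset.sum_le_sum e1).trans ?_
    rw [Finset.sum_add_distrib, ← Finset.mul_sum, ← Finset.sum_div]
    have e3 := mul_le_mul_of_nonneg_left st3a (by positivity : 0 ≤ t / 2)
    linarith
  -- steps 4 and 5
  set lam : ℝ := 1 / √ε with hlam
  have hsq : 0 < √ε := Real.sqrt_pos.2 hε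
  have hlam0 : 0 < lam := by positivity
  have st4 : ∑ x ∈ B, (1 / len c 0) * (∫ ω in V x,
        ‖od σ (x, 0) F ω - tt σ (Function.update s (x, 0) 0) l (od σ (x, 0) F) ω‖ ∂P) ≤
      11 * √ε * S := by
    have e1 : ∀ x ∈ B, (1 / len c 0) * (∫ ω in V x,
        ‖od σ (x, 0) F ω - tt σ (Function.update s (x, 0) 0) l (od σ (x, 0) F) ω‖ ∂P) ≤
        2 * lam * ∑ b ∈ l.toFinset, s b * nn P (od σ b (g x)) + 3 / (4 * lam) * nn P (g x) := by
      intro x hx
      have e2 := qp_step4 hσ hl h0 h2' (hmem x hx) hc hlam0 hF (hg x) hsn hinv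
        (fun k ω => hod (x, k) ω) (W := fun k => if k = 0 then Set.univ else ∅) (N := V x)
        (fun k => by
          by_cases hk : k = 0
          · simp [hk]
          · simp [hk]) (hVm x)
        (fun j k hjk => by
          by_cases hj : j = 0
          · have hk : k ≠ 0 := by omega
            simp [hk]
          · simp [hj])
        (fun k ω => by
          by_cases hk : k = 0
          · simp [hk]
          · simp [hk])
      refine le_trans ?_ e2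
      have e3 := Finset.single_le_sum (f := fun k : ℕ => (1 / len c k) *
        ∫ ω in (if k = 0 then (Set.univ : Set Ω) else ∅) ∩ V x,
        ‖od σ (x, k) F ω - tt σ (Function.update s (x, k) 0) l (od σ (x, k) F) ω‖ ∂P)
        (s := Finset.range (n + 1)) (fun k _ => by
          refine mul_nonneg (by have := hlen k; positivity) (integral_nonneg fun ω => norm_nonneg _))
        (Finset.mem_range.2 (Nat.succ_pos n))
      refine le_trans (le_of_eq ?_) e3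
      simp
    refine (Finset.sum_le_sum e1).trans ?_
    rw [Finset.sum_add_distrib, ← Finset.mul_sum, ← Finset.mul_sum, Finset.sum_comm]
    have e2 : ∑ b ∈ l.toFinset, ∑ x ∈ B, s b * nn P (od σ b (g x)) ≤ 5 * ε * S := by
      refine le_trans (le_of_eq ?_) hstab
      refine Finset.sum_congr rfl fun b _ => ?_
      rw [Finset.mul_sum]
    have e3 := mul_le_mul_of_nonneg_left e2 (by positivity : 0 ≤ 2 * lam)
    have e4 := mul_le_mul_of_nonneg_left hS (by positivity : 0 ≤ 3 / (4 * lam))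
    have hS0 : 0 ≤ S := le_trans (Finset.sum_nonneg fun x _ => qp_nn_nonneg (g x)) hS
    have hss : √ε * √ε = ε := Real.mul_self_sqrt hε0
    have e5 : 2 * lam * (5 * ε * S) = 10 * √ε * S := by
      rw [hlam]
      nth_rewrite 2 [← hss]
      field_simp
      ring
    have e6 : 3 / (4 * lam) * S = 3 / 4 * √ε * S := by
      rw [hlam]
      field_simp
    have e7 : 0 ≤ √ε * S := by positivity
    linarith
  -- conclusion
  have fin : ∑ x ∈ B, (1 / (2 * Q)) * ∫ ω in V x, ‖g x ω‖ ^ 2 ∂P ≤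
      ∑ x ∈ B, ((1 / len c 0) * (∫ ω in V x,
        ‖tt σ (Function.update s (x, 0) 0) l (od σ (x, 0) F) ω‖ ∂P) +
      (1 / len c 0) * ∫ ω in V x, ‖od σ (x, 0) F ω -
        tt σ (Function.update s (x, 0) 0) l (od σ (x, 0) F) ω‖ ∂P) :=
    Finset.sum_le_sum fun x _ => (st1 x).trans (st2 x)
  rw [← Finset.mul_sum] at fin
  simp only [Finset.sum_add_distrib] at fin
  linarith

end Pool.Agent.Lib.MP_562b47_mp.TR
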