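import Mathlib
import Pool.Agent.Lib.MP_562b47_mp.QV.Key

/-!
Transient energies with random sets (MP_562b47_mp), module Bad: the mass at the resonant sites.
-/

open MeasureTheory Set Filter Topology Complex
open scoped Real ENNReal NNReal InnerProductSpace

set_option linter.unusedSectionVars false

namespace Pool.Agent.Lib.MP_562b47_mp.TR

open Pool.Agent.Lib.MP_562b47_mp.QP Pool.Agent.Lib.MP_562b47_mp.QV

variable {Λ : Type*} [DecidableEq Λ] [AddCommGroup Λ] [Countable Λ] {E : Type*}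
  [NormedAddCommGroup E] [InnerProductSpace ℂ E] [CompleteSpace E] {c : ℝ} {e : Λ → E}
  {H : (Λ → ℝ) → (E →L[ℂ] E)}

/-- the mass of the resonant origin, `E[Im G(0,0); |G(0,0)| > K]` -/
noncomputable def bk (c : ℝ) (e : Λ → E) (H : (Λ → ℝ) → (E →L[ℂ] E)) (K u η : ℝ) : ℝ :=
  ∫ ω, (if K < ‖Gr e H ω (⟨u, η⟩ : ℂ) 0 0‖ then (Gr e H ω (⟨u, η⟩ : ℂ) 0 0).im else 0) ∂(PP Λ c)

/-- the mass outside of the random set `{y ∈ B | lam < η |G(0,y)|²}` -/
noncomputable def ot (c : ℝ) (e : Λ → E) (H : (Λ → ℝ) → (E →L[ℂ] E)) (lam : ℝ) (B : Finset Λ)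
    (u η : ℝ) : ℝ :=
  ∫ ω, ((Gr e H ω (⟨u, η⟩ : ℂ) 0 0).im - η * ∑ y ∈ B,
    (if lam < η * ‖Gr e H ω (⟨u, η⟩ : ℂ) 0 y‖ ^ 2 then ‖Gr e H ω (⟨u, η⟩ : ℂ) 0 y‖ ^ 2 else 0))
    ∂(PP Λ c)

/-- the expected number of points of the random set `{y ∈ B | lam < η |G(0,y)|²}` -/
noncomputable def mt (c : ℝ) (e : Λ → E) (H : (Λ → ℝ) → (E →L[ℂ] E)) (lam : ℝ) (B : Finset Λ)
    (u η : ℝ) : ℝ :=
  ∫ ω, ∑ y ∈ B, (if lam < η * ‖Gr e H ω (⟨u, η⟩ : ℂ) 0 y‖ ^ 2 then (1:ℝ) else 0) ∂(PP Λ c)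

section fix

variable {z : ℂ}

theorem Gr_cont (M : Model c e H) (hz : 0 < z.im) (x y : Λ) :
    Continuous fun ω : Λ → ℝ => Gr e H ω z x y :=
  M.continuous_Gr continuous_id continuous_const (fun _ => hz) x y

theorem Gr_sq_int (M : Model c e H) (hz : 0 < z.im) (x y : Λ) {f : (Λ → ℝ) → (Λ → ℝ)}
    (hf : Measurable f) {A : Set (Λ → ℝ)} (hA : MeasurableSet A) :
    Integrable (A.indicator fun ω => ‖Gr e H (f ω) z x y‖ ^ 2) (PP Λ c) := by
  have := PP_prob Λ M.hc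
  refine Integrable.indicator ?_ hA
  refine Integrable.of_bound (C := (1 / z.im) ^ 2)
    (((Gr_cont M hz x y).measurable.comp hf).norm.pow_const 2).aestronglyMeasurable
    (ae_of_all _ fun ω => ?_)
  rw [Real.norm_of_nonneg (by positivity)]
  exact pow_le_pow_left₀ (norm_nonneg _) (M.norm_Gr_le _ hz x y) 2

theorem im_int (M : Model c e H) (hz : 0 < z.im) {A : Set (Λ → ℝ)} (hA : MeasurableSet A) :
    Integrable (A.indicator fun ω => (Gr e H ω z 0 0).im) (PP Λ c) := by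
  have := PP_prob Λ M.hc
  refine Integrable.indicator ?_ hA
  refine Integrable.of_bound (C := 1 / z.im)
    (Complex.measurable_im.comp (Gr_cont M hz 0 0).measurable).aestronglyMeasurable
    (ae_of_all _ fun ω => ?_)
  rw [Real.norm_eq_abs]
  exact (Complex.abs_im_le_norm _).trans (M.norm_Gr_le ω hz 0 0)

/-- the resonant set of `x` -/
def RS (e : Λ → E) (H : (Λ → ℝ) → (E →L[ℂ] E)) (z : ℂ) (K : ℝ) (x : Λ) : Set (Λ → ℝ) :=
  {ω | K < ‖Gr e H ω z x x‖}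

theorem RS_meas (M : Model c e H) (hz : 0 < z.im) (K : ℝ) (x : Λ) :
    MeasurableSet (RS e H z K x) :=
  measurableSet_lt measurable_const (Gr_cont M hz x x).norm.measurable

/-- Ward's identity on an event -/
theorem ward_event (M : Model c e H) (hz : 0 < z.im) {A : Set (Λ → ℝ)} (hA : MeasurableSet A)
    (B : Finset Λ) :
    ∑ x ∈ B, z.im * ∫ ω, A.indicator (fun ω => ‖Gr e H ω z 0 x‖ ^ 2) ω ∂(PP Λ c)
      ≤ ∫ ω, A.indicator (fun ω => (Gr e H ω z 0 0).im) ω ∂(PP Λ c) := by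
  have h1 : ∑ x ∈ B, z.im * ∫ ω, A.indicator (fun ω => ‖Gr e H ω z 0 x‖ ^ 2) ω ∂(PP Λ c)
      = ∫ ω, z.im * ∑ x ∈ B, A.indicator (fun ω => ‖Gr e H ω z 0 x‖ ^ 2) ω ∂(PP Λ c) := by
    rw [← Finset.mul_sum, integral_const_mul, integral_finsetSum]
    intro x _
    exact Gr_sq_int M hz 0 x measurable_id hA
  rw [h1]
  refine integral_mono ?_ (im_int M hz hA) fun ω => ?_
  · exact (integrable_finsetSum _ fun x _ => Gr_sq_int M hz 0 x measurable_id hA).const_mul _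
  · by_cases hω : ω ∈ A
    · simp only [indicator_of_mem hω]
      exact ward_G M 0 ω hz B
    · simp [indicator_of_notMem hω]

/-- mass transport: the resonant receivers -/
theorem transport (M : Model c e H) (hcov : ShiftCov e H) (hz : 0 < z.im) (K : ℝ)
    (B : Finset Λ) :
    ∑ x ∈ B, z.im * ∫ ω, (RS e H z K x).indicator (fun ω => ‖Gr e H ω z 0 x‖ ^ 2) ω ∂(PP Λ c)
      ≤ ∫ ω, (RS e H z K 0).indicator (fun ω => (Gr e H ω z 0 0).im) ω ∂(PP Λ c) := by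
  have := unif_prob M.hc
  have h1 : ∀ x : Λ, ∫ ω, (RS e H z K x).indicator (fun ω => ‖Gr e H ω z 0 x‖ ^ 2) ω ∂(PP Λ c)
      = ∫ ω, (RS e H z K 0).indicator (fun ω => ‖Gr e H ω z 0 (-x)‖ ^ 2) ω ∂(PP Λ c) := by
    intro x
    have hmp : MeasurePreserving (fun ω : Λ → ℝ => fun j => ω (j + x)) (PP Λ c) (PP Λ c) :=
      measurePreserving_shift (Λ := Λ) (unif c) x
    have hm : Measurable ((RS e H z K 0).indicator (fun ω => ‖Gr e H ω z 0 (-x)‖ ^ 2)) :=
      ((Gr_cont M hz 0 (-x)).norm.pow 2).measurable.indicator (RS_meas M hz K 0)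
    conv_rhs => rw [← hmp.map_eq, integral_map hmp.measurable.aemeasurable
      hm.aestronglyMeasurable]
    refine integral_congr_ae (ae_of_all _ fun ω => ?_)
    simp only
    have e1 : (fun j => ω (j + x)) ∈ RS e H z K 0 ↔ ω ∈ RS e H z K x := by
      change K < ‖Gr e H (fun j => ω (j + x)) z 0 0‖ ↔ K < ‖Gr e H ω z x x‖
      rw [hcov x ω z 0 0 hz, zero_add]
    have e2 : Gr e H (fun j => ω (j + x)) z 0 (-x) = Gr e H ω z 0 x := by
      rw [hcov x ω z 0 (-x) hz, zero_add, neg_add_cancel, M.Gr_symm ω hz]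
    by_cases hω : ω ∈ RS e H z K x
    · rw [indicator_of_mem hω, indicator_of_mem (e1.2 hω), e2]
    · rw [indicator_of_notMem hω, indicator_of_notMem fun h => hω (e1.1 h)]
  simp_rw [h1]
  have h2 := ward_event M hz (RS_meas M hz K 0) (B.image fun x => -x)
  rw [Finset.sum_image fun a _ b _ h => neg_injective h] at h2
  exact h2

theorem bk_eq (K u η : ℝ) : bk c e H K u η
    = ∫ ω, (RS e H (⟨u, η⟩ : ℂ) K 0).indicator (fun ω => (Gr e H ω (⟨u, η⟩ : ℂ) 0 0).im) ω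
      ∂(PP Λ c) := by
  unfold bk
  refine integral_congr_ae (ae_of_all _ fun ω => ?_)
  simp only
  rfl

theorem bk_nonneg (M : Model c e H) (K u : ℝ) {η : ℝ} (hη : 0 < η) : 0 ≤ bk c e H K u η := by
  rw [bk_eq]
  refine integral_nonneg fun ω => ?_
  exact indicator_nonneg (fun ω _ => (M.im_Gr_pos ω (z := (⟨u, η⟩ : ℂ)) hη 0).le) ω

end fix

end Pool.Agent.Lib.MP_562b47_mp.TR
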