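import Mathlib
import Pool.Agent.Lib.MP_562b47_mp.TR.Abs2
import Pool.Agent.Lib.MP_562b47_mp.TR.Bad

/-!
Transient energies with random sets (MP_562b47_mp), module Key2: the main inequality at one energy
and one scale, for the random sets `{y ∈ B | lam < η |G(0,y)|²}`.
-/

open MeasureTheory Set Filter Topology Complex
open scoped Real ENNReal NNReal InnerProductSpace

set_option linter.unusedSectionVars false

namespace Pool.Agent.Lib.MP_562b47_mp.TR

open Pool.Agent.Lib.MP_562b47_mp.QP Pool.Agent.Lib.MP_562b47_mp.QV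

variable {Λ : Type*} [DecidableEq Λ] [AddCommGroup Λ] [Countable Λ] {E : Type*}
  [NormedAddCommGroup E] [InnerProductSpace ℂ E] [CompleteSpace E] {c : ℝ} {e : Λ → E}
  {H : (Λ → ℝ) → (E →L[ℂ] E)}

/-- the site `x` belongs to the random set -/
def AS (e : Λ → E) (H : (Λ → ℝ) → (E →L[ℂ] E)) (z : ℂ) (lam : ℝ) (x : Λ) : Set (Λ → ℝ) :=
  {ω | lam < z.im * ‖Gr e H ω z 0 x‖ ^ 2}

/-- the active event of the site `x` -/
def VS (c : ℝ) (e : Λ → E) (H : (Λ → ℝ) → (E →L[ℂ] E)) (z : ℂ) (K K' lam : ℝ) (x : Λ) :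
    Set (Λ → ℝ) :=
  {ω | ω x ∈ Ico (-c) c ∧ ‖Gr e H ω z x x‖ ≤ K ∧ ‖Gr e H (sg c (x, 0) ω) z 0 0‖ ≤ K' ∧
    ω ∈ AS e H z lam x}

/-- the event where the origin becomes resonant after the flip -/
def FS (c : ℝ) (e : Λ → E) (H : (Λ → ℝ) → (E →L[ℂ] E)) (z : ℂ) (K K' : ℝ) (x : Λ) :
    Set (Λ → ℝ) :=
  {ω | ‖Gr e H ω z x x‖ ≤ K ∧ K' < ‖Gr e H (sg c (x, 0) ω) z 0 0‖}

theorem AS_meas (M : Model c e H) {z : ℂ} (hz : 0 < z.im) (lam : ℝ) (x : Λ) :
    MeasurableSet (AS e H z lam x) :=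
  measurableSet_lt measurable_const (((Gr_cont M hz 0 x).norm.pow 2).measurable.const_mul _)

theorem sg_meas (M : Model c e H) (x : Λ) :
    Measurable (sg c (x, 0) : (Λ → ℝ) → (Λ → ℝ)) :=
  ((flips_sg (Λ := Λ) M.hc).mp (x, 0)).measurable

theorem VS_meas (M : Model c e H) {z : ℂ} (hz : 0 < z.im) (K K' lam : ℝ) (x : Λ) :
    MeasurableSet (VS c e H z K K' lam x) := by
  have h1 : VS c e H z K K' lam x = ((fun ω : Λ → ℝ => ω x) ⁻¹' Ico (-c) c) ∩
      ({ω | ‖Gr e H ω z x x‖ ≤ K} ∩ ({ω | ‖Gr e H (sg c (x, 0) ω) z 0 0‖ ≤ K'} ∩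
        AS e H z lam x)) := by
    ext ω
    rfl
  rw [h1]
  refine (measurableSet_Ico.preimage (measurable_pi_apply x)).inter ?_
  refine (measurableSet_le (Gr_cont M hz x x).norm.measurable measurable_const).inter ?_
  refine (measurableSet_le ?_ measurable_const).inter (AS_meas M hz lam x)
  exact ((Gr_cont M hz 0 0).measurable.comp (sg_meas M x)).norm

theorem FS_meas (M : Model c e H) {z : ℂ} (hz : 0 < z.im) (K K' : ℝ) (x : Λ) :
    MeasurableSet (FS c e H z K K' x) := by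
  have h1 : FS c e H z K K' x =
      {ω | ‖Gr e H ω z x x‖ ≤ K} ∩ {ω | K' < ‖Gr e H (sg c (x, 0) ω) z 0 0‖} := by
    ext ω
    rfl
  rw [h1]
  refine (measurableSet_le (Gr_cont M hz x x).norm.measurable measurable_const).inter ?_
  refine measurableSet_lt measurable_const ?_
  exact ((Gr_cont M hz 0 0).measurable.comp (sg_meas M x)).norm

theorem len_zero (c : ℝ) : len c 0 = c := by
  unfold len
  rw [pow_zero, div_one]

/-- the Green function before and after the flip -/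
theorem flip_le (M : Model c e H) {z : ℂ} (hz : 0 < z.im) {K : ℝ} {x : Λ} {ω : Λ → ℝ}
    (h : ‖Gr e H ω z x x‖ ≤ K) :
    ‖Gr e H ω z 0 x‖ ≤ (1 + c * K) * ‖Gr e H (sg c (x, 0) ω) z 0 x‖ := by
  have hc := M.hc
  have h1 := M.Gr_upd_mul ω hz x (flp c 0 (ω x)) 0
  have h2 := clp_sg hc (x, 0) ω
  simp only at h2
  rw [h2, len_zero] at h1
  change Gr e H (sg c (x, 0) ω) z 0 x * _ = _ at h1
  rw [← h1, norm_mul, mul_comm]
  refine mul_le_mul_of_nonneg_right ?_ (norm_nonneg _)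
  refine (norm_add_le _ _).trans ?_
  rw [norm_one, norm_mul, Complex.norm_real, Real.norm_eq_abs, abs_mul, abs_of_pos hc]
  have h3 := abs_sn_le c (x, 0) ω
  have h4 : |sn c (x, 0) ω| * c * ‖Gr e H ω z x x‖ ≤ 1 * c * K := by
    gcongr
  linarith

theorem hlow2 (M : Model c e H) {z : ℂ} (hz : 0 < z.im) {K K' lam : ℝ} (hK : 0 ≤ K)
    {x : Λ} {ω : Λ → ℝ} (hω : ω ∈ VS c e H z K K' lam x) :
    |sn c (x, 0) ω| = 1 ∧ ‖gg e H ω z 0 x‖ ≤
      ((1 + c * K) * (1 + K')) * ‖gg e H (sg c (x, 0) ω) z 0 x‖ := by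
  have hc := M.hc
  obtain ⟨h1, h2, h3, -⟩ := hω
  refine ⟨abs_sgn 0 h1, ?_⟩
  have h4 := flip_le M hz h2
  have h5 := M.one_le_norm_den (sg c (x, 0) ω) hz 0
  have h6 : ‖den e H (sg c (x, 0) ω) z 0‖ ≤ 1 + K' := by
    unfold den
    refine (norm_sub_le _ _).trans ?_
    rw [norm_one, norm_mul, Complex.norm_I, one_mul]
    linarith
  have h7 : ‖Gr e H (sg c (x, 0) ω) z 0 x‖
      = ‖den e H (sg c (x, 0) ω) z 0‖ * ‖gg e H (sg c (x, 0) ω) z 0 x‖ := by
    unfold gg
    rw [norm_div]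
    field_simp
  calc ‖gg e H ω z 0 x‖ ≤ ‖Gr e H ω z 0 x‖ := M.norm_gg_le ω hz 0 x
    _ ≤ (1 + c * K) * ‖Gr e H (sg c (x, 0) ω) z 0 x‖ := h4
    _ = (1 + c * K) * (‖den e H (sg c (x, 0) ω) z 0‖ * ‖gg e H (sg c (x, 0) ω) z 0 x‖) := by
        rw [h7]
    _ ≤ (1 + c * K) * ((1 + K') * ‖gg e H (sg c (x, 0) ω) z 0 x‖) := by gcongr
    _ = _ := by ring

/-- the receivers which are active, but whose flip makes the origin resonant -/
theorem flip_bad (M : Model c e H) {z : ℂ} (hz : 0 < z.im) {K K' : ℝ} (hK : 0 ≤ K)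
    (B : Finset Λ) :
    ∑ x ∈ B, z.im * ∫ ω, (FS c e H z K K' x).indicator (fun ω => ‖Gr e H ω z 0 x‖ ^ 2) ω ∂(PP Λ c)
      ≤ (1 + c * K) ^ 2 *
        ∫ ω, (RS e H z K' 0).indicator (fun ω => (Gr e H ω z 0 0).im) ω ∂(PP Λ c) := by
  have hc := M.hc
  have h1 : ∀ x ∈ B, z.im * ∫ ω, (FS c e H z K K' x).indicator
      (fun ω => ‖Gr e H ω z 0 x‖ ^ 2) ω ∂(PP Λ c) ≤ (1 + c * K) ^ 2 * (z.im *
      ∫ ω, (RS e H z K' 0).indicator (fun ω => ‖Gr e H ω z 0 x‖ ^ 2) ω ∂(PP Λ c)) := by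
    intro x _
    have hmp : MeasurePreserving (sg c (x, 0) : (Λ → ℝ) → (Λ → ℝ)) (PP Λ c) (PP Λ c) :=
      (flips_sg (Λ := Λ) hc).mp (x, 0)
    have hm : Measurable ((RS e H z K' 0).indicator (fun ω => ‖Gr e H ω z 0 x‖ ^ 2)) :=
      ((Gr_cont M hz 0 x).norm.pow 2).measurable.indicator (RS_meas M hz K' 0)
    have h2 : ∫ ω, (RS e H z K' 0).indicator (fun ω => ‖Gr e H ω z 0 x‖ ^ 2) ω ∂(PP Λ c)
        = ∫ ω, (RS e H z K' 0).indicator (fun ω => ‖Gr e H ω z 0 x‖ ^ 2) (sg c (x, 0) ω)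
          ∂(PP Λ c) := by
      conv_lhs => rw [← hmp.map_eq, integral_map hmp.measurable.aemeasurable
        hm.aestronglyMeasurable]
    rw [h2, mul_left_comm]
    refine mul_le_mul_of_nonneg_left ?_ hz.le
    rw [← integral_const_mul]
    refine integral_mono (Gr_sq_int M hz 0 x measurable_id (FS_meas M hz K K' x)) ?_ fun ω => ?_
    · refine Integrable.const_mul ?_ _
      have h3 := Gr_sq_int M hz 0 x (f := sg c (x, 0)) (sg_meas M x)
        (A := sg c (x, 0) ⁻¹' (RS e H z K' 0)) ((RS_meas M hz K' 0).preimage (sg_meas M x))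
      exact h3
    · simp only
      by_cases hω : ω ∈ FS c e H z K K' x
      · have h3 : sg c (x, 0) ω ∈ RS e H z K' 0 := hω.2
        rw [indicator_of_mem hω, indicator_of_mem h3, ← mul_pow]
        exact pow_le_pow_left₀ (norm_nonneg _) (flip_le M hz hω.1) 2
      · rw [indicator_of_notMem hω]
        refine mul_nonneg (by positivity) (indicator_nonneg (fun ω _ => by positivity) _)
  refine (Finset.sum_le_sum h1).trans ?_
  rw [← Finset.mul_sum]
  refine mul_le_mul_of_nonneg_left ?_ (by positivity)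
  exact ward_event M hz (RS_meas M hz K' 0) B

/-- almost every potential is in the half open box -/
theorem ae_Ico (M : Model c e H) (x : Λ) : ∀ᵐ ω ∂(PP Λ c), ω x ∈ Ico (-c) c := by
  have hc := M.hc
  have := unif_prob hc
  have h1 : ∀ᵐ v ∂(unif c), v ∈ Ico (-c) c := by
    have hne : ∀ᵐ v ∂(unif c), v ≠ c := by
      have h2 : unif c {c} = 0 := by
        unfold unif
        rw [Measure.smul_apply, smul_eq_mul]
        have : (volume.restrict (Icc (-c) c)) {c} = 0 := by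
          refine le_antisymm ((Measure.restrict_apply_le _ _).trans ?_) (zero_le)
          rw [Real.volume_singleton]
        rw [this, mul_zero]
      rw [ae_iff]
      simpa using h2
    filter_upwards [ae_unif c, hne] with v hv hv2
    exact ⟨hv.1, lt_of_le_of_ne hv.2 hv2⟩
  exact (measurePreserving_eval_infinitePi (fun _ : Λ => unif c) x).quasiMeasurePreserving.ae h1

/-- the number of points of the random set `{y ∈ B | lam < η |G(0,y)|²}` -/
noncomputable def cnt (e : Λ → E) (H : (Λ → ℝ) → (E →L[ℂ] E)) (z : ℂ) (lam : ℝ) (B : Finset Λ)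
    (ω : Λ → ℝ) : ℝ :=
  ∑ y ∈ B, (if lam < z.im * ‖Gr e H ω z 0 y‖ ^ 2 then (1:ℝ) else 0)

/-- the mass inside of the random set `{y ∈ B | lam < η |G(0,y)|²}` -/
noncomputable def inn (e : Λ → E) (H : (Λ → ℝ) → (E →L[ℂ] E)) (z : ℂ) (lam : ℝ) (B : Finset Λ)
    (ω : Λ → ℝ) : ℝ :=
  z.im * ∑ y ∈ B, (if lam < z.im * ‖Gr e H ω z 0 y‖ ^ 2 then ‖Gr e H ω z 0 y‖ ^ 2 else 0)

theorem inn_nonneg {z : ℂ} (hz : 0 < z.im) (lam : ℝ) (B : Finset Λ)
    (ω : Λ → ℝ) : 0 ≤ inn e H z lam B ω := by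
  unfold inn
  refine mul_nonneg hz.le (Finset.sum_nonneg fun y _ => ?_)
  split_ifs
  · positivity
  · exact le_rfl

/-- the mass is at most `Im G(0,0)` -/
theorem inn_le (M : Model c e H) {z : ℂ} (hz : 0 < z.im) (lam : ℝ) (B : Finset Λ)
    (ω : Λ → ℝ) : inn e H z lam B ω ≤ (Gr e H ω z 0 0).im := by
  unfold inn
  refine le_trans ?_ (ward_G M 0 ω hz B)
  refine mul_le_mul_of_nonneg_left (Finset.sum_le_sum fun y _ => ?_) hz.le
  split_ifs
  · exact le_rfl
  · positivity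

theorem inn_meas (M : Model c e H) {z : ℂ} (hz : 0 < z.im) (lam : ℝ) (B : Finset Λ) :
    Measurable (inn e H z lam B : (Λ → ℝ) → ℝ) := by
  unfold inn
  refine Measurable.const_mul (Finset.measurable_fun_sum _ fun y _ => ?_) _
  exact Measurable.ite (AS_meas M hz lam y) ((Gr_cont M hz 0 y).norm.pow 2).measurable
    measurable_const

/-- the mass on the active events, inside of an event `A` -/
theorem active_mass (M : Model c e H) (hcov : ShiftCov e H) {u η : ℝ} (hη : 0 < η) {K K' lam : ℝ}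
    (hK : 0 ≤ K) (B : Finset Λ) {A : Set (Λ → ℝ)} (hA : MeasurableSet A) :
    (∫ ω in A, inn e H (⟨u, η⟩ : ℂ) lam B ω / ‖den e H ω (⟨u, η⟩ : ℂ) 0‖ ^ 2 ∂(PP Λ c))
      - bk c e H K u η - (1 + c * K) ^ 2 * bk c e H K' u η
      ≤ η * ∑ x ∈ B, ∫ ω in VS c e H (⟨u, η⟩ : ℂ) K K' lam x ∩ A,
        ‖gg e H ω (⟨u, η⟩ : ℂ) 0 x‖ ^ 2 ∂(PP Λ c) := by
  have hc := M.hc
  have := PP_prob Λ hc
  set z : ℂ := ⟨u, η⟩ with hzd
  have hz : 0 < z.im := hη
  have hzi : z.im = η := rfl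
  have hgc : ∀ x, Continuous fun ω : Λ → ℝ => gg e H ω z 0 x := fun x =>
    M.continuous_gg continuous_id continuous_const (fun _ => hz) 0 x
  have hgi : ∀ (x : Λ) {A : Set (Λ → ℝ)}, MeasurableSet A →
      Integrable (A.indicator fun ω => ‖gg e H ω z 0 x‖ ^ 2) (PP Λ c) := by
    intro x A hA
    refine Integrable.indicator ?_ hA
    refine Integrable.of_bound (C := (1 / z.im) ^ 2)
      ((hgc x).norm.pow 2).aestronglyMeasurable (ae_of_all _ fun ω => ?_)
    rw [Real.norm_of_nonneg (by positivity)]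
    exact pow_le_pow_left₀ (norm_nonneg _) (qps_gg_le M ω hz 0 x) 2
  have hAm : ∀ x, MeasurableSet (AS e H z lam x ∩ A) := fun x => (AS_meas M hz lam x).inter hA
  -- the total mass
  have h1 : (∫ ω in A, inn e H z lam B ω / ‖den e H ω z 0‖ ^ 2 ∂(PP Λ c))
      ≤ ∑ x ∈ B, η * ∫ ω, (AS e H z lam x ∩ A).indicator (fun ω => ‖gg e H ω z 0 x‖ ^ 2) ω
        ∂(PP Λ c) := by
    have h2 : ∑ x ∈ B, η * ∫ ω, (AS e H z lam x ∩ A).indicator
        (fun ω => ‖gg e H ω z 0 x‖ ^ 2) ω ∂(PP Λ c) = ∫ ω, η * ∑ x ∈ B,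
          (AS e H z lam x ∩ A).indicator (fun ω => ‖gg e H ω z 0 x‖ ^ 2) ω ∂(PP Λ c) := by
      rw [← Finset.mul_sum, integral_const_mul, integral_finsetSum]
      intro x _
      exact hgi x (hAm x)
    rw [h2, ← integral_indicator hA]
    refine le_of_eq (integral_congr_ae (ae_of_all _ fun ω => ?_))
    simp only
    by_cases hω : ω ∈ A
    · rw [indicator_of_mem hω]
      unfold inn
      rw [hzi, mul_div_assoc, Finset.sum_div]
      congr 1
      refine Finset.sum_congr rfl fun x _ => ?_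
      by_cases h4 : lam < η * ‖Gr e H ω z 0 x‖ ^ 2
      · have h5 : ω ∈ AS e H z lam x ∩ A := ⟨h4, hω⟩
        rw [indicator_of_mem h5, if_pos h4]
        unfold gg
        rw [norm_div, div_pow]
      · have h5 : ω ∉ AS e H z lam x ∩ A := fun h6 => h4 h6.1
        rw [indicator_of_notMem h5, if_neg h4, zero_div]
    · rw [indicator_of_notMem hω]
      symm
      refine mul_eq_zero_of_right _ (Finset.sum_eq_zero fun x _ => ?_)
      exact indicator_of_notMem (fun h6 => hω h6.2) _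
  -- splitting
  have h2 : ∀ x ∈ B, η * ∫ ω, (AS e H z lam x ∩ A).indicator
      (fun ω => ‖gg e H ω z 0 x‖ ^ 2) ω ∂(PP Λ c) ≤
      η * (∫ ω in VS c e H z K K' lam x ∩ A, ‖gg e H ω z 0 x‖ ^ 2 ∂(PP Λ c)) +
      (z.im * ∫ ω, (RS e H z K x).indicator (fun ω => ‖Gr e H ω z 0 x‖ ^ 2) ω ∂(PP Λ c)) +
      z.im * ∫ ω, (FS c e H z K K' x).indicator (fun ω => ‖Gr e H ω z 0 x‖ ^ 2) ω ∂(PP Λ c) := by
    intro x _
    rw [hzi, ← mul_add, ← mul_add]
    refine mul_le_mul_of_nonneg_left ?_ hη.le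
    have hVm : MeasurableSet (VS c e H z K K' lam x ∩ A) := (VS_meas M hz K K' lam x).inter hA
    rw [← integral_indicator hVm]
    have j1 := hgi x hVm
    have j2 : Integrable ((RS e H z K x).indicator fun ω => ‖Gr e H ω z 0 x‖ ^ 2) (PP Λ c) :=
      Gr_sq_int M hz 0 x measurable_id (RS_meas M hz K x)
    have j3 : Integrable ((FS c e H z K K' x).indicator fun ω => ‖Gr e H ω z 0 x‖ ^ 2) (PP Λ c) :=
      Gr_sq_int M hz 0 x measurable_id (FS_meas M hz K K' x)
    have j12 : Integrable (fun ω =>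
        (VS c e H z K K' lam x ∩ A).indicator (fun ω => ‖gg e H ω z 0 x‖ ^ 2) ω +
        (RS e H z K x).indicator (fun ω => ‖Gr e H ω z 0 x‖ ^ 2) ω) (PP Λ c) := j1.add j2
    rw [← integral_add j1 j2, ← integral_add j12 j3]
    refine integral_mono_ae (hgi x (hAm x)) (j12.add j3) ?_
    filter_upwards [ae_Ico M x] with ω hω
    have p1 : 0 ≤ (VS c e H z K K' lam x ∩ A).indicator (fun ω => ‖gg e H ω z 0 x‖ ^ 2) ω :=
      indicator_nonneg (fun ω _ => by positivity) ω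
    have p2 : 0 ≤ (RS e H z K x).indicator (fun ω => ‖Gr e H ω z 0 x‖ ^ 2) ω :=
      indicator_nonneg (fun ω _ => by positivity) ω
    have p3 : 0 ≤ (FS c e H z K K' x).indicator (fun ω => ‖Gr e H ω z 0 x‖ ^ 2) ω :=
      indicator_nonneg (fun ω _ => by positivity) ω
    have q1 : ‖gg e H ω z 0 x‖ ^ 2 ≤ ‖Gr e H ω z 0 x‖ ^ 2 :=
      pow_le_pow_left₀ (norm_nonneg _) (M.norm_gg_le ω hz 0 x) 2
    change _ ≤ (VS c e H z K K' lam x ∩ A).indicator (fun ω => ‖gg e H ω z 0 x‖ ^ 2) ω +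
      (RS e H z K x).indicator (fun ω => ‖Gr e H ω z 0 x‖ ^ 2) ω +
      (FS c e H z K K' x).indicator (fun ω => ‖Gr e H ω z 0 x‖ ^ 2) ω
    by_cases hAS : ω ∈ AS e H z lam x ∩ A
    · rw [indicator_of_mem hAS]
      by_cases hR : K < ‖Gr e H ω z x x‖
      · have hR' : ω ∈ RS e H z K x := hR
        rw [indicator_of_mem hR']
        linarith
      · push Not at hR
        by_cases hF : K' < ‖Gr e H (sg c (x, 0) ω) z 0 0‖
        · have hF' : ω ∈ FS c e H z K K' x := ⟨hR, hF⟩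
          rw [indicator_of_mem hF']
          linarith
        · push Not at hF
          have hV : ω ∈ VS c e H z K K' lam x ∩ A := ⟨⟨hω, hR, hF, hAS.1⟩, hAS.2⟩
          rw [indicator_of_mem hV]
          linarith
    · rw [indicator_of_notMem hAS]
      linarith
  have h3 := h1.trans (Finset.sum_le_sum h2)
  rw [Finset.sum_add_distrib, Finset.sum_add_distrib, ← Finset.mul_sum] at h3
  have h4 := transport M hcov hz K B
  have h5 := flip_bad M hz (K' := K') hK B
  rw [bk_eq, bk_eq]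
  rw [← hzd]
  linarith

/-- the constant -/
noncomputable def QQ (c K K' : ℝ) : ℝ := (1 + c * K) * (1 + K')

/-- the noise level -/
noncomputable def ee2 (κ c K K' : ℝ) : ℝ := (κ / (88 * QQ c K K')) ^ 2

theorem one_le_QQ {c K K' : ℝ} (hc : 0 < c) (hK : 0 ≤ K) (hK' : 0 ≤ K') : 1 ≤ QQ c K K' := by
  unfold QQ
  have : 0 ≤ c * K := by positivity
  nlinarith

theorem ee2_mem {κ c K K' : ℝ} (hκ : 0 < κ) (hκ1 : κ ≤ 1) (hc : 0 < c) (hK : 0 ≤ K)
    (hK' : 0 ≤ K') : 0 < ee2 κ c K K' ∧ ee2 κ c K K' ≤ 1 := by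
  have h1 := one_le_QQ hc hK hK'
  have h2 : 0 < κ / (88 * QQ c K K') := by positivity
  unfold ee2
  refine ⟨by positivity, pow_le_one₀ h2.le ?_⟩
  rw [div_le_one (by positivity)]
  linarith

/-- **The main inequality** at one energy and one scale, inside of an event `A`. -/
theorem key2 (M : Model c e H) (hcov : ShiftCov e H) {κ K K' lam : ℝ} (hκ : 0 < κ) (hκ1 : κ ≤ 1)
    (hK : 0 ≤ K) (hK' : 0 ≤ K') {n N : ℕ} (hnN : n < N) {L B : Finset Λ} (hBL : B ⊆ L)
    {u η : ℝ} (hη1 : len c n ≤ η) (hη2 : η ≤ 2 * len c n) {A : Set (Λ → ℝ)}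
    (hA : MeasurableSet A) {m : ℝ} (hm0 : 0 ≤ m) (hcnt : ∀ ω ∈ A, cnt e H (⟨u, η⟩ : ℂ) lam B ω ≤ m)
    (ha : κ ≤ ∫ ω in A, inn e H (⟨u, η⟩ : ℂ) lam B ω / ‖den e H ω (⟨u, η⟩ : ℂ) 0‖ ^ 2
      ∂(PP Λ c))
    (hb : bk c e H K u η ≤ κ / 8) (hb' : (1 + c * K) ^ 2 * bk c e H K' u η ≤ κ / 8) :
    0 < m ∧ 1 / m ≤ 256 * QQ c K K' ^ 2 / (ee2 κ c K K' * c * κ ^ 2) *
        (η * rr c e H L N (ee2 κ c K K') n u η) := by
  have := PP_prob Λ M.hc
  have hc := M.hc
  set Q : ℝ := QQ c K K' with hQd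
  have hQ1 : 1 ≤ Q := one_le_QQ hc hK hK'
  have hQ : 0 < Q := by linarith
  set ε : ℝ := ee2 κ c K K' with hεd
  obtain ⟨hε, hε1⟩ := ee2_mem hκ hκ1 hc hK hK'
  rw [← hεd] at hε hε1
  have hsq : √ε = κ / (88 * Q) := by
    rw [hεd]
    unfold ee2
    exact Real.sqrt_sq (by positivity)
  have hlen := len_pos hc n
  have hη : 0 < η := hlen.trans_le hη1
  set z : ℂ := ⟨u, η⟩ with hzd
  have hz0 : 0 < z.im := hη
  have hzi : len c n ≤ z.im := hη1
  have hFl : Flips (PP Λ c) (sg c : Λ × ℕ → (Λ → ℝ) → (Λ → ℝ)) := flips_sg hc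
  set l : List (Λ × ℕ) := (L ×ˢ Finset.range N).toList with hl
  have hlnd : l.Nodup := Finset.nodup_toList _
  have hlf : l.toFinset = L ×ˢ Finset.range N := Finset.toList_toFinset _
  have hlm : ∀ a, a ∈ l ↔ a.1 ∈ L ∧ a.2 < N := by
    intro a
    rw [hl, Finset.mem_toList, Finset.mem_product, Finset.mem_range]
  have hVA : ∀ x, MeasurableSet (VS c e H z K K' lam x ∩ A) := fun x =>
    (VS_meas M hz0 K K' lam x).inter hA
  have hmP : ∑ x ∈ B, (PP Λ c).real (VS c e H z K K' lam x ∩ A) ≤ m := by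
    have h1 : ∑ x ∈ B, (PP Λ c).real (AS e H z lam x ∩ A)
        = ∫ ω, ∑ x ∈ B, (AS e H z lam x ∩ A).indicator (fun _ => (1:ℝ)) ω ∂(PP Λ c) := by
      rw [integral_finsetSum]
      · refine Finset.sum_congr rfl fun x _ => ?_
        rw [← integral_indicator_one ((AS_meas M hz0 lam x).inter hA)]
        rfl
      · intro x _
        exact (integrable_const _).indicator ((AS_meas M hz0 lam x).inter hA)
    have h2 : ∫ ω, ∑ x ∈ B, (AS e H z lam x ∩ A).indicator (fun _ => (1:ℝ)) ω ∂(PP Λ c)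
        ≤ ∫ _ω : Λ → ℝ, m ∂(PP Λ c) := by
      refine integral_mono (integrable_finsetSum _ fun x _ =>
        (integrable_const _).indicator ((AS_meas M hz0 lam x).inter hA)) (integrable_const _)
        fun ω => ?_
      simp only
      by_cases hω : ω ∈ A
      · refine le_trans (Finset.sum_le_sum fun x _ => ?_) (hcnt ω hω)
        by_cases h4 : ω ∈ AS e H z lam x
        · have h5 : lam < z.im * ‖Gr e H ω z 0 x‖ ^ 2 := h4
          have h6 : ω ∈ AS e H z lam x ∩ A := ⟨h4, hω⟩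
          rw [indicator_of_mem h6, if_pos h5]
        · have h6 : ω ∉ AS e H z lam x ∩ A := fun h7 => h4 h7.1
          rw [indicator_of_notMem h6]
          split_ifs <;> norm_num
      · refine le_trans (le_of_eq (Finset.sum_eq_zero fun x _ => ?_)) hm0
        exact indicator_of_notMem (fun h6 => hω h6.2) _
    have h3 : ∫ _ω : Λ → ℝ, m ∂(PP Λ c) = m := by simp
    rw [h3, ← h1] at h2
    refine le_trans (Finset.sum_le_sum fun x _ => ?_) h2
    exact measureReal_mono fun ω hω => ⟨hω.1.2.2.2, hω.2⟩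
  set R : ℝ := rr c e H L N ε n u η with hRd
  have hR0 : 0 ≤ R := rr_nonneg M L N hε hε1 n u η
  set I3 : ℝ := ∑ x ∈ B, ∫ ω in VS c e H z K K' lam x ∩ A, ‖gg e H ω z 0 x‖ ^ 2 ∂(PP Λ c)
    with hI3
  have hI3ge : κ / 2 ≤ η * I3 := by
    have h1 := active_mass M hcov (u := u) hη (K' := K') (lam := lam) hK B hA
    linarith
  have hmain : ∀ t : ℝ, 0 < t → (1 / (2 * Q)) * (η * I3) ≤
      κ / (8 * Q) + t * η / 2 * R + 2 * m / (t * ε * c) := by
    intro t ht
    have hBM : ∀ x, BM fun ω => gg e H ω z 0 x := fun x =>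
      ⟨(M.continuous_gg continuous_id continuous_const (fun _ => hz0) 0 x).measurable,
        1 / z.im, fun ω => qps_gg_le M ω hz0 0 x⟩
    have hnn : ∀ X : Finset Λ, ∑ x ∈ X, nn (PP Λ c) (fun ω => gg e H ω z 0 x)
        = ∫ ω, ∑ x ∈ X, ‖gg e H ω z 0 x‖ ^ 2 ∂(PP Λ c) := by
      intro X
      unfold nn
      rw [integral_finsetSum]
      intro x _
      refine Integrable.of_bound (C := (1 / z.im) ^ 2)
        ((M.continuous_gg continuous_id continuous_const
          (fun _ => hz0) 0 x).norm.pow 2).aestronglyMeasurable (ae_of_all _ fun ω => ?_)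
      rw [Real.norm_of_nonneg (by positivity)]
      exact pow_le_pow_left₀ (norm_nonneg _) (qps_gg_le M ω hz0 0 x) 2
    set S : ℝ := ∑ y ∈ L, nn (PP Λ c) (fun ω => gg e H ω z 0 y) with hS
    have hSη : η * S ≤ 1 := by
      rw [hS, hnn, ← integral_const_mul]
      calc ∫ ω, η * ∑ x ∈ L, ‖gg e H ω z 0 x‖ ^ 2 ∂(PP Λ c) ≤ ∫ _ω, (1:ℝ) ∂(PP Λ c) := by
            refine integral_mono (oo_integrable M L (u := u) hη).2.2 (integrable_const _)
              fun ω => ?_
            exact ward_gg M 0 ω hz0 L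
        _ = 1 := by simp
    have hBS : ∑ x ∈ B, nn (PP Λ c) (fun ω => gg e H ω z 0 x) ≤ S := by
      refine Finset.sum_le_sum_of_subset_of_nonneg hBL fun x _ _ => ?_
      unfold nn
      exact integral_nonneg fun ω => by positivity
    have hstab : ∑ b ∈ l.toFinset, rate ε n b * ∑ x ∈ B,
        nn (PP Λ c) (od (sg c) b (fun ω => gg e H ω z 0 x)) ≤ 5 * ε * S := by
      rw [hlf, Finset.sum_product, hS, Finset.mul_sum]
      refine Finset.sum_le_sum fun y _ => ?_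
      have h1 := up_main M (0:Λ) y hzi B N
      calc ∑ k ∈ Finset.range N, rate ε n (y, k) * ∑ x ∈ B,
            nn (PP Λ c) (od (sg c) (y, k) (fun ω => gg e H ω z 0 x))
          = ε * ∑ k ∈ Finset.range N, min ((2:ℝ) ^ k / 2 ^ n) 1 * ∑ x ∈ B,
            nn (PP Λ c) (od (sg c) (y, k) (fun ω => gg e H ω z 0 x)) := by
            rw [Finset.mul_sum]
            refine Finset.sum_congr rfl fun k _ => ?_
            unfold rate
            ring
        _ ≤ ε * (5 * nn (PP Λ c) (fun ω => gg e H ω z 0 y)) := by gcongr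
        _ = 5 * ε * nn (PP Λ c) (fun ω => gg e H ω z 0 y) := by ring
    have hod : ∀ (a : Λ × ℕ) (ω : Λ → ℝ), od (sg c) a (fun ω => gg e H ω z 0 0) ω
        = ((sn c a ω * len c a.2 / 2 : ℝ) : ℂ) * gg e H ω z 0 a.1
          * gg e H (sg c a ω) z 0 a.1 := by
      intro a ω
      have h1 := gg_upd M (0:Λ) ω hz0 (0:Λ) a.1 (flp c a.2 (ω a.1))
      rw [clp_sg hc a ω, Gt_o M (0:Λ) _ hz0] at h1
      have h2 : gg e H (sg c a ω) z 0 0 = gg e H ω z 0 0
          + -((sn c a ω * len c a.2 : ℝ) : ℂ) * gg e H ω z 0 a.1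
            * gg e H (sg c a ω) z 0 a.1 := by
        unfold sg
        rw [← h1]; ring
      unfold od
      change (gg e H ω z 0 0 - gg e H (sg c a ω) z 0 0) / 2 = _
      rw [h2]
      push_cast
      ring
    have hab := abs2 (P := PP Λ c) (σ := sg c) hFl hBL hnN hlnd hlm hc hε hε1
      (hBM 0) (g := fun x ω => gg e H ω z 0 x) hBM (sn := sn c) (abs_sn_le c)
      (fun a b hab ω => sn_sg_ne hc hab ω) hod (V := fun x => VS c e H z K K' lam x ∩ A)
      hVA hQ (fun x ω hω => hlow2 M hz0 hK hω.1) hBS hstab ht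
    rw [hsq] at hab
    have h3 := mul_le_mul_of_nonneg_left hab hη.le
    have h5 : η * ((∑ x ∈ B, (PP Λ c).real (VS c e H z K K' lam x ∩ A)) / (t * ε * (c * len c n)))
        ≤ 2 * m / (t * ε * c) := by
      have e1 : η * ((∑ x ∈ B, (PP Λ c).real (VS c e H z K K' lam x ∩ A)) /
          (t * ε * (c * len c n))) = (η / len c n) *
          ((∑ x ∈ B, (PP Λ c).real (VS c e H z K K' lam x ∩ A)) / (t * ε * c)) := by
        field_simp
      have e2 : 2 * m / (t * ε * c) = 2 * (m / (t * ε * c)) := by ring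
      rw [e1, e2]
      have e3 : η / len c n ≤ 2 := by
        rw [div_le_iff₀ hlen]
        exact hη2
      have e4 : 0 ≤ ∑ x ∈ B, (PP Λ c).real (VS c e H z K K' lam x ∩ A) :=
        Finset.sum_nonneg fun x _ => measureReal_nonneg
      gcongr
    have h6 : η * (11 * (κ / (88 * Q)) * S) ≤ κ / (8 * Q) := by
      have : η * (11 * (κ / (88 * Q)) * S) = κ / (8 * Q) * (η * S) := by
        field_simp
        ring
      rw [this]
      exact mul_le_of_le_one_right (by positivity) hSη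
    have h7 : RR (PP Λ c) (sg c) l (rate ε (n + 1)) (rate ε n) (fun ω => gg e H ω z 0 0) = R := rfl
    have h8 : η * ((1 / (2 * Q)) * I3) = (1 / (2 * Q)) * (η * I3) := by ring
    rw [h7, mul_add, mul_add] at h3
    change η * ((1 / (2 * Q)) * I3) ≤ _ at h3
    rw [h8] at h3
    linarith
  have hmpos : 0 < m := by
    rcases hm0.lt_or_eq with h | h
    · exact h
    · exfalso
      rw [← h] at hmP
      have h1 : ∀ x ∈ B, (PP Λ c).real (VS c e H z K K' lam x ∩ A) = 0 := by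
        intro x hx
        have h2 := (Finset.sum_eq_zero_iff_of_nonneg (f := fun x =>
          (PP Λ c).real (VS c e H z K K' lam x ∩ A)) (s := B) fun x _ => measureReal_nonneg).1
          (le_antisymm hmP (Finset.sum_nonneg fun x _ => measureReal_nonneg))
        exact h2 x hx
      have h3 : I3 = 0 := by
        rw [hI3]
        refine Finset.sum_eq_zero fun x hx => ?_
        have h4 : (PP Λ c) (VS c e H z K K' lam x ∩ A) = 0 := by
          have h5 := h1 x hx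
          rw [measureReal_def, ENNReal.toReal_eq_zero_iff] at h5
          exact h5.resolve_right (measure_ne_top _ _)
        exact setIntegral_measure_zero _ h4
      rw [h3, mul_zero] at hI3ge
      linarith
  refine ⟨hmpos, ?_⟩
  have h1 := hmain (32 * m * Q / (ε * c * κ)) (by positivity)
  have h2 : 2 * m / (32 * m * Q / (ε * c * κ) * ε * c) = κ / (16 * Q) := by
    field_simp
    norm_num
  rw [h2] at h1
  have h3 : κ / (4 * Q) ≤ (1 / (2 * Q)) * (η * I3) := by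
    have : κ / (4 * Q) = (1 / (2 * Q)) * (κ / 2) := by
      field_simp
      norm_num
    rw [this]
    exact mul_le_mul_of_nonneg_left hI3ge (by positivity)
  have h4 : κ / (16 * Q) ≤ 32 * m * Q / (ε * c * κ) * η / 2 * R := by
    have e1 : κ / (4 * Q) = 4 * (κ / (16 * Q)) := by
      field_simp
      norm_num
    have e2 : κ / (8 * Q) = 2 * (κ / (16 * Q)) := by
      field_simp
      norm_num
    rw [e1] at h3
    rw [e2] at h1
    linarith
  rw [div_le_iff₀ hmpos]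
  have h6 : (1:ℝ) = 16 * Q / κ * (κ / (16 * Q)) := by
    field_simp
  calc (1:ℝ) = 16 * Q / κ * (κ / (16 * Q)) := h6
    _ ≤ 16 * Q / κ * (32 * m * Q / (ε * c * κ) * η / 2 * R) := by gcongr
    _ = 256 * Q ^ 2 / (ε * c * κ ^ 2) * (η * R) * m := by
        field_simp
        ring

end Pool.Agent.Lib.MP_562b47_mp.TR
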