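import Mathlib
import Pool.Agent.Lib.MP_562b47_mp.QV.Avg
import Pool.Agent.Lib.MP_562b47_mp.TR.Key2

/-!
Transient energies with random sets (MP_562b47_mp), module Avg2: the average over the energies and
the scales.
-/

open MeasureTheory Set Filter Topology Complex
open scoped Real ENNReal NNReal InnerProductSpace

set_option linter.unusedSectionVars false

namespace Pool.Agent.Lib.MP_562b47_mp.TR

open Pool.Agent.Lib.MP_562b47_mp.QP Pool.Agent.Lib.MP_562b47_mp.QV

variable {Λ : Type*} [DecidableEq Λ] [AddCommGroup Λ] [Countable Λ] {E : Type*}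
  [NormedAddCommGroup E] [InnerProductSpace ℂ E] [CompleteSpace E] {c : ℝ} {e : Λ → E}
  {H : (Λ → ℝ) → (E →L[ℂ] E)}

theorem bk_meas_exp (M : Model c e H) (K : ℝ) :
    Measurable fun p : ℝ × ℝ => bk c e H K p.1 (rexp p.2) := by
  have := PP_prob Λ M.hc
  have hG := qv_cont_Gr M 0
  have hm : Measurable (fun p : (ℝ × ℝ) × (Λ → ℝ) =>
      (if K < ‖Gr e H p.2 (⟨p.1.1, rexp p.1.2⟩ : ℂ) 0 0‖ then
        (Gr e H p.2 (⟨p.1.1, rexp p.1.2⟩ : ℂ) 0 0).im else 0)) :=
    Measurable.ite (measurableSet_lt measurable_const hG.norm.measurable)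
      (Complex.continuous_im.comp hG).measurable measurable_const
  have h : StronglyMeasurable (Function.uncurry fun (p : ℝ × ℝ) (ω : Λ → ℝ) =>
      (if K < ‖Gr e H ω (⟨p.1, rexp p.2⟩ : ℂ) 0 0‖ then
        (Gr e H ω (⟨p.1, rexp p.2⟩ : ℂ) 0 0).im else 0)) := hm.stronglyMeasurable
  exact h.integral_prod_right.measurable

theorem AS_meas_exp (M : Model c e H) (lam : ℝ) (y : Λ) :
    MeasurableSet {p : (ℝ × ℝ) × (Λ → ℝ) |
      lam < rexp p.1.2 * ‖Gr e H p.2 (⟨p.1.1, rexp p.1.2⟩ : ℂ) 0 y‖ ^ 2} := by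
  refine measurableSet_lt measurable_const ?_
  have h1 : Measurable fun p : (ℝ × ℝ) × (Λ → ℝ) => rexp p.1.2 := by fun_prop
  exact h1.mul ((qv_cont_Gr M y).norm.pow 2).measurable

/-- the event: the random set has at most `n` points and carries at least the mass `θ` -/
def EV (e : Λ → E) (H : (Λ → ℝ) → (E →L[ℂ] E)) (θ : ℝ) (i : ℚ × Finset Λ × ℕ) (u η : ℝ) :
    Set (Λ → ℝ) :=
  {ω | cnt e H (⟨u, η⟩ : ℂ) i.1 i.2.1 ω ≤ i.2.2 ∧ θ ≤ inn e H (⟨u, η⟩ : ℂ) i.1 i.2.1 ω}

theorem inn_meas_exp (M : Model c e H) (lam : ℝ) (B : Finset Λ) :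
    Measurable fun p : (ℝ × ℝ) × (Λ → ℝ) =>
      inn e H (⟨p.1.1, rexp p.1.2⟩ : ℂ) lam B p.2 := by
  unfold inn
  refine Measurable.mul (by fun_prop) (Finset.measurable_fun_sum _ fun y _ => ?_)
  exact Measurable.ite (AS_meas_exp M lam y) ((qv_cont_Gr M y).norm.pow 2).measurable
    measurable_const

theorem EV_meas_exp (M : Model c e H) (θ : ℝ) (i : ℚ × Finset Λ × ℕ) :
    MeasurableSet {p : (ℝ × ℝ) × (Λ → ℝ) | p.2 ∈ EV e H θ i p.1.1 (rexp p.1.2)} := by
  have h1 : Measurable fun p : (ℝ × ℝ) × (Λ → ℝ) =>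
      cnt e H (⟨p.1.1, rexp p.1.2⟩ : ℂ) i.1 i.2.1 p.2 := by
    unfold cnt
    refine Finset.measurable_fun_sum _ fun y _ => ?_
    exact Measurable.ite (AS_meas_exp M i.1 y) measurable_const measurable_const
  exact (measurableSet_le h1 measurable_const).inter
    (measurableSet_le measurable_const (inn_meas_exp M i.1 i.2.1))

theorem EV_meas (M : Model c e H) (θ : ℝ) (i : ℚ × Finset Λ × ℕ) (u : ℝ) {η : ℝ} (hη : 0 < η) :
    MeasurableSet (EV e H θ i u η) := by
  have h1 := (EV_meas_exp M θ i).preimage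
    (measurable_prodMk_left (x := ((u, Real.log η) : ℝ × ℝ)))
  have h2 : Prod.mk ((u, Real.log η) : ℝ × ℝ) ⁻¹'
      {p : (ℝ × ℝ) × (Λ → ℝ) | p.2 ∈ EV e H θ i p.1.1 (rexp p.1.2)} = EV e H θ i u η := by
    ext ω
    change ω ∈ EV e H θ i u (rexp (Real.log η)) ↔ _
    rw [Real.exp_log hη]
  rw [h2] at h1
  exact h1

/-- the mass inside of the event -/
noncomputable def em (c : ℝ) (e : Λ → E) (H : (Λ → ℝ) → (E →L[ℂ] E)) (θ : ℝ)
    (i : ℚ × Finset Λ × ℕ) (u η : ℝ) : ℝ :=
  ∫ ω, (EV e H θ i u η).indicator (fun ω => inn e H (⟨u, η⟩ : ℂ) i.1 i.2.1 ω /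
    ‖den e H ω (⟨u, η⟩ : ℂ) 0‖ ^ 2) ω ∂(PP Λ c)

theorem em_meas_exp (M : Model c e H) (θ : ℝ) (i : ℚ × Finset Λ × ℕ) :
    Measurable fun p : ℝ × ℝ => em c e H θ i p.1 (rexp p.2) := by
  have := PP_prob Λ M.hc
  have hG := qv_cont_Gr M 0
  have hf : Measurable fun p : (ℝ × ℝ) × (Λ → ℝ) =>
      inn e H (⟨p.1.1, rexp p.1.2⟩ : ℂ) i.1 i.2.1 p.2 /
        ‖den e H p.2 (⟨p.1.1, rexp p.1.2⟩ : ℂ) 0‖ ^ 2 := by
    refine (inn_meas_exp M i.1 i.2.1).div ?_
    unfold den
    exact ((continuous_const.sub (continuous_const.mul hG)).norm.pow 2).measurable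
  have hm := hf.indicator (EV_meas_exp M θ i)
  have h : StronglyMeasurable (Function.uncurry fun (p : ℝ × ℝ) (ω : Λ → ℝ) =>
      (EV e H θ i p.1 (rexp p.2)).indicator (fun ω =>
        inn e H (⟨p.1, rexp p.2⟩ : ℂ) i.1 i.2.1 ω /
        ‖den e H ω (⟨p.1, rexp p.2⟩ : ℂ) 0‖ ^ 2) ω) := hm.stronglyMeasurable
  exact h.integral_prod_right.measurable

/-- from the exponential coordinate back -/
theorem meas_back {f : ℝ → ℝ → ℝ} (h : Measurable fun p : ℝ × ℝ => f p.1 (rexp p.2)) :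
    Measurable fun p : ℝ × ℝ => f p.1 (rexp (Real.log p.2)) := by
  have h1 := h.comp qv_log_meas
  simpa only [Function.comp_def] using h1

/-- the conditions -/
def CD (c : ℝ) (e : Λ → E) (H : (Λ → ℝ) → (E →L[ℂ] E)) (θ κ K K' : ℝ) (i : ℚ × Finset Λ × ℕ)
    (u η : ℝ) : Prop :=
  κ ≤ em c e H θ i u η ∧ bk c e H K u η ≤ κ / 8 ∧
    (1 + c * K) ^ 2 * bk c e H K' u η ≤ κ / 8

/-- the reciprocal of the number of sites, under the conditions -/
noncomputable def ff2 (c : ℝ) (e : Λ → E) (H : (Λ → ℝ) → (E →L[ℂ] E)) (θ κ K K' : ℝ)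
    (i : ℚ × Finset Λ × ℕ) (p : ℝ × ℝ) : ℝ≥0∞ :=
  open Classical in
  if 0 < p.2 ∧ CD c e H θ κ K K' i p.1 p.2 then ((i.2.2 : ℝ≥0∞))⁻¹ else 0

theorem ff2_meas (M : Model c e H) (θ κ K K' : ℝ) (i : ℚ × Finset Λ × ℕ) :
    Measurable (ff2 c e H θ κ K K' i) := by
  classical
  have h1 : ff2 c e H θ κ K K' i = fun p : ℝ × ℝ => if 0 < p.2 ∧
      CD c e H θ κ K K' i p.1 (rexp (Real.log p.2)) then ((i.2.2 : ℝ≥0∞))⁻¹ else 0 := by
    funext p
    unfold ff2
    by_cases hp : 0 < p.2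
    · rw [Real.exp_log hp]
    · rw [if_neg (fun h => hp h.1), if_neg (fun h => hp h.1)]
  rw [h1]
  refine Measurable.ite ?_ measurable_const measurable_const
  refine (measurableSet_lt measurable_const measurable_snd).inter ?_
  refine (measurableSet_le measurable_const (meas_back (em_meas_exp M θ i))).inter ?_
  refine (measurableSet_le (meas_back (bk_meas_exp M K)) measurable_const).inter ?_
  exact measurableSet_le ((meas_back (bk_meas_exp M K')).const_mul _) measurable_const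

theorem sup2_meas (M : Model c e H) (θ κ K K' : ℝ) (I : Finset (ℚ × Finset Λ × ℕ)) :
    Measurable fun p : ℝ × ℝ => I.sup (fun i => ff2 c e H θ κ K K' i p) := by
  simp_rw [Finset.sup_eq_iSup]
  exact Measurable.iSup fun i => Measurable.iSup fun _ => ff2_meas M θ κ K K' i

/-- the bound for finitely many sets -/
theorem fin2 (M : Model c e H) (hcov : ShiftCov e H) {V : Λ → (E ≃ₗᵢ[ℂ] E)} (hH : CovOp V H)
    (θ : ℝ) {κ K K' : ℝ} (hκ : 0 < κ) (hκ1 : κ ≤ 1) (hK : 0 ≤ K) (hK' : 0 ≤ K')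
    (I : Finset (ℚ × Finset Λ × ℕ)) :
    ∫⁻ η in Ioo 0 (2 * c), (∫⁻ u, ENNReal.ofReal ((η ^ 2)⁻¹) *
      I.sup (fun i => ff2 c e H θ κ K K' i (u, η)) ∂kap) ≤
      ENNReal.ofReal (2 * (256 * QQ c K K' ^ 2 / (ee2 κ c K K' * c * κ ^ 2))) := by
  classical
  have := PP_prob Λ M.hc
  have hc := M.hc
  have hQ1 := one_le_QQ hc hK hK'
  obtain ⟨hε, hε1⟩ := ee2_mem hκ hκ1 hc hK hK'
  set C : ℝ := 256 * QQ c K K' ^ 2 / (ee2 κ c K K' * c * κ ^ 2) with hC
  have hQ0 : 0 < QQ c K K' := by linarith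
  have hC0 : 0 < C := by positivity
  set ε : ℝ := ee2 κ c K K' with hεd
  set L : Finset Λ := I.sup (fun i => i.2.1) with hL
  have hBL : ∀ i ∈ I, i.2.1 ⊆ L := fun i hi => by
    have := Finset.le_sup (f := fun i : ℚ × Finset Λ × ℕ => i.2.1) hi
    exact this
  set F : ℝ × ℝ → ℝ≥0∞ := fun p => I.sup (fun i => ff2 c e H θ κ K K' i p) with hF
  have hFm : Measurable F := sup2_meas M θ κ K K' I
  set G : ℝ → ℝ≥0∞ := fun η => ∫⁻ u, ENNReal.ofReal ((η ^ 2)⁻¹) * F (u, η) ∂kap with hG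
  have hGm : Measurable G := by
    have h1 : Measurable (Function.uncurry fun (η u : ℝ) =>
        ENNReal.ofReal ((η ^ 2)⁻¹) * F (u, η)) := by
      refine Measurable.mul (by fun_prop) (hFm.comp (measurable_snd.prodMk measurable_fst))
    exact h1.lintegral_prod_right'
  -- the bound of `G` in one window
  have hGle : ∀ (N n : ℕ) (η : ℝ), n < N → len c n ≤ η → η ≤ 2 * len c n →
      G η ≤ ENNReal.ofReal (C * (1 / η) * ∫ u, rr c e H L N ε n u η ∂kap) := by
    intro N n η hn h1 h2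
    have hη : 0 < η := (len_pos hc n).trans_le h1
    have hint := (rr_budget M hH L N hε hε1 (h := fun _ => η) (fun _ => hη) 0).1 n
    rw [mul_assoc, ENNReal.ofReal_mul hC0.le, ENNReal.ofReal_mul (by positivity),
      ofReal_integral_eq_lintegral_ofReal hint
      (ae_of_all _ fun u => rr_nonneg M L N hε hε1 n u η), ← mul_assoc,
      ← lintegral_const_mul' _ _ (by finiteness)]
    refine lintegral_mono fun u => ?_
    have h3 : F (u, η) ≤ ENNReal.ofReal (C * (η * rr c e H L N ε n u η)) := by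
      refine Finset.sup_le fun i hi => ?_
      unfold ff2
      split_ifs with h
      · have hem : κ ≤ ∫ ω in EV e H θ i u η, inn e H (⟨u, η⟩ : ℂ) i.1 i.2.1 ω /
            ‖den e H ω (⟨u, η⟩ : ℂ) 0‖ ^ 2 ∂(PP Λ c) := by
          rw [← integral_indicator (EV_meas M θ i u hη)]
          exact h.2.1
        obtain ⟨h4, h5⟩ := key2 M hcov hκ hκ1 hK hK' hn (hBL i hi) h1 h2
          (EV_meas M θ i u hη) (Nat.cast_nonneg i.2.2) (fun ω hω => hω.1)
          hem h.2.2.1 h.2.2.2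
        rw [← ENNReal.ofReal_natCast, ← ENNReal.ofReal_inv_of_pos h4]
        refine ENNReal.ofReal_le_ofReal ?_
        rw [one_div] at h5
        exact h5
      · exact zero_le
    calc ENNReal.ofReal ((η ^ 2)⁻¹) * F (u, η)
        ≤ ENNReal.ofReal ((η ^ 2)⁻¹) * ENNReal.ofReal (C * (η * rr c e H L N ε n u η)) := by gcongr
      _ = _ := by
          rw [← ENNReal.ofReal_mul (by positivity), ← ENNReal.ofReal_mul hC0.le,
            ← ENNReal.ofReal_mul (by positivity)]
          congr 1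
          field_simp
  have hwin : ∀ N : ℕ, ∑ n ∈ Finset.range N, ∫⁻ η in Ico (len c n) (2 * len c n), G η
      ≤ ENNReal.ofReal (2 * C) := by
    intro N
    have h1 : ∑ n ∈ Finset.range N, ∫⁻ η in Ico (len c n) (2 * len c n), G η
        = ∫⁻ τ in Ico (1:ℝ) 2, ∑ n ∈ Finset.range N, ENNReal.ofReal (len c n) * G (len c n * τ) := by
      have hm : ∀ n ∈ Finset.range N, Measurable fun τ : ℝ =>
          ENNReal.ofReal (len c n) * G (len c n * τ) := fun n _ =>
        (hGm.comp (measurable_const_mul (len c n))).const_mul _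
      rw [lintegral_finsetSum _ hm]
      refine Finset.sum_congr rfl fun n _ => ?_
      rw [qv_scale (len_pos hc n) hGm, lintegral_const_mul' _ _ ENNReal.ofReal_ne_top]
    rw [h1]
    calc ∫⁻ τ in Ico (1:ℝ) 2, ∑ n ∈ Finset.range N, ENNReal.ofReal (len c n) * G (len c n * τ)
        ≤ ∫⁻ _τ in Ico (1:ℝ) 2, ENNReal.ofReal (2 * C) := by
          refine setLIntegral_mono' measurableSet_Ico fun τ hτ => ?_
          have hτ0 : 0 < τ := by linarith [hτ.1]
          have hbud := (rr_budget M hH L N hε hε1 (h := fun n => len c n * τ)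
            (fun n => mul_pos (len_pos hc n) hτ0) N).2
          have hRn : ∀ n, 0 ≤ ∫ u, rr c e H L N ε n u (len c n * τ) ∂kap := fun n =>
            integral_nonneg fun u => rr_nonneg M L N hε hε1 n u _
          calc ∑ n ∈ Finset.range N, ENNReal.ofReal (len c n) * G (len c n * τ)
              ≤ ∑ n ∈ Finset.range N,
                ENNReal.ofReal (C * ∫ u, rr c e H L N ε n u (len c n * τ) ∂kap) := by
                refine Finset.sum_le_sum fun n hn => ?_
                have hl := len_pos hc n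
                have h2 := hGle N n (len c n * τ) (Finset.mem_range.1 hn)
                  (by nlinarith [hτ.1]) (by nlinarith [hτ.2])
                refine (mul_le_mul' le_rfl h2).trans ?_
                rw [← ENNReal.ofReal_mul hl.le]
                refine ENNReal.ofReal_le_ofReal ?_
                have h3 : len c n * (C * (1 / (len c n * τ)) *
                    ∫ u, rr c e H L N ε n u (len c n * τ) ∂kap)
                    = (1 / τ) * (C * ∫ u, rr c e H L N ε n u (len c n * τ) ∂kap) := by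
                  field_simp
                rw [h3]
                refine mul_le_of_le_one_left (mul_nonneg hC0.le (hRn n)) ?_
                rw [div_le_one hτ0]
                exact hτ.1
            _ = ENNReal.ofReal (∑ n ∈ Finset.range N,
                C * ∫ u, rr c e H L N ε n u (len c n * τ) ∂kap) :=
                (ENNReal.ofReal_sum_of_nonneg fun n _ => mul_nonneg hC0.le (hRn n)).symm
            _ ≤ ENNReal.ofReal (2 * C) := by
                refine ENNReal.ofReal_le_ofReal ?_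
                rw [← Finset.mul_sum]
                nlinarith
      _ = ENNReal.ofReal (2 * C) := by
          rw [setLIntegral_const, Real.volume_Ico]
          norm_num
  calc ∫⁻ η in Ioo 0 (2 * c), G η ≤ ∫⁻ η in ⋃ n : ℕ, Ico (len c n) (2 * len c n), G η :=
        lintegral_mono_set (qv_cover c)
    _ ≤ ∑' n : ℕ, ∫⁻ η in Ico (len c n) (2 * len c n), G η := lintegral_iUnion_le _ _
    _ ≤ ENNReal.ofReal (2 * C) := ENNReal.tsum_le_of_sum_range_le hwin

/-- **The average over the energies and the scales.** -/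
theorem avg2 (M : Model c e H) (hcov : ShiftCov e H) {V : Λ → (E ≃ₗᵢ[ℂ] E)} (hH : CovOp V H)
    (θ : ℝ) {κ K K' : ℝ} (hκ : 0 < κ) (hκ1 : κ ≤ 1) (hK : 0 ≤ K) (hK' : 0 ≤ K') :
    ∀ᵐ u ∂(volume : Measure ℝ), ∫⁻ η in Ioo 0 (2 * c),
      ENNReal.ofReal ((η ^ 2)⁻¹) * ⨆ i : ℚ × Finset Λ × ℕ, ff2 c e H θ κ K K' i (u, η) < ⊤ := by
  classical
  obtain ⟨g, hg⟩ := exists_surjective_nat (ℚ × Finset Λ × ℕ)
  set Fk : ℕ → ℝ × ℝ → ℝ≥0∞ := fun k p => ENNReal.ofReal ((p.2 ^ 2)⁻¹) *
    ((Finset.range k).image g).sup (fun i => ff2 c e H θ κ K K' i p) with hFk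
  have hFkm : ∀ k, Measurable (Fk k) := by
    intro k
    exact Measurable.mul (by fun_prop) (sup2_meas M θ κ K K' ((Finset.range k).image g))
  have hmono : Monotone Fk := by
    intro i j hij p
    simp only [hFk]
    exact mul_le_mul' le_rfl (Finset.sup_mono (Finset.image_subset_image (Finset.range_mono hij)))
  have hsup : ∀ p, ⨆ k, Fk k p = ENNReal.ofReal ((p.2 ^ 2)⁻¹) *
      ⨆ i : ℚ × Finset Λ × ℕ, ff2 c e H θ κ K K' i p := by
    intro p
    simp only [hFk]
    rw [← ENNReal.mul_iSup]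
    congr 1
    refine le_antisymm (iSup_le fun k => Finset.sup_le fun i _ =>
      le_iSup (fun i => ff2 c e H θ κ K K' i p) i) ?_
    refine iSup_le fun i => ?_
    obtain ⟨j, rfl⟩ := hg i
    refine le_trans ?_ (le_iSup _ (j + 1))
    exact Finset.le_sup (f := fun i => ff2 c e H θ κ K K' i p)
      (Finset.mem_image_of_mem g (by simp))
  have hle : ∀ k, ∫⁻ p, Fk k p ∂(kap.prod (volume.restrict (Ioo 0 (2 * c))))
      ≤ ENNReal.ofReal (2 * (256 * QQ c K K' ^ 2 / (ee2 κ c K K' * c * κ ^ 2))) := by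
    intro k
    rw [lintegral_prod_symm _ (hFkm k).aemeasurable]
    exact fin2 M hcov hH θ hκ hκ1 hK hK' _
  have hfin : ∫⁻ p, ⨆ k, Fk k p ∂(kap.prod (volume.restrict (Ioo 0 (2 * c)))) < ⊤ := by
    rw [lintegral_iSup hFkm hmono]
    exact lt_of_le_of_lt (iSup_le hle) ENNReal.ofReal_lt_top
  have hm : Measurable fun p : ℝ × ℝ => ⨆ k, Fk k p := Measurable.iSup hFkm
  rw [lintegral_prod _ hm.aemeasurable] at hfin
  have hae := ae_lt_top hm.lintegral_prod_right' hfin.ne
  refine ac_kap.ae_le ?_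
  filter_upwards [hae] with u hu
  simp_rw [hsup] at hu
  exact hu

end Pool.Agent.Lib.MP_562b47_mp.TR
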