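import Mathlib
import Pool.Agent.Lib.MP_562b47_mp.QV.Set
import Pool.Agent.Lib.MP_562b47_mp.TR.Bad

/-!
Transient energies with random sets (MP_562b47_mp), module UI: uniform integrability of
`Im G(0,0)` at an energy where its boundary value is almost surely positive.
-/

open MeasureTheory Set Filter Topology Complex
open scoped Real ENNReal NNReal InnerProductSpace

set_option linter.unusedSectionVars false

namespace Pool.Agent.Lib.MP_562b47_mp.TR

open Pool.Agent.Lib.MP_562b47_mp.QP Pool.Agent.Lib.MP_562b47_mp.QV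

variable {Λ : Type*} [DecidableEq Λ] [AddCommGroup Λ] [Countable Λ] {E : Type*}
  [NormedAddCommGroup E] [InnerProductSpace ℂ E] [CompleteSpace E] {c : ℝ} {e : Λ → E}
  {H : (Λ → ℝ) → (E →L[ℂ] E)}

theorem site_form (a q v : ℝ) :
    (((v : ℂ) - ⟨a, q⟩)⁻¹).im = q / ((v - a) ^ 2 + q ^ 2) := by
  rw [Complex.inv_im, Complex.normSq_apply]
  simp only [Complex.sub_re, Complex.sub_im, Complex.ofReal_re, Complex.ofReal_im, zero_sub,
    neg_neg]
  congr 1
  ring

/-- spectral averaging -/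
theorem site_int {c : ℝ} (hc : 0 < c) {a q : ℝ} (hq : 0 < q) :
    ∫ v : ℝ, (((v : ℂ) - ⟨a, q⟩)⁻¹).im ∂(unif c) ≤ Real.pi / (2 * c) := by
  simp_rw [site_form]
  rw [integral_unif hc]
  have hd : ∀ v ∈ Set.uIcc (-c) c, HasDerivAt (fun v : ℝ => Real.arctan ((v - a) / q))
      (q / ((v - a) ^ 2 + q ^ 2)) v := by
    intro v _
    have h1 : HasDerivAt (fun v : ℝ => (v - a) / q) (1 / q) v :=
      ((hasDerivAt_id v).sub_const _).div_const _
    have h2 := h1.arctan
    convert h2 using 1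
    have h3 : 0 < (v - a) ^ 2 + q ^ 2 := by positivity
    field_simp
    ring
  have hi : IntervalIntegrable (fun v : ℝ => q / ((v - a) ^ 2 + q ^ 2)) volume (-c) c := by
    refine Continuous.intervalIntegrable ?_ _ _
    refine Continuous.div continuous_const (by fun_prop) fun v => ?_
    positivity
  rw [intervalIntegral.integral_eq_sub_of_hasDerivAt hd hi]
  have h1 := Real.arctan_lt_pi_div_two ((c - a) / q)
  have h2 := Real.neg_pi_div_two_lt_arctan ((-c - a) / q)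
  have h3 : Real.pi / (2 * c) = (2 * c)⁻¹ * Real.pi := by
    rw [div_eq_mul_inv, mul_comm]
  rw [h3]
  exact mul_le_mul_of_nonneg_left (by linarith) (by positivity)

/-- the imaginary part of `-1/G(0,0)` -/
noncomputable def qq (e : Λ → E) (H : (Λ → ℝ) → (E →L[ℂ] E)) (z : ℂ) (ω : Λ → ℝ) : ℝ :=
  (Gr e H ω z 0 0).im / ‖Gr e H ω z 0 0‖ ^ 2

theorem Gr_ne (M : Model c e H) {z : ℂ} (hz : 0 < z.im) (ω : Λ → ℝ) (x : Λ) :
    Gr e H ω z x x ≠ 0 := by
  intro h
  have := M.im_Gr_pos ω hz x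
  rw [h, Complex.zero_im] at this
  exact lt_irrefl _ this

/-- the dependence on the potential at the origin -/
theorem Gr_form (M : Model c e H) {z : ℂ} (hz : 0 < z.im) (ω : Λ → ℝ) :
    ∃ a : ℝ, ∀ v ∈ Icc (-c) c, Gr e H (Function.update ω 0 v) z 0 0
      = ((v : ℂ) - ⟨a, qq e H z ω⟩)⁻¹ := by
  have hne := Gr_ne M hz ω 0
  set β := Gr e H ω z 0 0 with hβ
  refine ⟨clp c (ω 0) - (β⁻¹).re, fun v hv => ?_⟩
  have h1 := M.Gr_upd_mul ω hz 0 v 0
  rw [clp_of_mem hv, ← hβ] at h1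
  have h2 : (⟨clp c (ω 0) - (β⁻¹).re, qq e H z ω⟩ : ℂ) = ((clp c (ω 0) : ℝ) : ℂ) - β⁻¹ := by
    apply Complex.ext
    · rw [Complex.sub_re, Complex.ofReal_re]
    · rw [Complex.sub_im, Complex.ofReal_im, zero_sub, Complex.inv_im]
      unfold qq
      rw [← hβ, Complex.normSq_eq_norm_sq]
      simp only
      ring
  rw [h2]
  have h3 : 1 + ((v - clp c (ω 0) : ℝ) : ℂ) * β
      = β * ((v : ℂ) - (((clp c (ω 0) : ℝ) : ℂ) - β⁻¹)) := by
    push_cast
    field_simp
    ring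
  rw [h3] at h1
  have h4 : Gr e H (Function.update ω 0 v) z 0 0 *
      ((v : ℂ) - (((clp c (ω 0) : ℝ) : ℂ) - β⁻¹)) = 1 := by
    have h5 : β * (Gr e H (Function.update ω 0 v) z 0 0 *
        ((v : ℂ) - (((clp c (ω 0) : ℝ) : ℂ) - β⁻¹))) = β * 1 := by
      rw [mul_one, mul_left_comm]
      exact h1
    exact mul_left_cancel₀ hne h5
  exact eq_inv_of_mul_eq_one_left h4

theorem qq_pos (M : Model c e H) {z : ℂ} (hz : 0 < z.im) (ω : Λ → ℝ) : 0 < qq e H z ω := by
  unfold qq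
  have h1 := M.im_Gr_pos ω hz 0
  have h2 := norm_pos_iff.mpr (Gr_ne M hz ω 0)
  positivity

theorem qq_meas (M : Model c e H) {z : ℂ} (hz : 0 < z.im) : Measurable (qq e H z) := by
  unfold qq
  exact (Complex.measurable_im.comp (Gr_cont M hz 0 0).measurable).div
    ((Gr_cont M hz 0 0).norm.pow 2).measurable

/-- the resonant origin -/
theorem bk_le (M : Model c e H) {K : ℝ} (hK : 0 < K) (u : ℝ) {η : ℝ} (hη : 0 < η) :
    bk c e H K u η ≤ Real.pi / (2 * c) *
      (PP Λ c).real {ω | qq e H (⟨u, η⟩ : ℂ) ω < 1 / K} := by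
  classical
  have hc := M.hc
  have := PP_prob Λ hc
  have := unif_prob hc
  set z : ℂ := ⟨u, η⟩ with hzd
  have hz : 0 < z.im := hη
  set f : (Λ → ℝ) → ℝ := (RS e H z K 0).indicator (fun ω => (Gr e H ω z 0 0).im) with hf
  have hfm : Measurable f :=
    (Complex.measurable_im.comp (Gr_cont M hz 0 0).measurable).indicator (RS_meas M hz K 0)
  have hfC : ∀ ω, |f ω| ≤ 1 / z.im := by
    intro ω
    rw [hf, indicator_apply]
    split_ifs
    · exact (Complex.abs_im_le_norm _).trans (M.norm_Gr_le ω hz 0 0)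
    · rw [abs_zero]; positivity
  have hqm : MeasurableSet {ω | qq e H z ω < 1 / K} :=
    measurableSet_lt (qq_meas M hz) measurable_const
  rw [bk_eq, ← hzd]
  change ∫ ω, f ω ∂(PP Λ c) ≤ _
  rw [← integral_resample hc 0 hfm hfC]
  have hint : Integrable (({ω | qq e H z ω < 1 / K}).indicator
      (fun _ : Λ → ℝ => Real.pi / (2 * c))) (PP Λ c) := (integrable_const _).indicator hqm
  have h2 : ∫ ω, ({ω | qq e H z ω < 1 / K}).indicator (fun _ : Λ → ℝ => Real.pi / (2 * c)) ω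
      ∂(PP Λ c) = Real.pi / (2 * c) * (PP Λ c).real {ω | qq e H z ω < 1 / K} := by
    rw [integral_indicator hqm, setIntegral_const, smul_eq_mul, mul_comm]
  rw [← h2]
  refine integral_mono_of_nonneg (ae_of_all _ fun ω => integral_nonneg fun v => ?_) hint
    (ae_of_all _ fun ω => ?_)
  · rw [hf]
    exact indicator_nonneg (fun ω _ => (M.im_Gr_pos ω hz 0).le) _
  · simp only
    obtain ⟨a, ha⟩ := Gr_form M hz ω
    have hq := qq_pos M hz ω
    by_cases h3 : qq e H z ω < 1 / K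
    · have h3' : ω ∈ {ω | qq e H z ω < 1 / K} := h3
      rw [indicator_of_mem h3']
      refine le_trans ?_ (site_int hc (a := a) hq)
      refine integral_mono_of_nonneg (ae_of_all _ fun v => ?_) ?_ ?_
      · rw [hf]
        exact indicator_nonneg (fun ω _ => (M.im_Gr_pos ω hz 0).le) _
      · simp_rw [site_form]
        refine Integrable.of_bound (C := 1 / qq e H z ω) ?_ (ae_of_all _ fun v => ?_)
        · exact (Continuous.div continuous_const (by fun_prop) fun v => by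
            positivity).aestronglyMeasurable
        · rw [Real.norm_of_nonneg (by positivity), div_le_div_iff₀ (by positivity) hq]
          nlinarith [sq_nonneg (v - a)]
      · filter_upwards [ae_unif c] with v hv
        rw [hf, indicator_apply, ha v hv]
        split_ifs
        · exact le_rfl
        · rw [site_form]
          positivity
    · have h3' : ω ∉ {ω | qq e H z ω < 1 / K} := h3
      rw [indicator_of_notMem h3']
      refine le_of_eq ?_
      have h4 : ∀ᵐ v ∂(unif c), f (Function.update ω 0 v) = 0 := by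
        filter_upwards [ae_unif c] with v hv
        rw [hf]
        refine indicator_of_notMem ?_ _
        intro h5
        have h6 : K < ‖Gr e H (Function.update ω 0 v) z 0 0‖ := h5
        rw [ha v hv, norm_inv] at h6
        push Not at h3
        have h7 : 1 / K ≤ ‖(v : ℂ) - ⟨a, qq e H z ω⟩‖ := by
          refine h3.trans ?_
          have h8 := Complex.abs_im_le_norm ((v : ℂ) - ⟨a, qq e H z ω⟩)
          rw [Complex.sub_im, Complex.ofReal_im, zero_sub, abs_neg] at h8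
          exact (le_abs_self _).trans h8
        have h9 : ‖(v : ℂ) - ⟨a, qq e H z ω⟩‖⁻¹ ≤ K := by
          rw [inv_le_comm₀ (lt_of_lt_of_le (by positivity) h7) hK, ← one_div]
          exact h7
        linarith
      rw [integral_congr_ae h4, integral_zero]

/-- the Green function at the origin is not large -/
theorem big_le (M : Model c e H) (u : ℝ) {η : ℝ} (hη : 0 < η) {K : ℝ} (hK : 0 < K) :
    (PP Λ c).real {ω | K ^ 2 < ‖Gr e H ω (⟨u, η⟩ : ℂ) 0 0‖} ≤ 8 * (1 / c) ^ (1/2 : ℝ) / K := by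
  have := PP_prob Λ M.hc
  obtain ⟨h1, h2⟩ := qv_half M 0 hη u
  have h3 := mul_meas_ge_le_integral_of_nonneg (ae_of_all (PP Λ c) fun ω =>
    Real.rpow_nonneg (norm_nonneg (Gr e H ω (⟨u, η⟩ : ℂ) 0 0)) (1/2 : ℝ)) h1 K
  have h4 : {ω | K ^ 2 < ‖Gr e H ω (⟨u, η⟩ : ℂ) 0 0‖} ⊆
      {ω | K ≤ ‖Gr e H ω (⟨u, η⟩ : ℂ) 0 0‖ ^ (1/2 : ℝ)} := by
    intro ω hω
    have hω' : K ^ 2 < ‖Gr e H ω (⟨u, η⟩ : ℂ) 0 0‖ := hω
    change K ≤ _
    rw [← Real.sqrt_eq_rpow]
    exact Real.le_sqrt_of_sq_le hω'.le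
  rw [le_div_iff₀ hK, mul_comm]
  calc K * (PP Λ c).real {ω | K ^ 2 < ‖Gr e H ω (⟨u, η⟩ : ℂ) 0 0‖}
      ≤ K * (PP Λ c).real {ω | K ≤ ‖Gr e H ω (⟨u, η⟩ : ℂ) 0 0‖ ^ (1/2 : ℝ)} := by
        gcongr
        exact measure_ne_top _ _
    _ ≤ _ := h3
    _ ≤ _ := h2

/-- the sections of the sets `ZZ j` exhaust the probability space -/
theorem ZZ_large (M : Model c e H) {u : ℝ} (h : ∀ᵐ ω ∂(PP Λ c), ∃ j : ℕ, (u, ω) ∈ ZZ e H j)
    {ε : ℝ} (hε : 0 < ε) :
    ∃ j : ℕ, (PP Λ c).real {ω | (u, ω) ∉ ZZ e H j} ≤ ε := by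
  have := PP_prob Λ M.hc
  set Z : ℕ → Set (Λ → ℝ) := fun j => {ω | (u, ω) ∉ ZZ e H j} with hZ
  have hm : ∀ j, MeasurableSet (Z j) := fun j =>
    ((ZZ_closed M j).measurableSet.preimage measurable_prodMk_left).compl
  have hanti : Antitone Z := by
    intro i j hij ω hω hω'
    apply hω
    intro η hη hη1
    have h1 : (1:ℝ) / ((j:ℝ) + 1) ≤ 1 / ((i:ℝ) + 1) := by
      have : (i:ℝ) ≤ j := by exact_mod_cast hij
      gcongr
    exact h1.trans (hω' η hη (hη1.trans_le h1))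
  have hinter : (PP Λ c) (⋂ j, Z j) = 0 := by
    rw [measure_eq_zero_iff_ae_notMem]
    filter_upwards [h] with ω hω hω'
    obtain ⟨j, hj⟩ := hω
    exact (mem_iInter.1 hω' j) hj
  have htend := tendsto_measure_iInter_atTop (μ := PP Λ c) (fun j => (hm j).nullMeasurableSet)
    hanti ⟨0, measure_ne_top _ _⟩
  rw [hinter] at htend
  have h2 : Tendsto (fun j => (PP Λ c).real (Z j)) atTop (𝓝 0) := by
    have := (ENNReal.tendsto_toReal (by norm_num : (0:ℝ≥0∞) ≠ ⊤)).comp htend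
    rw [ENNReal.toReal_zero] at this
    exact this
  obtain ⟨j, hj⟩ := (h2.eventually_le_const hε).exists
  exact ⟨j, hj⟩

/-- **Uniform integrability.** -/
theorem ui (M : Model c e H) {u : ℝ} (h : ∀ᵐ ω ∂(PP Λ c), ∃ j : ℕ, (u, ω) ∈ ZZ e H j)
    {ε : ℝ} (hε : 0 < ε) :
    ∃ K₀ : ℝ, 0 < K₀ ∧ ∃ η₀ : ℝ, 0 < η₀ ∧ ∀ K, K₀ ≤ K → ∀ η, 0 < η → η < η₀ →
      bk c e H K u η ≤ ε := by
  have hc := M.hc
  have := PP_prob Λ hc
  set ε' : ℝ := ε * (2 * c) / (2 * Real.pi) with hε'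
  have hε'0 : 0 < ε' := by positivity
  obtain ⟨j, hj⟩ := ZZ_large M h hε'0
  set A : ℝ := 8 * (1 / c) ^ (1/2 : ℝ) with hA
  have hA0 : 0 < A := by positivity
  set K₁ : ℝ := A / ε' with hK₁
  have hK₁0 : 0 < K₁ := by positivity
  refine ⟨K₁ ^ 4 * ((j:ℝ) + 1), by positivity, 1 / ((j:ℝ) + 1), by positivity, ?_⟩
  intro K hK η hη hη1
  have hK0 : 0 < K := lt_of_lt_of_le (by positivity) hK
  refine (bk_le M hK0 u hη).trans ?_
  set z : ℂ := ⟨u, η⟩ with hzd
  have hz : 0 < z.im := hη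
  have h1 : (PP Λ c).real {ω | qq e H z ω < 1 / K} ≤ ε' + ε' := by
    have h2 : {ω | qq e H z ω < 1 / K} ⊆
        {ω | (u, ω) ∉ ZZ e H j} ∪ {ω | K₁ ^ 2 < ‖Gr e H ω z 0 0‖} := by
      intro ω hω
      by_contra hcon
      simp only [mem_union, mem_ofPred_eq, not_or, not_not, not_lt] at hcon
      obtain ⟨h3, h4⟩ := hcon
      have h5 := h3 η hη hη1
      have hω' : qq e H z ω < 1 / K := hω
      have h6 : 1 / K ≤ qq e H z ω := by
        unfold qq
        have hG := norm_pos_iff.mpr (Gr_ne M hz ω 0)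
        rw [div_le_div_iff₀ hK0 (by positivity), one_mul]
        have h7 : ‖Gr e H ω z 0 0‖ ^ 2 ≤ (K₁ ^ 2) ^ 2 := pow_le_pow_left₀ (norm_nonneg _) h4 2
        have h8 := (M.im_Gr_pos ω hz 0).le
        calc ‖Gr e H ω z 0 0‖ ^ 2 ≤ (K₁ ^ 2) ^ 2 := h7
          _ = 1 / ((j:ℝ) + 1) * (K₁ ^ 4 * ((j:ℝ) + 1)) := by
              field_simp
          _ ≤ (Gr e H ω z 0 0).im * K := by
              gcongr
      linarith
    refine (measureReal_mono h2 (measure_ne_top _ _)).trans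
      ((measureReal_union_le _ _).trans (add_le_add hj ?_))
    refine (big_le M u hη hK₁0).trans (le_of_eq ?_)
    rw [hK₁, ← hA]
    field_simp
  calc Real.pi / (2 * c) * (PP Λ c).real {ω | qq e H z ω < 1 / K}
      ≤ Real.pi / (2 * c) * (ε' + ε') := by gcongr
    _ = ε := by
        rw [hε']
        field_simp
        ring

end Pool.Agent.Lib.MP_562b47_mp.TR
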