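import Mathlib
import Pool.Agent.Lib.MP_562b47_mp.Cc.Claim
import Pool.Agent.Lib.MP_562b47_mp.Limit

/-!
Transient energies with random sets (MP_562b47_mp), module ZO: a zero-one law for the boundary
values of the Green function.
-/

open MeasureTheory Set Filter Topology Complex
open scoped Real ENNReal NNReal InnerProductSpace

set_option linter.unusedSectionVars false

namespace Pool.Agent.Lib.MP_562b47_mp.TR

section abstract_zo

variable {Λ : Type*} [DecidableEq Λ] {X : Type*} [MeasurableSpace X]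

/-- a set which resampling of one coordinate does not leave has probability `0` or `1` -/
theorem zero_one (μ : Measure X) [IsProbabilityMeasure μ] {B : Set (Λ → X)}
    (hB : MeasurableSet B)
    (h : ∀ y, ∀ᵐ p ∂((Measure.infinitePi (fun _ : Λ => μ)).prod μ),
      p.1 ∈ B → Function.update p.1 y p.2 ∈ B) :
    Measure.infinitePi (fun _ : Λ => μ) B = 0 ∨
      ∀ᵐ ω ∂(Measure.infinitePi (fun _ : Λ => μ)), ω ∈ B := by
  classical
  set P : Measure (Λ → X) := Measure.infinitePi (fun _ : Λ => μ) with hP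
  by_cases h0 : P B = 0
  · exact Or.inl h0
  right
  have h1 : ∀ y, ∀ᵐ p ∂(P.prod μ), (p.1 ∈ B ↔ Function.update p.1 y p.2 ∈ B) := by
    intro y
    have hmp := measurePreserving_upd μ y
    rw [← hP] at hmp
    set B1 : Set ((Λ → X) × X) := Prod.fst ⁻¹' B with hB1
    set B2 : Set ((Λ → X) × X) := (fun p => Function.update p.1 y p.2) ⁻¹' B with hB2
    have hm1 : MeasurableSet B1 := measurable_fst hB
    have e1 : (P.prod μ) B1 = P B := by
      have : B1 = B ×ˢ univ := by ext p; simp [hB1]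
      rw [this, Measure.prod_prod, measure_univ, mul_one]
    have e2 : (P.prod μ) B2 = P B := hmp.measure_preimage hB.nullMeasurableSet
    have hsub : B1 ≤ᵐ[P.prod μ] B2 := by
      filter_upwards [h y] with p hp hp1
      exact hp hp1
    have h2 := ae_eq_of_ae_subset_of_measure_ge hsub (by rw [e1, e2]) hm1.nullMeasurableSet
      (measure_ne_top _ _)
    filter_upwards [h2] with p hp
    exact hp.to_iff
  have h2 : ∀ (s : Finset Λ) (t : Λ → Set X), (∀ i, MeasurableSet (t i)) →
      P (B ∩ Set.pi s t) = P B * ∏ i ∈ s, μ (t i) := by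
    intro s t ht
    induction s using Finset.induction_on with
    | empty => simp
    | insert y s hy ih =>
      have hmp := measurePreserving_upd μ y
      rw [← hP] at hmp
      have hms : ∀ s : Finset Λ, MeasurableSet (Set.pi (s : Set Λ) t) := fun s =>
        MeasurableSet.pi s.countable_toSet fun i _ => ht i
      rw [← hmp.measure_preimage (hB.inter (hms _)).nullMeasurableSet]
      have e1 : (P.prod μ) ((fun p => Function.update p.1 y p.2) ⁻¹'
            (B ∩ Set.pi ((insert y s : Finset Λ) : Set Λ) t))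
          = (P.prod μ) ((B ∩ Set.pi (s : Set Λ) t) ×ˢ (t y)) := by
        refine measure_congr ?_
        filter_upwards [h1 y] with p hp
        refine propext ?_
        have e2 : (Function.update p.1 y p.2 ∈ Set.pi ((insert y s : Finset Λ) : Set Λ) t) ↔
            p.1 ∈ Set.pi (s : Set Λ) t ∧ p.2 ∈ t y := by
          simp only [Set.mem_pi, Finset.mem_coe, Finset.mem_insert]
          constructor
          · intro h3
            refine ⟨fun i hi => ?_, ?_⟩
            · have h4 := h3 i (Or.inr hi)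
              have hne : i ≠ y := fun h5 => hy (h5 ▸ hi)
              rwa [Function.update_of_ne hne] at h4
            · have h4 := h3 y (Or.inl rfl)
              rwa [Function.update_self] at h4
          · rintro ⟨h3, h4⟩ i hi
            rcases hi with rfl | hi
            · rwa [Function.update_self]
            · have hne : i ≠ y := fun h5 => hy (h5 ▸ hi)
              rw [Function.update_of_ne hne]
              exact h3 i hi
        change (Function.update p.1 y p.2 ∈ B ∧
          Function.update p.1 y p.2 ∈ Set.pi ((insert y s : Finset Λ) : Set Λ) t) ↔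
          ((p.1 ∈ B ∧ p.1 ∈ Set.pi (s : Set Λ) t) ∧ p.2 ∈ t y)
        rw [e2, ← hp]
        tauto
      rw [e1, Measure.prod_prod, ih, Finset.prod_insert hy]
      ring
  have h3 : (P B)⁻¹ • P.restrict B = P := by
    rw [hP]
    refine Measure.eq_infinitePi _ fun s t ht => ?_
    rw [← hP]
    have hms : MeasurableSet (Set.pi (s : Set Λ) t) :=
      MeasurableSet.pi s.countable_toSet fun i _ => ht i
    rw [Measure.smul_apply, Measure.restrict_apply hms, smul_eq_mul, inter_comm, h2 s t ht,
      ← mul_assoc, ENNReal.inv_mul_cancel h0 (measure_ne_top _ _), one_mul]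
  have h4 : P Bᶜ = 0 := by
    rw [← h3, Measure.smul_apply, Measure.restrict_apply hB.compl, compl_inter_self,
      measure_empty, smul_zero]
  exact mem_ae_iff.2 h4

end abstract_zo

section model

variable {Λ : Type*} [DecidableEq Λ] [AddCommGroup Λ] [Countable Λ] {E : Type*}
  [NormedAddCommGroup E] [InnerProductSpace ℂ E] [CompleteSpace E] {c : ℝ} {e : Λ → E}
  {H : (Λ → ℝ) → (E →L[ℂ] E)}

/-- a set which meets every line parallel to a coordinate axis at most once is null -/
theorem one_null (hc : 0 < c) (y : Λ) {A : Set (Λ → ℝ)} (hA : MeasurableSet A)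
    (h : ∀ ω, ∀ v ∈ Icc (-c) c, ∀ v' ∈ Icc (-c) c, v ≠ v' → Function.update ω y v ∈ A →
      Function.update ω y v' ∈ A → False) : (PP Λ c) A = 0 := by
  have := unif_prob hc
  have hmp : MeasurePreserving (fun p : (Λ → ℝ) × ℝ => Function.update p.1 y p.2)
      ((PP Λ c).prod (unif c)) (PP Λ c) := measurePreserving_upd (unif c) y
  rw [← hmp.measure_preimage hA.nullMeasurableSet,
    Measure.measure_prod_null (hmp.measurable hA)]
  refine ae_of_all _ fun ω => ?_
  have h1 : (unif c) ({v | Function.update ω y v ∈ A} ∩ Icc (-c) c) = 0 := by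
    have hss : ({v | Function.update ω y v ∈ A} ∩ Icc (-c) c).Subsingleton := by
      intro v hv v' hv'
      by_contra hne
      exact h ω v hv.2 v' hv'.2 hne hv.1 hv'.1
    unfold unif
    rw [Measure.smul_apply, hss.measure_zero, smul_zero]
  have h2 : (unif c) {v | Function.update ω y v ∈ A}
      = (unif c) ({v | Function.update ω y v ∈ A} ∩ Icc (-c) c) := by
    refine measure_congr ?_
    filter_upwards [ae_unif c] with v hv
    refine propext ?_
    change Function.update ω y v ∈ A ↔ (Function.update ω y v ∈ A ∧ v ∈ Icc (-c) c)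
    tauto
  exact h2.trans h1

/-- the limit of the imaginary part along a sequence -/
noncomputable def LZ (e : Λ → E) (H : (Λ → ℝ) → (E →L[ℂ] E)) (z : ℕ → ℂ) (x : Λ)
    (ω : Λ → ℝ) : ℝ := limUnder atTop fun k => (Gr e H ω (z k) x x).im

/-- the set of convergence -/
def CVz (e : Λ → E) (H : (Λ → ℝ) → (E →L[ℂ] E)) (z : ℕ → ℂ) : Set (Λ → ℝ) :=
  {ω | ∀ x, ∃ l, Tendsto (fun k => (Gr e H ω (z k) x x).im) atTop (𝓝 l)}

variable {z : ℕ → ℂ}

theorem zo_cont (M : Model c e H) (hz : ∀ k, 0 < (z k).im) (k : ℕ) (x y : Λ) :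
    Continuous fun ω : Λ → ℝ => Gr e H ω (z k) x y :=
  M.continuous_Gr continuous_id continuous_const (fun _ => hz k) x y

theorem zo_tendsto {ω : Λ → ℝ} (h : ω ∈ CVz e H z) (x : Λ) :
    Tendsto (fun k => (Gr e H ω (z k) x x).im) atTop (𝓝 (LZ e H z x ω)) :=
  tendsto_nhds_limUnder (h x)

theorem LZ_nonneg (M : Model c e H) (hz : ∀ k, 0 < (z k).im) {ω : Λ → ℝ} (h : ω ∈ CVz e H z)
    (x : Λ) : 0 ≤ LZ e H z x ω :=
  ge_of_tendsto' (zo_tendsto h x) fun k => (M.im_Gr_pos ω (hz k) x).le

theorem LZ_meas (M : Model c e H) (hz : ∀ k, 0 < (z k).im) (x : Λ) :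
    Measurable (LZ e H z x) :=
  (StronglyMeasurable.limUnder fun k =>
    (Complex.continuous_im.comp (zo_cont M hz k x x)).measurable.stronglyMeasurable).measurable

theorem CVz_meas (M : Model c e H) (hz : ∀ k, 0 < (z k).im) : MeasurableSet (CVz e H z) := by
  have : CVz e H z = ⋂ x, {ω | ∃ l, Tendsto (fun k => (Gr e H ω (z k) x x).im) atTop (𝓝 l)} := by
    ext p; simp [CVz]
  rw [this]
  refine MeasurableSet.iInter fun x => ?_
  exact MeasureTheory.measurableSet_exists_tendsto fun k =>
    (Complex.continuous_im.comp (zo_cont M hz k x x)).measurable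

/-- two values of the potential at `y`: the off-diagonal entry is small -/
theorem two_values (M : Model c e H) {w : ℂ} (hw : 0 < w.im) (ω : Λ → ℝ) (x y : Λ) (v : ℝ) :
    |clp c v - clp c (ω y)| * ‖Gr e H (Function.update ω y v) w x y‖ * √(Gr e H ω w y y).im
      ≤ √(Gr e H ω w x x).im + √(Gr e H (Function.update ω y v) w x x).im := by
  have h1 := M.Rv_upd_gen ω hw.ne' y v (e x)
  have h2 : ∀ (ω : Λ → ℝ) (x : Λ), √(Gr e H ω w x x).im = √w.im * ‖Rv (H ω) w (e x)‖ := by
    intro ω x
    unfold Gr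
    rw [im_inner_Rv (M.sa ω) hw.ne', Real.sqrt_mul hw.le, Real.sqrt_sq (norm_nonneg _)]
  rw [h2, h2, h2, M.Gr_symm _ hw x y]
  have h3 : |clp c v - clp c (ω y)| * ‖Gr e H (Function.update ω y v) w y x‖
      * ‖Rv (H ω) w (e y)‖ ≤ ‖Rv (H ω) w (e x)‖
        + ‖Rv (H (Function.update ω y v)) w (e x)‖ := by
    have h4 : (((clp c v - clp c (ω y) : ℝ) : ℂ) *
        ⟪e y, Rv (H (Function.update ω y v)) w (e x)⟫_ℂ) • Rv (H ω) w (e y)
        = Rv (H ω) w (e x) - Rv (H (Function.update ω y v)) w (e x) := by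
      rw [eq_sub_iff_add_eq, add_comm]
      exact eq_sub_iff_add_eq.1 h1
    have h5 := congrArg norm h4
    rw [norm_smul, norm_mul, Complex.norm_real, Real.norm_eq_abs] at h5
    unfold Gr
    rw [h5]
    exact norm_sub_le _ _
  calc |clp c v - clp c (ω y)| * ‖Gr e H (Function.update ω y v) w y x‖
        * (√w.im * ‖Rv (H ω) w (e y)‖)
      = √w.im * (|clp c v - clp c (ω y)| * ‖Gr e H (Function.update ω y v) w y x‖
        * ‖Rv (H ω) w (e y)‖) := by ring
    _ ≤ √w.im * (‖Rv (H ω) w (e x)‖ + ‖Rv (H (Function.update ω y v)) w (e x)‖) := by gcongr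
    _ = _ := by ring

/-- a bad site has no good neighbours -/
theorem f1 (M : Model c e H) (hz : ∀ k, 0 < (z k).im)
    (hcv : ∀ᵐ ω ∂(PP Λ c), ω ∈ CVz e H z) {x y : Λ}
    (hadj : ∀ᵐ ω ∂(PP Λ c), ¬ Tendsto (fun k => Gr e H ω (z k) x y) atTop (𝓝 0)) :
    ∀ᵐ ω ∂(PP Λ c), LZ e H z x ω = 0 → LZ e H z y ω = 0 := by
  have hc := M.hc
  set A : Set (Λ → ℝ) := {ω | ω ∈ CVz e H z ∧
    ¬ Tendsto (fun k => Gr e H ω (z k) x y) atTop (𝓝 0) ∧ LZ e H z x ω = 0 ∧
    LZ e H z y ω ≠ 0} with hA
  have hAm : MeasurableSet A := by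
    refine (CVz_meas M hz).inter (MeasurableSet.inter ?_ (MeasurableSet.inter ?_ ?_))
    · exact (measurableSet_tendsto (𝓝 0) fun k => (zo_cont M hz k x y).measurable).compl
    · exact LZ_meas M hz x (measurableSet_singleton 0)
    · exact (LZ_meas M hz y (measurableSet_singleton 0)).compl
  have h0 : (PP Λ c) A = 0 := by
    refine one_null hc y hAm fun ω v hv v' hv' hne h1 h2 => ?_
    set ω₁ := Function.update ω y v with hω₁
    have e2 : Function.update ω y v' = Function.update ω₁ y v' := by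
      rw [hω₁, Function.update_idem]
    rw [e2] at h2
    obtain ⟨hc1, hn1, hx1, hy1⟩ := h1
    obtain ⟨hc2, hn2, hx2, hy2⟩ := h2
    apply hn2
    set t : ℝ := |clp c v' - clp c (ω₁ y)| with ht
    have ht0 : 0 < t := by
      rw [ht, hω₁, Function.update_self, clp_of_mem hv, clp_of_mem hv', abs_pos, sub_ne_zero]
      exact hne.symm
    have l1 := (zo_tendsto hc1 x).sqrt
    have l2 := (zo_tendsto hc2 x).sqrt
    have l3 := (zo_tendsto hc1 y).sqrt
    rw [hx1, Real.sqrt_zero] at l1
    rw [hx2, Real.sqrt_zero] at l2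
    have hpos : 0 < √(LZ e H z y ω₁) :=
      Real.sqrt_pos.2 (lt_of_le_of_ne (LZ_nonneg M hz hc1 y) (Ne.symm hy1))
    have l4 : Tendsto (fun k => (√(Gr e H ω₁ (z k) x x).im
        + √(Gr e H (Function.update ω₁ y v') (z k) x x).im)
        / (t * √(Gr e H ω₁ (z k) y y).im)) atTop (𝓝 ((0 + 0) / (t * √(LZ e H z y ω₁)))) :=
      (l1.add l2).div (l3.const_mul t) (by positivity)
    rw [add_zero, zero_div] at l4
    rw [tendsto_zero_iff_norm_tendsto_zero]
    refine tendsto_of_tendsto_of_tendsto_of_le_of_le tendsto_const_nhds l4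
      (fun k => norm_nonneg _) fun k => ?_
    have h3 := two_values M (hz k) ω₁ x y v'
    have h4 : 0 < √(Gr e H ω₁ (z k) y y).im := Real.sqrt_pos.2 (M.im_Gr_pos ω₁ (hz k) y)
    simp only
    rw [le_div_iff₀ (by positivity)]
    rw [← ht] at h3
    nlinarith
  have h1 : ∀ᵐ ω ∂(PP Λ c), ω ∉ A := measure_eq_zero_iff_ae_notMem.1 h0
  filter_upwards [h1, hcv, hadj] with ω hω h2 h3 h4
  by_contra h5
  exact hω ⟨h2, h3, h4, h5⟩

/-- a bad site stays bad when its potential is changed -/
theorem f3 (M : Model c e H) (hz : ∀ k, 0 < (z k).im)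
    (hcv : ∀ᵐ ω ∂(PP Λ c), ω ∈ CVz e H z) (y : Λ) :
    ∀ᵐ p ∂((PP Λ c).prod (unif c)), LZ e H z y p.1 = 0 →
      LZ e H z y (Function.update p.1 y p.2) = 0 := by
  have hc := M.hc
  have := unif_prob hc
  have := PP_prob Λ hc
  have hmp : MeasurePreserving (fun p : (Λ → ℝ) × ℝ => Function.update p.1 y p.2)
      ((PP Λ c).prod (unif c)) (PP Λ c) := measurePreserving_upd (unif c) y
  have hcv1 : ∀ᵐ p ∂((PP Λ c).prod (unif c)), p.1 ∈ CVz e H z :=
    (Measure.quasiMeasurePreserving_fst (μ := PP Λ c) (ν := unif c)).ae hcv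
  have hcv2 : ∀ᵐ p ∂((PP Λ c).prod (unif c)), Function.update p.1 y p.2 ∈ CVz e H z :=
    hmp.quasiMeasurePreserving.ae hcv
  set A : Set ((Λ → ℝ) × ℝ) := {p | (p.1 ∈ CVz e H z ∧ Function.update p.1 y p.2 ∈ CVz e H z) ∧
    LZ e H z y p.1 = 0 ∧ LZ e H z y (Function.update p.1 y p.2) ≠ 0} with hA
  have hAm : MeasurableSet A := by
    refine MeasurableSet.inter (MeasurableSet.inter ?_ ?_) (MeasurableSet.inter ?_ ?_)
    · exact measurable_fst (CVz_meas M hz)
    · exact hmp.measurable (CVz_meas M hz)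
    · exact (LZ_meas M hz y).comp measurable_fst (measurableSet_singleton 0)
    · exact ((LZ_meas M hz y).comp hmp.measurable (measurableSet_singleton 0)).compl
  have h0 : ((PP Λ c).prod (unif c)) A = 0 := by
    rw [Measure.measure_prod_null hAm]
    refine ae_of_all _ fun ω => ?_
    have h1 : (unif c) (Prod.mk ω ⁻¹' A ∩ Icc (-c) c) = 0 := by
      have hss : (Prod.mk ω ⁻¹' A ∩ Icc (-c) c).Subsingleton := by
        -- the limit of `G(y,y)` determines the value
        have hlim : ∀ v ∈ Prod.mk ω ⁻¹' A ∩ Icc (-c) c,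
            Tendsto (fun k => 1 + ((v - clp c (ω y) : ℝ) : ℂ) * Gr e H ω (z k) y y) atTop (𝓝 0) := by
          rintro v ⟨⟨⟨hc1, hc2⟩, hb1, hb2⟩, hv⟩
          have l1 := zo_tendsto hc1 y
          have l2 := zo_tendsto hc2 y
          change Tendsto _ atTop (𝓝 (LZ e H z y ω)) at l1
          change LZ e H z y ω = 0 at hb1
          rw [hb1] at l1
          have l3 := l1.div l2 hb2
          rw [zero_div] at l3
          have l4 := l3.sqrt
          rw [Real.sqrt_zero] at l4
          rw [tendsto_zero_iff_norm_tendsto_zero]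
          refine l4.congr fun k => ?_
          have h3 := M.Gr_upd_mul ω (hz k) y v y
          rw [clp_of_mem hv] at h3
          have hG := M.im_Gr_pos ω (hz k) y
          have hG' := M.im_Gr_pos (Function.update ω y v) (hz k) y
          -- imaginary parts
          set β := Gr e H ω (z k) y y with hβ
          set γ := Gr e H (Function.update ω y v) (z k) y y with hγ
          set D : ℂ := 1 + ((v - clp c (ω y) : ℝ) : ℂ) * β with hD
          have hD0 : D ≠ 0 := by
            intro h4
            rw [h4, mul_zero] at h3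
            rw [← h3, Complex.zero_im] at hG
            exact lt_irrefl _ hG
          have h5 : γ = β / D := by
            rw [eq_div_iff hD0]
            exact h3
          have h6 : γ.im * ‖D‖ ^ 2 = β.im := by
            rw [h5, ← Complex.normSq_eq_norm_sq, Complex.div_im]
            have hD1 : D.re = 1 + (v - clp c (ω y)) * β.re := by
              rw [hD, Complex.add_re, Complex.one_re, Complex.re_ofReal_mul]
            have hD2 : D.im = (v - clp c (ω y)) * β.im := by
              rw [hD, Complex.add_im, Complex.one_im, Complex.im_ofReal_mul, zero_add]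
            have hn : Complex.normSq D ≠ 0 := by
              rw [Ne, Complex.normSq_eq_zero]; exact hD0
            rw [hD1, hD2]
            field_simp
            ring
          change √(β.im / γ.im) = ‖D‖
          rw [← h6, mul_div_assoc, mul_comm, div_mul_eq_mul_div, mul_div_assoc,
            div_self hG'.ne', mul_one, Real.sqrt_sq (norm_nonneg _)]
        intro v hv v' hv'
        by_contra hne
        have l1 := hlim v hv
        have l2 := hlim v' hv'
        have l3 := l1.sub l2
        rw [sub_zero] at l3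
        have l4 : Tendsto (fun k => Gr e H ω (z k) y y) atTop (𝓝 0) := by
          have hd : ((v - v' : ℝ) : ℂ) ≠ 0 := by
            exact_mod_cast sub_ne_zero.2 hne
          have l5 := l3.const_mul ((v - v' : ℝ) : ℂ)⁻¹
          rw [mul_zero] at l5
          refine l5.congr fun k => ?_
          have : (1 + ((v - clp c (ω y) : ℝ) : ℂ) * Gr e H ω (z k) y y)
              - (1 + ((v' - clp c (ω y) : ℝ) : ℂ) * Gr e H ω (z k) y y)
              = ((v - v' : ℝ) : ℂ) * Gr e H ω (z k) y y := by
            push_cast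
            ring
          rw [this, inv_mul_cancel_left₀ hd]
        have l6 := (l4.const_mul ((v - clp c (ω y) : ℝ) : ℂ)).const_add 1
        rw [mul_zero, add_zero] at l6
        exact one_ne_zero (tendsto_nhds_unique l6 l1)
      unfold unif
      rw [Measure.smul_apply, hss.measure_zero, smul_zero]
    have h2 : (unif c) (Prod.mk ω ⁻¹' A) = (unif c) (Prod.mk ω ⁻¹' A ∩ Icc (-c) c) := by
      refine measure_congr ?_
      filter_upwards [ae_unif c] with v hv
      refine propext ?_
      change (v ∈ Prod.mk ω ⁻¹' A) ↔ (v ∈ Prod.mk ω ⁻¹' A ∧ v ∈ Icc (-c) c)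
      tauto
    exact h2.trans h1
  have h1 : ∀ᵐ p ∂((PP Λ c).prod (unif c)), p ∉ A := measure_eq_zero_iff_ae_notMem.1 h0
  filter_upwards [h1, hcv1, hcv2] with p hp h2 h3 h4
  by_contra h5
  exact hp ⟨⟨h2, h3⟩, h4, h5⟩

/-- **The zero-one law along one sequence.** -/
theorem zo (M : Model c e H) (hz : ∀ k, 0 < (z k).im)
    (hcv : ∀ᵐ ω ∂(PP Λ c), ω ∈ CVz e H z) {adj : Λ → Λ → Prop}
    (hadj : ∀ x y, adj x y → ∀ᵐ ω ∂(PP Λ c),
      ¬ Tendsto (fun k => Gr e H ω (z k) x y) atTop (𝓝 0))
    (hcon : ∀ x y, Relation.ReflTransGen adj x y) (o : Λ) :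
    (∀ᵐ ω ∂(PP Λ c), 0 < LZ e H z o ω) ∨ (∀ᵐ ω ∂(PP Λ c), LZ e H z o ω = 0) := by
  have hc := M.hc
  have := unif_prob hc
  have := PP_prob Λ hc
  set B : Set (Λ → ℝ) := {ω | ∀ x, LZ e H z x ω = 0} with hB
  have hBm : MeasurableSet B := by
    have : B = ⋂ x, LZ e H z x ⁻¹' {0} := by ext ω; simp [hB]
    rw [this]
    exact MeasurableSet.iInter fun x => LZ_meas M hz x (measurableSet_singleton 0)
  have h1 : ∀ᵐ ω ∂(PP Λ c), ∀ x y, adj x y → LZ e H z x ω = 0 → LZ e H z y ω = 0 := by
    rw [ae_all_iff]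
    intro x
    rw [ae_all_iff]
    intro y
    by_cases ha : adj x y
    · filter_upwards [f1 M hz hcv (hadj x y ha)] with ω hω _
      exact hω
    · exact ae_of_all _ fun ω h => absurd h ha
  have h2 : ∀ᵐ ω ∂(PP Λ c), ∀ x, LZ e H z x ω = 0 → ω ∈ B := by
    filter_upwards [h1] with ω hω x hx y
    have h3 := hcon x y
    induction h3 with
    | refl => exact hx
    | tail _ h4 ih => exact hω _ _ h4 ih
  have h3 : ∀ y, ∀ᵐ p ∂((PP Λ c).prod (unif c)), p.1 ∈ B → Function.update p.1 y p.2 ∈ B := by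
    intro y
    have hmp : MeasurePreserving (fun p : (Λ → ℝ) × ℝ => Function.update p.1 y p.2)
        ((PP Λ c).prod (unif c)) (PP Λ c) := measurePreserving_upd (unif c) y
    filter_upwards [f3 M hz hcv y, hmp.quasiMeasurePreserving.ae h2] with p hp h4 h5
    exact h4 y (hp (h5 y))
  rcases zero_one (unif c) hBm h3 with h4 | h4
  · left
    have h5 : ∀ᵐ ω ∂(PP Λ c), ω ∉ B := measure_eq_zero_iff_ae_notMem.1 h4
    filter_upwards [h5, h2, hcv] with ω h6 h7 h8
    exact lt_of_le_of_ne (LZ_nonneg M hz h8 o) fun h9 => h6 (h7 o h9.symm)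
  · right
    filter_upwards [h4] with ω hω
    exact hω o

/-- **The zero-one law, for almost every energy.** -/
theorem zo_main (M : Model c e H) {φ : ℕ → ℕ}
    (hφ : ∀ᵐ p ∂((PP Λ c).prod kap), p ∈ CV (gI e H φ)) {adj : Λ → Λ → Prop}
    (hadj : ∀ x y, adj x y → ∀ ω, ∀ᵐ s ∂kap,
      ¬ Tendsto (fun k => Gr e H ω (Zt (tk (φ k)) s) x y) atTop (𝓝 0))
    (hcon : ∀ x y, Relation.ReflTransGen adj x y) (o : Λ) :
    ∀ᵐ s ∂kap, (∀ᵐ ω ∂(PP Λ c), 0 < Lm (gI e H φ) o o (ω, s)) ∨
      (∀ᵐ ω ∂(PP Λ c), Lm (gI e H φ) o o (ω, s) = 0) := by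
  have hc := M.hc
  have := PP_prob Λ hc
  have h1 : ∀ᵐ s ∂kap, ∀ᵐ ω ∂(PP Λ c), (ω, s) ∈ CV (gI e H φ) := by
    have h2 := (Measure.measurePreserving_swap (μ := kap) (ν := PP Λ c)).quasiMeasurePreserving.ae hφ
    exact Measure.ae_ae_of_ae_prod h2
  have h2 : ∀ᵐ s ∂kap, ∀ x y, adj x y → ∀ᵐ ω ∂(PP Λ c),
      ¬ Tendsto (fun k => Gr e H ω (Zt (tk (φ k)) s) x y) atTop (𝓝 0) := by
    rw [ae_all_iff]
    intro x
    rw [ae_all_iff]
    intro y
    by_cases ha : adj x y
    · have hm : MeasurableSet {p : (Λ → ℝ) × ℝ |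
          ¬ Tendsto (fun k => Gr e H p.1 (Zt (tk (φ k)) p.2) x y) atTop (𝓝 0)} := by
        refine (measurableSet_tendsto (𝓝 0) fun k => ?_).compl
        exact (M.continuous_Gr continuous_fst (continuous_Zt.comp continuous_snd)
          (fun p => Zt_im_pos (tk_pos _) _) x y).measurable
      have h3 := (Measure.ae_ae_comm (p := fun ω s =>
        ¬ Tendsto (fun k => Gr e H ω (Zt (tk (φ k)) s) x y) atTop (𝓝 0)) hm).1
        (ae_of_all (PP Λ c) (hadj x y ha))
      filter_upwards [h3] with s hs _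
      exact hs
    · exact ae_of_all _ fun s h => absurd h ha
  filter_upwards [h1, h2] with s h3 h4
  have hz : ∀ k, 0 < (Zt (tk (φ k)) s).im := fun k => Zt_im_pos (tk_pos _) _
  have hcv : ∀ᵐ ω ∂(PP Λ c), ω ∈ CVz e H (fun k => Zt (tk (φ k)) s) := by
    filter_upwards [h3] with ω hω x
    exact hω x x
  exact zo M hz hcv h4 hcon o

end model

end Pool.Agent.Lib.MP_562b47_mp.TR
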