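import Mathlib
import Pool.Agent.Lib.MP_562b47_mp.QV.Sing
import Pool.Agent.Lib.MP_562b47_mp.TR.Avg2
import Pool.Agent.Lib.MP_562b47_mp.TR.UI
import Pool.Agent.Lib.MP_562b47_mp.TR.ZO

/-!
Transient energies with random sets (MP_562b47_mp), module Set2: the transient energies carry the
absolutely continuous part of the spectral measure of `e 0`.
-/

open MeasureTheory Set Filter Topology Complex
open scoped Real ENNReal NNReal InnerProductSpace

set_option linter.unusedSectionVars false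

namespace Pool.Agent.Lib.MP_562b47_mp.TR

open Pool.Agent.Lib.MP_562b47_mp.QP Pool.Agent.Lib.MP_562b47_mp.QV
open Pool.Agent.Lib.MP_562b47_mp.QL (NoAC)

variable {Λ : Type*} [DecidableEq Λ] [AddCommGroup Λ] [Countable Λ] {E : Type*}
  [NormedAddCommGroup E] [InnerProductSpace ℂ E] [CompleteSpace E] {c : ℝ} {e : Λ → E}
  {H : (Λ → ℝ) → (E →L[ℂ] E)}

/-- the mass inside of an event of positive probability -/
noncomputable def kp (c p θ : ℝ) : ℝ :=
  θ / (1 + (8 * (1 / c) ^ (1/2 : ℝ) / (p / 2)) ^ 2) ^ 2 * (p / 2)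

theorem ev_low (M : Model c e H) {p θ : ℝ} (hp : 0 < p) (hθ : 0 < θ) {u η : ℝ} (hη : 0 < η)
    (i : ℚ × Finset Λ × ℕ) (hP : p ≤ (PP Λ c).real (EV e H θ i u η)) :
    kp c p θ ≤ em c e H θ i u η := by
  have hc := M.hc
  have := PP_prob Λ hc
  set A₀ : ℝ := 8 * (1 / c) ^ (1/2 : ℝ) with hA₀
  have hA₀0 : 0 < A₀ := by positivity
  set K : ℝ := A₀ / (p / 2) with hK
  have hK0 : 0 < K := by positivity
  set a : ℝ := θ / (1 + K ^ 2) ^ 2 with ha
  have ha0 : 0 < a := by positivity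
  have hkp : kp c p θ = a * (p / 2) := by
    unfold kp
    rw [← hA₀, ← hK, ← ha]
  rw [hkp]
  set z : ℂ := ⟨u, η⟩ with hzd
  have hz : 0 < z.im := hη
  set Bg : Set (Λ → ℝ) := {ω | K ^ 2 < ‖Gr e H ω z 0 0‖} with hBg
  have hBm : MeasurableSet Bg := measurableSet_lt measurable_const (Gr_cont M hz 0 0).norm.measurable
  have hB : (PP Λ c).real Bg ≤ p / 2 := by
    refine (big_le M u hη hK0).trans (le_of_eq ?_)
    rw [← hA₀, hK]
    field_simp
  have hEm := EV_meas M θ i u hη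
  set Gd : Set (Λ → ℝ) := EV e H θ i u η ∩ Bgᶜ with hGd
  have hGm : MeasurableSet Gd := hEm.inter hBm.compl
  have hPG : p / 2 ≤ (PP Λ c).real Gd := by
    have h1 : EV e H θ i u η ⊆ Gd ∪ Bg := by
      intro ω hω
      by_cases h3 : ω ∈ Bg
      · exact Or.inr h3
      · exact Or.inl ⟨hω, h3⟩
    have h2 := (measureReal_mono (μ := PP Λ c) h1 (measure_ne_top _ _)).trans
      (measureReal_union_le _ _)
    linarith
  have hnum : Measurable fun ω : Λ → ℝ => inn e H z i.1 i.2.1 ω / ‖den e H ω z 0‖ ^ 2 := by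
    refine (inn_meas M hz i.1 i.2.1).div ?_
    unfold den
    exact ((continuous_const.sub (continuous_const.mul (Gr_cont M hz 0 0))).norm.pow 2).measurable
  have i1 : Integrable ((EV e H θ i u η).indicator fun ω =>
      inn e H z i.1 i.2.1 ω / ‖den e H ω z 0‖ ^ 2) (PP Λ c) := by
    refine Integrable.indicator ?_ hEm
    refine Integrable.of_bound (C := 1 / z.im) hnum.aestronglyMeasurable
      (ae_of_all _ fun ω => ?_)
    have h1 := inn_nonneg (e := e) (H := H) hz i.1 i.2.1 ω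
    have h2 := M.one_le_norm_den ω hz 0
    rw [Real.norm_of_nonneg (by positivity)]
    refine (div_le_self h1 (one_le_pow₀ h2)).trans ((inn_le M hz _ _ ω).trans ?_)
    exact (le_abs_self _).trans ((Complex.abs_im_le_norm _).trans (M.norm_Gr_le ω hz 0 0))
  have h3 : a * (PP Λ c).real Gd = ∫ ω, Gd.indicator (fun _ => a) ω ∂(PP Λ c) := by
    rw [integral_indicator hGm, setIntegral_const, smul_eq_mul, mul_comm]
  calc a * (p / 2) ≤ a * (PP Λ c).real Gd := by gcongr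
    _ = ∫ ω, Gd.indicator (fun _ => a) ω ∂(PP Λ c) := h3
    _ ≤ em c e H θ i u η := by
        unfold em
        refine integral_mono ((integrable_const a).indicator hGm) i1 fun ω => ?_
        by_cases hω : ω ∈ Gd
        · have hωA : ω ∈ EV e H θ i u η := hω.1
          simp only [indicator_of_mem hω, indicator_of_mem hωA]
          have h4 : θ ≤ inn e H z i.1 i.2.1 ω := hωA.2
          have h5 : ‖Gr e H ω z 0 0‖ ≤ K ^ 2 := not_lt.1 hω.2
          have h6 : ‖den e H ω z 0‖ ≤ 1 + K ^ 2 := by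
            unfold den
            refine (norm_sub_le _ _).trans ?_
            rw [norm_one, norm_mul, Complex.norm_I, one_mul]
            linarith
          have h7 := M.one_le_norm_den ω hz 0
          have h8 : ‖den e H ω z 0‖ ^ 2 ≤ (1 + K ^ 2) ^ 2 :=
            pow_le_pow_left₀ (norm_nonneg _) h6 2
          rw [← hzd, ha]
          exact div_le_div₀ (hθ.le.trans h4) h4 (by positivity) h8
        · rw [indicator_of_notMem hω]
          refine indicator_nonneg (fun ω _ => ?_) ω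
          have h4 := inn_nonneg (e := e) (H := H) hz i.1 i.2.1 ω
          positivity

theorem kp_pos {c p θ : ℝ} (hp : 0 < p) (hθ : 0 < θ) : 0 < kp c p θ := by
  unfold kp
  positivity

/-- the number of sites of the best threshold set, with probability `p` -/
noncomputable def NN2 (c : ℝ) (e : Λ → E) (H : (Λ → ℝ) → (E →L[ℂ] E)) (p θ u η : ℝ) : ℝ≥0∞ :=
  ⨅ (i : ℚ × Finset Λ × ℕ) (_ : p ≤ (PP Λ c).real (EV e H θ i u η)), (i.2.2 : ℝ≥0∞)

theorem EV_anti {θ θ' : ℝ} (h : θ' ≤ θ) (i : ℚ × Finset Λ × ℕ) (u η : ℝ) :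
    EV e H θ i u η ⊆ EV e H θ' i u η := fun _ hω => ⟨hω.1, h.trans hω.2⟩

theorem NN2_inv (p θ u η : ℝ) : (NN2 c e H p θ u η)⁻¹
    = ⨆ (i : ℚ × Finset Λ × ℕ) (_ : p ≤ (PP Λ c).real (EV e H θ i u η)),
      ((i.2.2 : ℝ≥0∞))⁻¹ := by
  unfold NN2
  rw [ENNReal.inv_iInf]
  refine iSup_congr fun B => ?_
  rw [ENNReal.inv_iInf]

/-- the integrand -/
noncomputable def II2 (c : ℝ) (e : Λ → E) (H : (Λ → ℝ) → (E →L[ℂ] E)) (p θ : ℝ) (u η : ℝ) :
    ℝ≥0∞ := ENNReal.ofReal ((η ^ 2)⁻¹) * (NN2 c e H p θ u η)⁻¹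

/-- the transient energies -/
def TT2 (c : ℝ) (e : Λ → E) (H : (Λ → ℝ) → (E →L[ℂ] E)) : Set ℝ :=
  {u | ∀ p : ℝ, 0 < p → ∀ θ : ℝ, 0 < θ → ∃ a : ℝ, 0 < a ∧
    ∫⁻ η in Ioo 0 a, II2 c e H p θ u η < ⊤}

/-- almost surely positive boundary values give a transient energy -/
theorem set2_mem (M : Model c e H) (hcov : ShiftCov e H) {V : Λ → (E ≃ₗᵢ[ℂ] E)}
    (hH : CovOp V H) :
    ∀ᵐ u ∂(volume : Measure ℝ), (∀ᵐ ω ∂(PP Λ c), ∃ j : ℕ, (u, ω) ∈ ZZ e H j) →
      u ∈ TT2 c e H := by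
  have hc := M.hc
  have := PP_prob Λ hc
  have h1 : ∀ᵐ u ∂(volume : Measure ℝ), ∀ l j m m' : ℕ, ∫⁻ η in Ioo 0 (2 * c),
      ENNReal.ofReal ((η ^ 2)⁻¹) * ⨆ i : ℚ × Finset Λ × ℕ,
        ff2 c e H (1 / ((l:ℝ) + 1)) (1 / ((j:ℝ) + 1)) m m' i (u, η) < ⊤ := by
    rw [ae_all_iff]
    intro l
    rw [ae_all_iff]
    intro j
    rw [ae_all_iff]
    intro m
    rw [ae_all_iff]
    intro m'
    refine avg2 M hcov hH _ (by positivity) ?_ (Nat.cast_nonneg m) (Nat.cast_nonneg m')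
    rw [div_le_one (by positivity)]
    have : (0:ℝ) ≤ j := Nat.cast_nonneg j
    linarith
  filter_upwards [h1] with u hu hω p hp θ hθ
  obtain ⟨l, hl⟩ := exists_nat_one_div_lt hθ
  have hl0 : (0:ℝ) < 1 / ((l:ℝ) + 1) := by positivity
  obtain ⟨j, hj⟩ := exists_nat_one_div_lt (kp_pos (c := c) hp hl0)
  set κ : ℝ := 1 / ((j:ℝ) + 1) with hκd
  have hκ : 0 < κ := by positivity
  obtain ⟨K₀, hK₀, η₁, hη₁, hbk⟩ := ui M hω (show 0 < κ / 8 by positivity)
  obtain ⟨m, hm⟩ := exists_nat_ge K₀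
  obtain ⟨K₁, hK₁, η₂, hη₂, hbk'⟩ := ui M hω
    (show 0 < κ / 8 / (1 + c * (m:ℝ)) ^ 2 by positivity)
  obtain ⟨m', hm'⟩ := exists_nat_ge K₁
  set δ : ℝ := min (2 * c) (min η₁ η₂) with hδd
  have hδ : 0 < δ := lt_min (by positivity) (lt_min hη₁ hη₂)
  have d3 : δ ≤ 2 * c := min_le_left _ _
  have d4 : δ ≤ η₁ := (min_le_right _ _).trans (min_le_left _ _)
  have d5 : δ ≤ η₂ := (min_le_right _ _).trans (min_le_right _ _)
  refine ⟨δ, hδ, lt_of_le_of_lt ?_ (hu l j m m')⟩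
  refine (setLIntegral_mono' measurableSet_Ioo fun η hη => ?_).trans
    (lintegral_mono_set (Ioo_subset_Ioo_right d3))
  have hη0 : 0 < η := hη.1
  have hb := hbk m hm η hη0 (hη.2.trans_le d4)
  have hb' := hbk' m' hm' η hη0 (hη.2.trans_le d5)
  have hb2 : (1 + c * (m:ℝ)) ^ 2 * bk c e H m' u η ≤ κ / 8 := by
    rw [le_div_iff₀ (by positivity)] at hb'
    rw [mul_comm]
    exact hb'
  unfold II2
  gcongr
  rw [NN2_inv]
  refine iSup₂_le fun i hi => ?_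
  refine le_trans ?_ (le_iSup _ i)
  have hP : p ≤ (PP Λ c).real (EV e H (1 / ((l:ℝ) + 1)) i u η) :=
    hi.trans (measureReal_mono (EV_anti hl.le i u η) (measure_ne_top _ _))
  have ha' : κ ≤ em c e H (1 / ((l:ℝ) + 1)) i u η := hj.le.trans (ev_low M hp hl0 hη0 i hP)
  unfold ff2
  rw [if_pos ⟨hη0, ha', hb, hb2⟩]

/-- a positive density gives positive boundary values -/
theorem dens_ZZ (M : Model c e H) (ω : Λ → ℝ) {μ : Measure ℝ} [IsFiniteMeasure μ]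
    (hμ : IsSpec (H ω) (e 0) μ) :
    ∀ᵐ u ∂(volume : Measure ℝ), Dens μ u ≠ 0 → ∃ j : ℕ, (u, ω) ∈ ZZ e H j := by
  filter_upwards [Besicovitch.ae_tendsto_rnDeriv μ volume, Measure.rnDeriv_lt_top μ volume]
    with u hlim hfin hD
  have hr : 0 < (μ.rnDeriv volume u).toReal := by
    rcases (ENNReal.toReal_nonneg (a := μ.rnDeriv volume u)).lt_or_eq with h | h
    · exact h
    · exfalso
      apply hD
      unfold Dens
      rw [← h, mul_zero]
  set r : ℝ := (μ.rnDeriv volume u).toReal with hrd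
  have hrlt : ENNReal.ofReal (r / 2) < μ.rnDeriv volume u := by
    rw [← ENNReal.ofReal_toReal hfin.ne, ← hrd, ENNReal.ofReal_lt_ofReal_iff hr]
    linarith
  have hev := hlim.eventually (lt_mem_nhds hrlt)
  rw [eventually_nhdsWithin_iff, Metric.eventually_nhds_iff] at hev
  obtain ⟨ε, hε, hev⟩ := hev
  obtain ⟨j, hj⟩ := exists_nat_one_div_lt (show 0 < min ε (r / 2) from lt_min hε (by positivity))
  refine ⟨j, ?_⟩
  intro η hη0 hη1
  have hηε : η < ε := hη1.trans (hj.trans_le (min_le_left _ _))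
  have h2 := hev (y := η) (by rw [Real.dist_eq, sub_zero, abs_of_pos hη0]; exact hηε) hη0
  rw [Real.volume_closedBall] at h2
  have hvol : ENNReal.ofReal (2 * η) ≠ 0 := by simpa using hη0
  rw [ENNReal.lt_div_iff_mul_lt (Or.inl hvol) (Or.inl ENNReal.ofReal_ne_top),
    ← ENNReal.ofReal_mul (by positivity)] at h2
  have h3 : r / 2 * (2 * η) ≤ μ.real (Metric.closedBall u η) := by
    rw [measureReal_def]
    exact (ENNReal.ofReal_le_iff_le_toReal (measure_ne_top _ _)).1 h2.le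
  have h4 : (Gr e H ω (⟨u, η⟩ : ℂ) 0 0).im = Pois μ (⟨u, η⟩ : ℂ) := by
    rw [hμ.pois (M.sa ω) (z := (⟨u, η⟩ : ℂ)) hη0]
    unfold Gr
    exact im_inner_Rv (M.sa ω) (z := (⟨u, η⟩ : ℂ)) hη0.ne' (e 0)
  have h5 : μ.real (Metric.closedBall u η) / (2 * η) ≤ Pois μ (⟨u, η⟩ : ℂ) := qv_pois μ u hη0
  change 1 / ((j:ℝ) + 1) ≤ (Gr e H ω (⟨u, η⟩ : ℂ) 0 0).im
  rw [h4]
  have h6 : 1 / ((j:ℝ) + 1) ≤ r / 2 := hj.le.trans (min_le_right _ _)
  refine h6.trans (le_trans ?_ h5)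
  rw [le_div_iff₀ (by positivity)]
  exact h3

/-- the limit along the curve is the density -/
theorem Lm_dens (M : Model c e H) {φ : ℕ → ℕ} (hφm : StrictMono φ) (ω : Λ → ℝ)
    (hω : ∀ᵐ s ∂kap, (ω, s) ∈ CV (gI e H φ)) {μ : Measure ℝ} [IsFiniteMeasure μ]
    (hμ : IsSpec (H ω) (e 0) μ) :
    ∀ᵐ s ∂kap, Lm (gI e H φ) 0 0 (ω, s) = Dens μ s := by
  have := PP_prob Λ M.hc
  have hLm : Measurable fun s : ℝ => Lm (gI e H φ) 0 0 (ω, s) :=
    ((M.gramHyp φ).measurable_Lm 0 0).comp measurable_prodMk_left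
  have e1 : ∀ k s, gI e H φ k 0 0 (ω, s) = Pois μ (Zt (tk (φ k)) s) := by
    intro k s
    rw [hμ.pois (M.sa ω) (Zt_im_pos (tk_pos _) s)]
    unfold gI Gr
    exact im_inner_Rv (M.sa ω) (Zt_im_pos (tk_pos _) s).ne' (e 0)
  have h1 : Tendsto (fun k => ∫ s, min 1 |Pois μ (Zt (tk (φ k)) s) - Dens μ s| ∂kap) atTop
      (𝓝 0) := ((pois_tendsto μ).comp tendsto_tk).comp hφm.tendsto_atTop
  have h2 : Tendsto (fun k => ∫ s, min 1 |Pois μ (Zt (tk (φ k)) s) - Dens μ s| ∂kap) atTop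
      (𝓝 (∫ s, min 1 |Lm (gI e H φ) 0 0 (ω, s) - Dens μ s| ∂kap)) := by
    refine tendsto_integral_of_dominated_convergence (fun _ => 1) (fun k => ?_)
      (integrable_const _) (fun k => ae_of_all _ fun s => ?_) ?_
    · exact (measurable_const.min ((measurable_Pois μ _).sub
        (measurable_Dens μ)).abs).aestronglyMeasurable
    · rw [Real.norm_of_nonneg (le_min zero_le_one (abs_nonneg _))]
      exact min_le_left _ _
    · filter_upwards [hω] with s hs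
      have h3 := tendsto_Lm hs 0 0
      simp_rw [e1] at h3
      exact (tendsto_const_nhds (x := (1:ℝ))).min ((h3.sub_const _).abs)
  have h3 := tendsto_nhds_unique h2 h1
  have hnn : ∀ s, 0 ≤ min 1 |Lm (gI e H φ) 0 0 (ω, s) - Dens μ s| := fun s =>
    le_min zero_le_one (abs_nonneg _)
  rw [integral_eq_zero_iff_of_nonneg hnn (integrable_min_one
    ((hLm.sub (measurable_Dens μ)).abs) fun s => abs_nonneg _)] at h3
  filter_upwards [h3] with s hs
  have hs' : min 1 |Lm (gI e H φ) 0 0 (ω, s) - Dens μ s| = 0 := hs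
  rcases min_choice (1:ℝ) |Lm (gI e H φ) 0 0 (ω, s) - Dens μ s| with h6 | h6
  · rw [h6] at hs'; norm_num at hs'
  · rw [h6] at hs'
    exact sub_eq_zero.1 (abs_eq_zero.1 hs')

/-- the energies with almost surely positive boundary values -/
def PZ (c : ℝ) (e : Λ → E) (H : (Λ → ℝ) → (E →L[ℂ] E)) (φ : ℕ → ℕ) : Set ℝ :=
  {s | (PP Λ c) {ω | Lm (gI e H φ) 0 0 (ω, s) = 0} = 0}

theorem PZ_meas (M : Model c e H) (φ : ℕ → ℕ) : MeasurableSet (PZ c e H φ) := by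
  have := PP_prob Λ M.hc
  have hLm : Measurable (Lm (gI e H φ) 0 0) := (M.gramHyp φ).measurable_Lm 0 0
  have h1 : MeasurableSet {p : ℝ × (Λ → ℝ) | Lm (gI e H φ) 0 0 (p.2, p.1) = 0} :=
    (hLm.comp measurable_swap) (measurableSet_singleton 0)
  exact (measurable_measure_prodMk_left (ν := PP Λ c) h1) (measurableSet_singleton 0)

/-- **The energies with almost surely positive boundary values carry the absolutely continuous
part**, and they are transient. -/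
theorem main2 (M : Model c e H) {adj : Λ → Λ → Prop}
    (hadj : ∀ x y, adj x y → ∀ (ω : Λ → ℝ) (t : ℕ → ℝ), (∀ k, 0 < t k) →
      Tendsto t atTop (𝓝 0) →
      ∀ᵐ s ∂kap, ¬ Tendsto (fun k => Gr e H ω (Zt (t k) s) x y) atTop (𝓝 0))
    (hcon : ∀ x y, Relation.ReflTransGen adj x y) :
    ∃ P : Set ℝ, MeasurableSet P ∧
      (∀ᵐ s ∂(volume : Measure ℝ), s ∈ P → ∀ᵐ ω ∂(PP Λ c), ∃ j : ℕ, (s, ω) ∈ ZZ e H j) ∧
      ∀ᵐ ω ∂(PP Λ c), ∀ μ : Measure ℝ, IsFiniteMeasure μ → IsSpec (H ω) (e 0) μ →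
        NoAC μ Pᶜ := by
  have hc := M.hc
  have := PP_prob Λ hc
  obtain ⟨φ, hφm, hφ⟩ := M.exists_phi M.hasDens
  have ht : Tendsto (fun k => tk (φ k)) atTop (𝓝 0) :=
    (tendsto_nhdsWithin_iff.1 (tendsto_tk.comp hφm.tendsto_atTop)).1
  have hzo := zo_main M hφ (fun x y ha ω => hadj x y ha ω (fun k => tk (φ k))
    (fun k => tk_pos _) ht) hcon 0
  have hLm : Measurable (Lm (gI e H φ) 0 0) := (M.gramHyp φ).measurable_Lm 0 0
  have hcv : ∀ᵐ ω ∂(PP Λ c), ∀ᵐ s ∂kap, (ω, s) ∈ CV (gI e H φ) := Measure.ae_ae_of_ae_prod hφ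
  -- positive limits give positive boundary values
  have h1 : ∀ᵐ ω ∂(PP Λ c), ∀ᵐ s ∂kap, Lm (gI e H φ) 0 0 (ω, s) ≠ 0 →
      ∃ j : ℕ, (s, ω) ∈ ZZ e H j := by
    filter_upwards [hcv] with ω hω
    obtain ⟨μ, hfin, hμ⟩ := exists_isSpec (M.sa ω) (e 0)
    filter_upwards [Lm_dens M hφm ω hω hμ, kap_ac.ae_le (dens_ZZ M ω hμ)] with s h2 h3 h4
    rw [h2] at h4
    exact h3 h4
  have hm1 : MeasurableSet {p : (Λ → ℝ) × ℝ | Lm (gI e H φ) 0 0 (p.1, p.2) ≠ 0 →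
      ∃ j : ℕ, (p.2, p.1) ∈ ZZ e H j} := by
    have e1 : {p : (Λ → ℝ) × ℝ | Lm (gI e H φ) 0 0 (p.1, p.2) ≠ 0 →
        ∃ j : ℕ, (p.2, p.1) ∈ ZZ e H j}
        = (Lm (gI e H φ) 0 0 ⁻¹' {0}) ∪ ⋃ j : ℕ, Prod.swap ⁻¹' (ZZ e H j) := by
      ext p
      simp only [mem_ofPred_eq, mem_union, mem_preimage, mem_singleton_iff, mem_iUnion,
        Prod.mk.eta]
      tauto
    rw [e1]
    exact (hLm (measurableSet_singleton 0)).union (MeasurableSet.iUnion fun j =>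
      measurable_swap (ZZ_closed M j).measurableSet)
  have h2 : ∀ᵐ s ∂kap, ∀ᵐ ω ∂(PP Λ c), Lm (gI e H φ) 0 0 (ω, s) ≠ 0 →
      ∃ j : ℕ, (s, ω) ∈ ZZ e H j :=
    (Measure.ae_ae_comm (p := fun ω s => Lm (gI e H φ) 0 0 (ω, s) ≠ 0 →
      ∃ j : ℕ, (s, ω) ∈ ZZ e H j) hm1).1 h1
  refine ⟨PZ c e H φ, PZ_meas M φ, ac_kap.ae_le ?_, ?_⟩
  · filter_upwards [h2] with s h3 h4
    have h5 : ∀ᵐ ω ∂(PP Λ c), Lm (gI e H φ) 0 0 (ω, s) ≠ 0 := by
      have h6 : (PP Λ c) {ω | Lm (gI e H φ) 0 0 (ω, s) = 0} = 0 := h4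
      exact measure_eq_zero_iff_ae_notMem.1 h6
    filter_upwards [h3, h5] with ω h6 h7
    exact h6 h7
  have h3 : ∀ᵐ s ∂kap, ∀ᵐ ω ∂(PP Λ c), s ∈ PZ c e H φ ∨ Lm (gI e H φ) 0 0 (ω, s) = 0 := by
    filter_upwards [hzo] with s h4
    rcases h4 with h4 | h4
    · have h7 : s ∈ PZ c e H φ := by
        change (PP Λ c) {ω | Lm (gI e H φ) 0 0 (ω, s) = 0} = 0
        rw [measure_eq_zero_iff_ae_notMem]
        filter_upwards [h4] with ω h8 h9
        exact h8.ne' h9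
      exact ae_of_all _ fun ω => Or.inl h7
    · filter_upwards [h4] with ω h8
      exact Or.inr h8
  have hm2 : MeasurableSet {p : ℝ × (Λ → ℝ) | p.1 ∈ PZ c e H φ ∨
      Lm (gI e H φ) 0 0 (p.2, p.1) = 0} := by
    refine ((PZ_meas M φ).preimage measurable_fst).union ?_
    exact (hLm.comp measurable_swap) (measurableSet_singleton 0)
  have h4 : ∀ᵐ ω ∂(PP Λ c), ∀ᵐ s ∂kap, s ∈ PZ c e H φ ∨ Lm (gI e H φ) 0 0 (ω, s) = 0 :=
    (Measure.ae_ae_comm (p := fun s ω => s ∈ PZ c e H φ ∨ Lm (gI e H φ) 0 0 (ω, s) = 0) hm2).1 h3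
  filter_upwards [h4, hcv] with ω h5 h6 μ hμf hμ
  unfold NoAC
  rw [ae_restrict_iff' (PZ_meas M φ).compl]
  refine ac_kap.ae_le ?_
  filter_upwards [h5, Lm_dens M hφm ω h6 hμ] with s h7 h8 h9
  rw [← h8]
  exact h7.resolve_left h9

end Pool.Agent.Lib.MP_562b47_mp.TR
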