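import Mathlib
import Pool.Agent.Lib.MP_562b47_mp.QV.Ball
import Pool.Agent.Lib.MP_562b47_mp.TR.Set2

/-!
Transient energies (MP_562b47_mp), module Ball2: the number of sites for one potential, quantiles,
and the diffusive ball.
-/

open MeasureTheory Set Filter Topology Complex
open scoped Real ENNReal NNReal InnerProductSpace

set_option linter.unusedSectionVars false

namespace Pool.Agent.Lib.MP_562b47_mp.TR

open Pool.Agent.Lib.MP_562b47_mp.QP Pool.Agent.Lib.MP_562b47_mp.QV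
open Pool.Agent.Lib.MP_562b47_mp.QL (DE ql_ward)

variable {d : ℕ}

/-- the mass in a set at the energy `u`, for one potential -/
noncomputable def fi (d : ℕ) (c : ℝ) (ω : (Fin d → ℤ) → ℝ) (S : Set (Fin d → ℤ)) (u η : ℝ) :
    ℝ≥0∞ :=
  ENNReal.ofReal η * ∑' x : {x : Fin d → ℤ // x ∈ S},
    ‖Gr (ee d) (HH d c) ω (⟨u, η⟩ : ℂ) 0 x‖ₑ ^ 2

/-- the number of sites in the ball of radius `R` of a set which carries the mass `θ`, for one
potential -/
noncomputable def st (d : ℕ) (c : ℝ) (ω : (Fin d → ℤ) → ℝ) (R θ u η : ℝ) : ℝ≥0∞ :=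
  ⨅ (S : Set (Fin d → ℤ)) (_ : ENNReal.ofReal θ ≤ fi d c ω S u η),
    ((S ∩ ballZ d R).ncard : ℝ≥0∞)

/-- the number of sites which suffices with probability `p` -/
noncomputable def NQ (d : ℕ) (c R p θ u η : ℝ) : ℝ≥0∞ :=
  ⨅ (n : ℕ) (_ : ENNReal.ofReal p ≤ (PP (Fin d → ℤ) c) {ω | st d c ω R θ u η ≤ n}),
    (n : ℝ≥0∞)

/-- one term -/
noncomputable def ft (d : ℕ) (c : ℝ) (ω : (Fin d → ℤ) → ℝ) (u η : ℝ) (x : Fin d → ℤ) : ℝ≥0∞ :=
  ENNReal.ofReal η * ‖Gr (ee d) (HH d c) ω (⟨u, η⟩ : ℂ) 0 x‖ₑ ^ 2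

theorem ft_eq {c : ℝ} (ω : (Fin d → ℤ) → ℝ) (u : ℝ) {η : ℝ} (hη : 0 < η) (x : Fin d → ℤ) :
    ft d c ω u η x = ENNReal.ofReal (η * ‖Gr (ee d) (HH d c) ω (⟨u, η⟩ : ℂ) 0 x‖ ^ 2) := by
  unfold ft
  rw [ENNReal.ofReal_mul hη.le, ENNReal.ofReal_pow (norm_nonneg _), ofReal_norm]

/-- sums over a set -/
theorem tsum_in (f : (Fin d → ℤ) → ℝ≥0∞) (S : Set (Fin d → ℤ)) [DecidablePred (· ∈ S)] :
    ∑' x : {x // x ∈ S}, f x = ∑' x, (if x ∈ S then f x else 0) := by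
  refine (tsum_subtype S f).trans (tsum_congr fun x => ?_)
  by_cases hx : x ∈ S
  · rw [if_pos hx, indicator_of_mem hx]
  · rw [if_neg hx, indicator_of_notMem hx]

theorem fi_eq {c : ℝ} (ω : (Fin d → ℤ) → ℝ) (S : Set (Fin d → ℤ)) [DecidablePred (· ∈ S)]
    (u η : ℝ) : fi d c ω S u η = ∑' x, (if x ∈ S then ft d c ω u η x else 0) := by
  unfold fi
  rw [tsum_in (fun x => ‖Gr (ee d) (HH d c) ω (⟨u, η⟩ : ℂ) 0 x‖ₑ ^ 2) S,
    ← ENNReal.tsum_mul_left]
  refine tsum_congr fun x => ?_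
  unfold ft
  split_ifs <;> simp

theorem fi_mono {c : ℝ} {ω : (Fin d → ℤ) → ℝ} {S T : Set (Fin d → ℤ)} (h : S ⊆ T) (u η : ℝ) :
    fi d c ω S u η ≤ fi d c ω T u η := by
  classical
  rw [fi_eq, fi_eq]
  refine ENNReal.tsum_le_tsum fun x => ?_
  by_cases hS : x ∈ S
  · rw [if_pos hS, if_pos (h hS)]
  · rw [if_neg hS]
    exact zero_le

/-- the total mass -/
theorem ft_tot {c : ℝ} (hc : 0 < c) (ω : (Fin d → ℤ) → ℝ) (u : ℝ) {η : ℝ} (hη : 0 < η) :
    ∑' x, ft d c ω u η x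
      = ENNReal.ofReal (Gr (ee d) (HH d c) ω (⟨u, η⟩ : ℂ) 0 0).im := by
  have hz : 0 < (⟨u, η⟩ : ℂ).im := hη
  have h1 := ql_ward hc hz ∅ ω
  simp only [Finset.sum_empty, mul_zero, sub_zero, Finset.notMem_empty, if_false] at h1
  rw [h1]
  unfold ft
  rw [← ENNReal.tsum_mul_left]

/-- the inside mass of a threshold set -/
theorem ofReal_inn {c : ℝ} (lam : ℝ) (B : Finset (Fin d → ℤ)) (u : ℝ) {η : ℝ}
    (hη : 0 < η) (ω : (Fin d → ℤ) → ℝ) :
    ENNReal.ofReal (inn (ee d) (HH d c) (⟨u, η⟩ : ℂ) lam B ω)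
      = ∑ x ∈ B.filter (fun x => lam < η * ‖Gr (ee d) (HH d c) ω (⟨u, η⟩ : ℂ) 0 x‖ ^ 2),
        ft d c ω u η x := by
  unfold inn
  simp only
  rw [← Finset.sum_filter, Finset.mul_sum, ENNReal.ofReal_sum_of_nonneg
    (fun x _ => by positivity)]
  exact Finset.sum_congr rfl fun x _ => (ft_eq ω u hη x).symm

theorem ncard_ball (S : Set (Fin d → ℤ)) [DecidablePred (· ∈ S)] (R : ℝ) :
    (S ∩ ballZ d R).ncard = ((finite_ballZ d R).toFinset.filter (· ∈ S)).card := by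
  have h1 : S ∩ ballZ d R = (((finite_ballZ d R).toFinset.filter (· ∈ S) : Finset _) :
      Set (Fin d → ℤ)) := by
    ext x
    simp [and_comm]
  rw [h1, ncard_coe_finset]

/-- a number of sites is attained -/
theorem st_attained {c : ℝ} {ω : (Fin d → ℤ) → ℝ} {R θ u η : ℝ} {n : ℕ}
    (h : st d c ω R θ u η ≤ n) : ∃ S : Set (Fin d → ℤ), ENNReal.ofReal θ ≤ fi d c ω S u η ∧
      (S ∩ ballZ d R).ncard ≤ n := by
  have h1 : st d c ω R θ u η < ((n + 1 : ℕ) : ℝ≥0∞) :=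
    lt_of_le_of_lt h (by exact_mod_cast Nat.lt_succ_self n)
  unfold st at h1
  obtain ⟨S, hS⟩ := iInf_lt_iff.1 h1
  obtain ⟨hS1, hS2⟩ := iInf_lt_iff.1 hS
  refine ⟨S, hS1, ?_⟩
  have h2 : (S ∩ ballZ d R).ncard < n + 1 := by exact_mod_cast hS2
  omega

/-- the mass of a set is at most the mass of the points above the threshold, plus `lam` times the
number of points, plus the mass outside of the ball -/
theorem fi_le {c : ℝ} {u η : ℝ} (hη : 0 < η) (R : ℝ) (lam : ℝ) (ω : (Fin d → ℤ) → ℝ)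
    (S : Set (Fin d → ℤ)) :
    fi d c ω S u η ≤ ENNReal.ofReal
      (inn (ee d) (HH d c) (⟨u, η⟩ : ℂ) lam (finite_ballZ d R).toFinset ω)
      + ENNReal.ofReal lam * ((S ∩ ballZ d R).ncard : ℝ≥0∞)
      + fi d c ω (ballZ d R)ᶜ u η := by
  classical
  set F : Finset (Fin d → ℤ) := (finite_ballZ d R).toFinset with hF
  have hFm : ∀ x, x ∈ ballZ d R ↔ x ∈ F := fun x => by rw [hF, Finite.mem_toFinset]
  rw [ncard_ball S R, ← hF, ofReal_inn lam F u hη ω, fi_eq, fi_eq]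
  have e1 : ∑ x ∈ F.filter (fun x => lam < η * ‖Gr (ee d) (HH d c) ω (⟨u, η⟩ : ℂ) 0 x‖ ^ 2),
      ft d c ω u η x = ∑' x, (if x ∈ F ∧
        lam < η * ‖Gr (ee d) (HH d c) ω (⟨u, η⟩ : ℂ) 0 x‖ ^ 2 then ft d c ω u η x else 0) := by
    rw [tsum_eq_sum (s := F.filter (fun x =>
      lam < η * ‖Gr (ee d) (HH d c) ω (⟨u, η⟩ : ℂ) 0 x‖ ^ 2)) fun x hx =>
        if_neg fun h => hx (Finset.mem_filter.2 h)]
    exact Finset.sum_congr rfl fun x hx => (if_pos (Finset.mem_filter.1 hx)).symm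
  have e2 : ((F.filter (· ∈ S)).card : ℝ≥0∞)
      = ∑' x, (if x ∈ F then (if x ∈ S then 1 else 0) else 0) := by
    rw [tsum_eq_sum (s := F) fun x hx => if_neg hx, Finset.card_filter]
    push_cast
    exact Finset.sum_congr rfl fun x hx => (if_pos hx).symm
  rw [e1, e2, ← ENNReal.tsum_mul_left, ← ENNReal.tsum_add, ← ENNReal.tsum_add]
  refine ENNReal.tsum_le_tsum fun x => ?_
  by_cases hS : x ∈ S
  · rw [if_pos hS]
    by_cases h1 : x ∈ F
    · by_cases h2 : lam < η * ‖Gr (ee d) (HH d c) ω (⟨u, η⟩ : ℂ) 0 x‖ ^ 2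
      · rw [if_pos ⟨h1, h2⟩]
        exact le_self_add.trans le_self_add
      · simp only [if_pos h1, if_pos hS, mul_one]
        refine le_trans ?_ (le_add_self.trans le_self_add)
        rw [ft_eq ω u hη]
        exact ENNReal.ofReal_le_ofReal (not_lt.1 h2)
    · have h3 : x ∈ (ballZ d R)ᶜ := fun h4 => h1 ((hFm x).1 h4)
      rw [if_pos h3]
      exact le_add_self
  · rw [if_neg hS]
    exact zero_le

/-- **From sets to threshold sets, for one potential.** -/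
theorem thr_mem {c : ℝ} (hc : 0 < c) {θ u η R L : ℝ} (hθ : 0 < θ) (hη : 0 < η)
    {n m : ℕ} {lam : ℚ} (hlam : (0:ℝ) < lam) (hl1 : (lam:ℝ) * n ≤ θ / 4) (hl2 : L ≤ lam * m)
    {ω : (Fin d → ℤ) → ℝ} (hst : st d c ω R θ u η ≤ n)
    (hb : fi d c ω (ballZ d R)ᶜ u η ≤ ENNReal.ofReal (θ / 4))
    (hL : (Gr (ee d) (HH d c) ω (⟨u, η⟩ : ℂ) 0 0).im ≤ L) :
    ω ∈ EV (ee d) (HH d c) (θ / 2) (lam, (finite_ballZ d R).toFinset, m) u η := by
  classical
  set M := model (d := d) hc with hM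
  have hz : 0 < (⟨u, η⟩ : ℂ).im := hη
  set F : Finset (Fin d → ℤ) := (finite_ballZ d R).toFinset with hF
  obtain ⟨S, hS1, hS2⟩ := st_attained hst
  have hinn := inn_nonneg (e := ee d) (H := HH d c) hz lam F ω
  refine ⟨?_, ?_⟩
  · -- the number of points
    change cnt (ee d) (HH d c) (⟨u, η⟩ : ℂ) lam F ω ≤ (m : ℝ)
    set T : Finset (Fin d → ℤ) := F.filter
      (fun y => (lam:ℝ) < η * ‖Gr (ee d) (HH d c) ω (⟨u, η⟩ : ℂ) 0 y‖ ^ 2) with hT
    have e1 : cnt (ee d) (HH d c) (⟨u, η⟩ : ℂ) lam F ω = (T.card : ℝ) := by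
      unfold cnt
      simp only
      rw [hT, Finset.card_filter]
      push_cast
      rfl
    rw [e1]
    have h2 : (lam:ℝ) * (T.card : ℝ) ≤ inn (ee d) (HH d c) (⟨u, η⟩ : ℂ) lam F ω := by
      have e2 : inn (ee d) (HH d c) (⟨u, η⟩ : ℂ) lam F ω
          = ∑ x ∈ T, η * ‖Gr (ee d) (HH d c) ω (⟨u, η⟩ : ℂ) 0 x‖ ^ 2 := by
        unfold inn
        simp only
        rw [← Finset.sum_filter, Finset.mul_sum]
      rw [e2, mul_comm, ← nsmul_eq_mul]
      refine Finset.card_nsmul_le_sum T _ _ fun x hx => ?_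
      exact (Finset.mem_filter.1 hx).2.le
    have h3 : (lam:ℝ) * (T.card : ℝ) ≤ lam * m :=
      h2.trans ((inn_le M hz lam F ω).trans (hL.trans hl2))
    exact le_of_mul_le_mul_left h3 hlam
  · -- the mass
    change θ / 2 ≤ inn (ee d) (HH d c) (⟨u, η⟩ : ℂ) lam F ω
    have h1 := fi_le (c := c) (u := u) hη R lam ω S
    rw [← hF] at h1
    have h2 : ENNReal.ofReal θ ≤ ENNReal.ofReal
        (inn (ee d) (HH d c) (⟨u, η⟩ : ℂ) lam F ω + θ / 4 + θ / 4) := by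
      rw [ENNReal.ofReal_add (by positivity) (by positivity), ENNReal.ofReal_add hinn
        (by positivity)]
      refine hS1.trans (h1.trans ?_)
      gcongr
      rw [← ENNReal.ofReal_natCast, ← ENNReal.ofReal_mul hlam.le]
      refine ENNReal.ofReal_le_ofReal (le_trans ?_ hl1)
      refine mul_le_mul_of_nonneg_left ?_ hlam.le
      exact_mod_cast hS2
    have h3 := (ENNReal.ofReal_le_ofReal_iff (by positivity)).1 h2
    linarith

/-- the constant -/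
noncomputable def CC (c p θ : ℝ) : ℕ :=
  ⌈16 * (8 * (1 / c) ^ (1/2 : ℝ) / (p / 4)) ^ 2 / θ⌉₊ + 1

/-- **From quantiles to threshold sets.** -/
theorem NN2_le_NQ {c : ℝ} (hc : 0 < c) {p θ u η a R : ℝ} (hp : 0 < p) (hθ : 0 < θ) (hη : 0 < η)
    (h : QV.DD d c u η ≤ ENNReal.ofReal a) (hR : 0 < R) (hR2 : a ≤ (θ / 4 * (p / 4)) * R ^ 2) :
    NN2 c (ee d) (HH d c) (p / 2) (θ / 2) u η / (CC c p θ : ℝ≥0∞) ≤ NQ d c R p θ u η := by
  have := PP_prob (Fin d → ℤ) hc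
  set M := model (d := d) hc with hM
  have hz : 0 < (⟨u, η⟩ : ℂ).im := hη
  have hball := qS_ball (δ := θ / 4 * (p / 4)) h hR hR2
  unfold NQ
  refine le_iInf₂ fun n hn => ?_
  set K : ℝ := 8 * (1 / c) ^ (1/2 : ℝ) / (p / 4) with hK
  have hK0 : 0 < K := by positivity
  -- the exceptional events
  set g : ((Fin d → ℤ) → ℝ) → ℝ≥0∞ := fun ω => fi d c ω (ballZ d R)ᶜ u η with hg
  have hg' : g = fun ω => ENNReal.ofReal η * ∑' x : {x : Fin d → ℤ // x ∉ ballZ d R},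
      ‖Gr (ee d) (HH d c) ω (⟨u, η⟩ : ℂ) 0 x‖ₑ ^ 2 := rfl
  have hgm : Measurable g := by
    rw [hg']
    exact (qS_meas hc (ballZ d R) hη).const_mul _
  have hgi : ∫⁻ ω, g ω ∂(PP (Fin d → ℤ) c) ≤ ENNReal.ofReal (θ / 4 * (p / 4)) := by
    refine le_trans (le_of_eq ?_) hball
    unfold qS
    rw [← lintegral_const_mul' _ _ ENNReal.ofReal_ne_top]
    rfl
  have hδ0 : ENNReal.ofReal (θ / 4) ≠ 0 := (ENNReal.ofReal_pos.2 (by positivity)).ne'
  have hBd : (PP (Fin d → ℤ) c) {ω | ENNReal.ofReal (θ / 4) ≤ g ω} ≤ ENNReal.ofReal (p / 4) := by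
    refine (meas_ge_le_lintegral_div hgm.aemeasurable hδ0 ENNReal.ofReal_ne_top).trans ?_
    rw [ENNReal.div_le_iff hδ0 ENNReal.ofReal_ne_top]
    refine hgi.trans (le_of_eq ?_)
    rw [ENNReal.ofReal_mul (by positivity), mul_comm]
  set Bg : Set ((Fin d → ℤ) → ℝ) :=
    {ω | K ^ 2 < ‖Gr (ee d) (HH d c) ω (⟨u, η⟩ : ℂ) 0 0‖} with hBg
  have hB : (PP (Fin d → ℤ) c) Bg ≤ ENNReal.ofReal (p / 4) := by
    have h1 : (PP (Fin d → ℤ) c).real Bg ≤ p / 4 := by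
      refine (big_le M u hη hK0).trans (le_of_eq ?_)
      rw [hK]
      field_simp
    rw [measureReal_def] at h1
    exact (ENNReal.le_ofReal_iff_toReal_le (measure_ne_top _ _) (by positivity)).2 h1
  have hsum : ENNReal.ofReal (p / 2) + (ENNReal.ofReal (p / 4) + ENNReal.ofReal (p / 4))
      = ENNReal.ofReal p := by
    rw [← ENNReal.ofReal_add (by positivity) (by positivity), ← ENNReal.ofReal_add
      (by positivity) (by positivity)]
    congr 1
    ring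
  -- at least one point
  have hn1 : 1 ≤ n := by
    by_contra h0
    have hn0 : n = 0 := by omega
    subst hn0
    have hsub : {ω | st d c ω R θ u η ≤ ((0:ℕ) : ℝ≥0∞)} ⊆
        {ω | ENNReal.ofReal (θ / 4) ≤ g ω} := by
      intro ω hω
      obtain ⟨S, hS1, hS2⟩ := st_attained hω
      have hfin : (S ∩ ballZ d R).Finite := (finite_ballZ d R).subset inter_subset_right
      have hemp : S ∩ ballZ d R = ∅ := (ncard_eq_zero hfin).1 (by omega)
      have hsubS : S ⊆ (ballZ d R)ᶜ := fun x hx hx2 => by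
        have : x ∈ S ∩ ballZ d R := ⟨hx, hx2⟩
        rw [hemp] at this
        exact this
      change ENNReal.ofReal (θ / 4) ≤ fi d c ω (ballZ d R)ᶜ u η
      refine le_trans (ENNReal.ofReal_le_ofReal (by linarith)) (hS1.trans (fi_mono hsubS u η))
    have h1 := hn.trans ((measure_mono hsub).trans hBd)
    have h2 := (ENNReal.ofReal_le_ofReal_iff (by positivity)).1 h1
    linarith
  have hn0 : (1:ℝ) ≤ n := by exact_mod_cast hn1
  obtain ⟨lam, hl1, hl2⟩ := exists_rat_btwn (show θ / (8 * n) < θ / (4 * n) by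
    apply div_lt_div_of_pos_left hθ (by positivity)
    linarith)
  have hlam : (0:ℝ) < lam := lt_trans (by positivity) hl1
  have hle1 : (lam:ℝ) * n ≤ θ / 4 := by
    rw [lt_div_iff₀ (by positivity)] at hl2
    linarith
  have hle2 : K ^ 2 ≤ lam * ((CC c p θ * n : ℕ) : ℝ) := by
    have h1 : 16 * K ^ 2 / θ ≤ (CC c p θ : ℝ) := by
      unfold CC
      rw [← hK]
      push_cast
      exact (Nat.le_ceil _).trans (by linarith)
    have h2 : θ ≤ lam * (8 * n) := by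
      rw [div_lt_iff₀ (by positivity)] at hl1
      exact hl1.le
    rw [div_le_iff₀ hθ] at h1
    push_cast
    have hC : (0:ℝ) ≤ (CC c p θ : ℝ) := Nat.cast_nonneg _
    nlinarith [mul_le_mul_of_nonneg_left h2 hC]
  set i : ℚ × Finset (Fin d → ℤ) × ℕ := (lam, (finite_ballZ d R).toFinset, CC c p θ * n) with hi
  have hsub : {ω | st d c ω R θ u η ≤ n} ⊆
      EV (ee d) (HH d c) (θ / 2) i u η ∪ ({ω | ENNReal.ofReal (θ / 4) ≤ g ω} ∪ Bg) := by
    intro ω hω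
    by_cases h1 : ENNReal.ofReal (θ / 4) ≤ g ω
    · exact Or.inr (Or.inl h1)
    · by_cases h2 : ω ∈ Bg
      · exact Or.inr (Or.inr h2)
      · left
        have h3 : ‖Gr (ee d) (HH d c) ω (⟨u, η⟩ : ℂ) 0 0‖ ≤ K ^ 2 := not_lt.1 h2
        exact thr_mem hc hθ hη hlam hle1 hle2 hω (not_le.1 h1).le
          (((le_abs_self _).trans (Complex.abs_im_le_norm _)).trans h3)
  have hP : p / 2 ≤ (PP (Fin d → ℤ) c).real (EV (ee d) (HH d c) (θ / 2) i u η) := by
    have h1 : ENNReal.ofReal (p / 2) + (ENNReal.ofReal (p / 4) + ENNReal.ofReal (p / 4))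
        ≤ (PP (Fin d → ℤ) c) (EV (ee d) (HH d c) (θ / 2) i u η)
          + (ENNReal.ofReal (p / 4) + ENNReal.ofReal (p / 4)) := by
      rw [hsum]
      refine hn.trans ((measure_mono hsub).trans ((measure_union_le _ _).trans ?_))
      exact add_le_add le_rfl ((measure_union_le _ _).trans (add_le_add hBd hB))
    have h2 := (ENNReal.add_le_add_iff_right (ENNReal.add_ne_top.2
      ⟨ENNReal.ofReal_ne_top, ENNReal.ofReal_ne_top⟩)).1 h1
    rw [measureReal_def]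
    exact (ENNReal.ofReal_le_iff_le_toReal (measure_ne_top _ _)).1 h2
  refine ENNReal.div_le_of_le_mul' ?_
  unfold NN2
  refine (iInf₂_le i hP).trans (le_of_eq ?_)
  rw [hi]
  push_cast
  rfl

/-- **The integral converges at a transient energy.** -/
theorem ball_fin2 {c : ℝ} (hc : 0 < c) {K : ℝ} (hK : 0 ≤ K)
    (hDE : ∀ u η : ℝ, 0 < η → η ≤ 1 → DE d c ⟨u, η⟩ ≤ ENNReal.ofReal (K / η ^ 2)) {u : ℝ}
    (hu : u ∈ TT2 c (ee d) (HH d c)) {p θ : ℝ} (hp : 0 < p) (hθ : 0 < θ) :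
    ∃ R a : ℝ, 0 < R ∧ 0 < a ∧ ∫⁻ η in Ioo 0 a, ENNReal.ofReal (1 / η ^ 2) *
      (NQ d c (R / √η) p θ u η)⁻¹ < ⊤ := by
  obtain ⟨a₀, ha₀, hT⟩ := hu (p / 2) (by positivity) (θ / 2) (by positivity)
  set R : ℝ := 1 + 16 * K / (θ * p) with hR
  have hR1 : 1 ≤ R := by
    have : 0 ≤ 16 * K / (θ * p) := by positivity
    linarith
  have hR0 : 0 < R := by linarith
  have hRK : 16 * K ≤ θ * p * R ^ 2 := by
    have h1 : 16 * K / (θ * p) ≤ R ^ 2 := by nlinarith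
    rw [div_le_iff₀ (by positivity)] at h1
    linarith
  set C : ℕ := CC c p θ with hC
  have hC0 : (C : ℝ≥0∞) ≠ 0 := by
    rw [hC]
    exact Nat.cast_ne_zero.2 (Nat.succ_ne_zero _)
  set a : ℝ := min a₀ 1 with ha
  have ha0 : 0 < a := lt_min ha₀ one_pos
  refine ⟨R, a, hR0, ha0, ?_⟩
  have hfin : ∫⁻ η in Ioo 0 a, (C : ℝ≥0∞) * II2 c (ee d) (HH d c) (p / 2) (θ / 2) u η < ⊤ := by
    rw [lintegral_const_mul' _ _ (ENNReal.natCast_ne_top _)]
    exact ENNReal.mul_lt_top (ENNReal.natCast_lt_top _) (lt_of_le_of_lt (lintegral_mono_set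
      (Ioo_subset_Ioo_right (min_le_left _ _))) hT)
  refine lt_of_le_of_lt ?_ hfin
  refine setLIntegral_mono' measurableSet_Ioo fun η hη => ?_
  have hη0 : 0 < η := hη.1
  have hη1 : η ≤ 1 := hη.2.le.trans (min_le_right _ _)
  have hDle : QV.DD d c u η ≤ ENNReal.ofReal (K / η) := by
    unfold QV.DD
    refine (mul_le_mul' le_rfl (hDE u η hη0 hη1)).trans ?_
    rw [← ENNReal.ofReal_mul hη0.le]
    refine ENNReal.ofReal_le_ofReal (le_of_eq ?_)
    field_simp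
  have hmain : NN2 c (ee d) (HH d c) (p / 2) (θ / 2) u η / (C : ℝ≥0∞)
      ≤ NQ d c (R / √η) p θ u η := by
    refine NN2_le_NQ hc hp hθ hη0 hDle (by positivity) ?_
    rw [div_pow, Real.sq_sqrt hη0.le, ← mul_div_assoc]
    refine div_le_div_of_nonneg_right ?_ hη0.le
    nlinarith
  unfold II2
  rw [one_div, mul_left_comm]
  refine mul_le_mul' le_rfl ((ENNReal.inv_le_inv.2 hmain).trans (le_of_eq ?_))
  rw [ENNReal.inv_div (Or.inl (ENNReal.natCast_ne_top _)) (Or.inl hC0), div_eq_mul_inv]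

end Pool.Agent.Lib.MP_562b47_mp.TR
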