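import Pool.Agent.Lib.MP_562b47_mp.CNKol
import Pool.Agent.Lib.MP_562b47_mp.Limit
import Pool.Agent.Lib.MP_562b47_mp.Concrete

/-!
Jensen's inequality in the energy: a Green function which is not identically zero does not tend to
zero at almost every energy. (Anderson model, MP_562b47_mp, module TR-Jen.)
-/

open MeasureTheory Filter Topology Complex Set
open scoped InnerProductSpace ENNReal Real

namespace Pool.Agent.Lib.MP_562b47_mp.TR

/-! ### The circle measure -/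

/-- the angle of `uE x` -/
noncomputable def ang (x : ℝ) : ℝ := 2 * Real.arctan x + π

theorem ang_inj : Function.Injective ang := by
  intro x y h
  unfold ang at h
  exact Real.arctan_injective (by linarith)

theorem hasDerivAt_ang (x : ℝ) : HasDerivAt ang (2 * (1 / (1 + x ^ 2))) x := by
  unfold ang
  exact ((Real.hasDerivAt_arctan x).const_mul 2).add_const π

theorem range_ang : ang '' univ = Ioo 0 (2 * π) := by
  rw [image_univ]
  ext θ
  constructor
  · rintro ⟨x, rfl⟩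
    have h1 := Real.neg_pi_div_two_lt_arctan x
    have h2 := Real.arctan_lt_pi_div_two x
    unfold ang
    constructor <;> linarith
  · rintro ⟨h1, h2⟩
    refine ⟨Real.tan ((θ - π) / 2), ?_⟩
    unfold ang
    rw [Real.arctan_tan (by linarith) (by linarith)]
    ring

theorem circleMap_ang (r x : ℝ) : circleMap 0 r (ang x) = r * uE x := by
  have h1 : Complex.exp ((ang x : ℂ) * I) = uE x := by
    have h2 : ((ang x : ℂ) * I) = (Real.arctan x : ℂ) * I + (Real.arctan x : ℂ) * I + π * I := by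
      unfold ang
      push_cast
      ring
    rw [h2, Complex.exp_add, Complex.exp_add, Complex.exp_pi_mul_I, Complex.exp_mul_I,
      ← Complex.ofReal_cos, ← Complex.ofReal_sin, Real.cos_arctan, Real.sin_arctan]
    have hs : 0 < Real.sqrt (1 + x ^ 2) := Real.sqrt_pos.mpr (by positivity)
    have hss : Real.sqrt (1 + x ^ 2) * Real.sqrt (1 + x ^ 2) = 1 + x ^ 2 :=
      Real.mul_self_sqrt (by positivity)
    have hsc : ((Real.sqrt (1 + x ^ 2) : ℝ) : ℂ) ≠ 0 := by exact_mod_cast hs.ne'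
    have hssc : ((Real.sqrt (1 + x ^ 2) : ℝ) : ℂ) * ((Real.sqrt (1 + x ^ 2) : ℝ) : ℂ) =
        1 + (x : ℂ) ^ 2 := by exact_mod_cast hss
    have hE := E_add_I_ne x
    unfold uE
    rw [eq_div_iff hE]
    push_cast
    have e1 : (1 / ((Real.sqrt (1 + x ^ 2) : ℝ) : ℂ) + x / ((Real.sqrt (1 + x ^ 2) : ℝ) : ℂ) * I) *
        (1 / ((Real.sqrt (1 + x ^ 2) : ℝ) : ℂ) + x / ((Real.sqrt (1 + x ^ 2) : ℝ) : ℂ) * I) =
        (1 + x * I) * (1 + x * I) / (((Real.sqrt (1 + x ^ 2) : ℝ) : ℂ) *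
          ((Real.sqrt (1 + x ^ 2) : ℝ) : ℂ)) := by
      field_simp
    rw [e1, hssc]
    have hx : (1 : ℂ) + (x : ℂ) ^ 2 ≠ 0 := by
      rw [← hssc]
      exact mul_ne_zero hsc hsc
    field_simp
    have hI : I ^ 2 = -1 := Complex.I_sq
    linear_combination (-2 * (x : ℂ) - (x : ℂ) ^ 2 * I - (x : ℂ) ^ 3) * hI
  unfold circleMap
  rw [h1, zero_add]

theorem integral_kap_eq' (f : ℝ → ℝ) : ∫ E, f E ∂kap = ∫ E, (π⁻¹ * (1 + E ^ 2)⁻¹) * f E := by
  rw [kap_eq]
  rw [integral_withDensity_eq_integral_toReal_smul (by fun_prop)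
    (ae_of_all _ fun x => ENNReal.ofReal_lt_top)]
  refine integral_congr_ae (ae_of_all _ fun x => ?_)
  simp only
  rw [ENNReal.toReal_ofReal (by positivity), smul_eq_mul]

/-- the energy average is the circle average -/
theorem integral_circle (F : ℂ → ℝ) (r : ℝ) :
    ∫ E, F (r * uE E) ∂kap = Real.circleAverage F 0 r := by
  rw [integral_kap_eq', Real.circleAverage, intervalIntegral.integral_of_le (by positivity),
    integral_Ioc_eq_integral_Ioo, ← range_ang,
    integral_image_eq_integral_abs_deriv_smul MeasurableSet.univ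
      (fun x _ => (hasDerivAt_ang x).hasDerivWithinAt) ang_inj.injOn, ← integral_smul,
    setIntegral_univ]
  refine integral_congr_ae (ae_of_all _ fun x => ?_)
  simp only [smul_eq_mul, circleMap_ang]
  have h1 : |2 * (1 / (1 + x ^ 2))| = 2 * (1 / (1 + x ^ 2)) := abs_of_pos (by positivity)
  rw [h1]
  have hpi := Real.pi_pos
  field_simp

theorem integrable_circle (F : ℂ → ℝ) (r : ℝ) (h : CircleIntegrable F 0 r) :
    Integrable (fun E => F (r * uE E)) kap := by
  unfold CircleIntegrable at h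
  rw [intervalIntegrable_iff_integrableOn_Ioo_of_le (by positivity), ← range_ang,
    integrableOn_image_iff_integrableOn_abs_deriv_smul MeasurableSet.univ
      (fun x _ => (hasDerivAt_ang x).hasDerivWithinAt) ang_inj.injOn, integrableOn_univ] at h
  rw [kap_eq, integrable_withDensity_iff (by fun_prop) (ae_of_all _ fun x => ENNReal.ofReal_lt_top)]
  refine (h.const_mul (2 * π)⁻¹).congr (ae_of_all _ fun x => ?_)
  simp only [smul_eq_mul, circleMap_ang]
  have h1 : |2 * (1 / (1 + x ^ 2))| = 2 * (1 / (1 + x ^ 2)) := abs_of_pos (by positivity)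
  rw [h1, ENNReal.toReal_ofReal (by positivity)]
  have hpi := Real.pi_pos
  field_simp

/-! ### Jensen's inequality -/

theorem closedBall_sub {r : ℝ} (h0 : 0 ≤ r) (h1 : r < 1) :
    Metric.closedBall (0 : ℂ) |r| ⊆ Metric.ball 0 1 := by
  rw [abs_of_nonneg h0]
  exact Metric.closedBall_subset_ball h1

/-- Jensen's inequality, uniformly in the radius -/
theorem jensen {f : ℂ → ℂ} (hf : DifferentiableOn ℂ f (Metric.ball 0 1)) :
    ∃ C : ℝ, ∀ r : ℝ, 1 / 2 ≤ r → r < 1 → -C ≤ Real.circleAverage (Real.log ‖f ·‖) 0 r := by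
  have ha : AnalyticOnNhd ℂ f (Metric.ball 0 1) := hf.analyticOnNhd Metric.isOpen_ball
  refine ⟨((meromorphicOrderAt f 0).untop₀ : ℝ) * Real.log 2 -
    Real.log ‖meromorphicTrailingCoeffAt f 0‖, fun r hr hr1 => ?_⟩
  have hr0 : 0 < r := by linarith
  have hsub := closedBall_sub hr0.le hr1
  have ha' : AnalyticOnNhd ℂ f (Metric.closedBall 0 |r|) := ha.mono hsub
  rw [MeromorphicOn.circleAverage_log_norm hr0.ne' ha'.meromorphicOn]
  have h0 : (0 : ℂ) ∈ Metric.closedBall (0 : ℂ) |r| := by simp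
  have hdn := MeromorphicOn.AnalyticOnNhd.divisor_nonneg ha'
  have h1 : 0 ≤ ∑ᶠ u, (MeromorphicOn.divisor f (Metric.closedBall 0 |r|) u : ℝ) *
      Real.log (r * ‖0 - u‖⁻¹) := by
    refine finsum_nonneg fun u => ?_
    by_cases hu : u ∈ Metric.closedBall (0 : ℂ) |r|
    · refine mul_nonneg (by exact_mod_cast hdn u) ?_
      rw [zero_sub, norm_neg]
      by_cases hu0 : u = 0
      · simp [hu0]
      · have hu1 : 0 < ‖u‖ := norm_pos_iff.mpr hu0
        have hu2 : ‖u‖ ≤ r := by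
          rw [mem_closedBall_zero_iff, abs_of_pos hr0] at hu
          exact hu
        refine Real.log_nonneg ?_
        rw [← div_eq_mul_inv, le_div_iff₀ hu1]
        linarith
    · have : MeromorphicOn.divisor f (Metric.closedBall 0 |r|) u = 0 := by
        simp [hu]
      rw [this]
      simp
  have h2 : MeromorphicOn.divisor f (Metric.closedBall 0 |r|) 0 = (meromorphicOrderAt f 0).untop₀ :=
    MeromorphicOn.divisor_apply ha'.meromorphicOn h0
  have h3 : 0 ≤ (meromorphicOrderAt f 0).untop₀ := by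
    rw [← h2]
    exact hdn 0
  have h4 : -Real.log 2 ≤ Real.log r := by
    rw [← Real.log_inv]
    exact Real.log_le_log (by norm_num) (by linarith)
  rw [h2]
  have h5 : ((meromorphicOrderAt f 0).untop₀ : ℝ) * (-Real.log 2) ≤
      ((meromorphicOrderAt f 0).untop₀ : ℝ) * Real.log r :=
    mul_le_mul_of_nonneg_left h4 (by exact_mod_cast h3)
  linarith

/-- the zeros on a circle form a null set -/
theorem ae_ne_zero {f : ℂ → ℂ} (hf : DifferentiableOn ℂ f (Metric.ball 0 1))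
    (h0 : ∃ w ∈ Metric.ball (0 : ℂ) 1, f w ≠ 0) {r : ℝ} (hr : 0 < r) (hr1 : r < 1) :
    ∀ᵐ E ∂kap, f (r * uE E) ≠ 0 := by
  have ha : AnalyticOnNhd ℂ f (Metric.ball 0 1) := hf.analyticOnNhd Metric.isOpen_ball
  have h1 : ∀ᶠ w in codiscreteWithin (Metric.ball (0 : ℂ) 1), f w ≠ 0 := by
    rcases ha.eqOn_zero_or_eventually_ne_zero_of_preconnected
      (convex_ball (0 : ℂ) 1).isPreconnected with h | h
    · obtain ⟨w, hw, hw1⟩ := h0
      exact absurd (h hw) hw1
    · exact h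
  have hder : ∀ E : ℝ, HasDerivAt (fun E : ℝ => (r : ℂ) * uE E) ((r : ℂ) * (2 * I / (E + I) ^ 2)) E :=
    fun E => (hasDerivAt_uE E).const_mul (r : ℂ)
  have hana : AnalyticOnNhd ℝ (fun E : ℝ => (r : ℂ) * uE E) univ := by
    intro E _
    unfold uE
    have e1 : AnalyticAt ℝ (fun x : ℝ => (x : ℂ)) E := Complex.ofRealCLM.analyticAt E
    exact analyticAt_const.mul ((e1.sub analyticAt_const).div (e1.add analyticAt_const) (E_add_I_ne E))
  have h2 : (fun E : ℝ => (r : ℂ) * uE E) ⁻¹' {w | f w ≠ 0} ∈ codiscreteWithin (univ : Set ℝ) := by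
    refine hana.preimage_mem_codiscreteWithin (fun x _ hx => ?_) ?_
    · obtain ⟨a, ha⟩ := eventuallyConst_iff_exists_eventuallyEq.1 hx
      have h3 := ha.deriv.eq_of_nhds
      rw [(hder x).deriv] at h3
      simp only [deriv_const] at h3
      have h4 : (r : ℂ) ≠ 0 := by exact_mod_cast hr.ne'
      have h5 : (2 * I / ((x : ℂ) + I) ^ 2) ≠ 0 :=
        div_ne_zero (mul_ne_zero two_ne_zero I_ne_zero) (pow_ne_zero 2 (E_add_I_ne x))
      exact mul_ne_zero h4 h5 h3
    · refine codiscreteWithin_mono ?_ h1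
      rintro _ ⟨E, -, rfl⟩
      rw [mem_ball_zero_iff, norm_mul, norm_uE, mul_one, Complex.norm_real, Real.norm_eq_abs,
        abs_of_pos hr]
      exact hr1
  have h3 := ae_restrict_le_codiscreteWithin (μ := (volume : Measure ℝ)) MeasurableSet.univ h2
  rw [Measure.restrict_univ] at h3
  exact kap_ac.ae_le h3

/-! ### Boundary values -/

theorem cont_Zt {h : ℂ → ℂ} (hd : DifferentiableOn ℂ h CN.HP) {τ : ℝ} (hτ : 0 < τ) :
    Continuous fun E => h (Zt τ E) :=
  hd.continuousOn.comp_continuous (CN.Zt_cont τ hτ) fun E => Zt_im_pos hτ E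

theorem integrable_rpow {h : ℂ → ℂ} (hd : DifferentiableOn ℂ h CN.HP) {τ : ℝ} (hτ : 0 < τ)
    (hτ1 : τ ≤ 1) : Integrable (fun E => ‖h (Zt τ E)‖ ^ (1 / 4 : ℝ)) kap := by
  obtain ⟨C, hC⟩ := CN.bounded_circle hd hτ hτ1
  refine Integrable.of_bound (C := C ^ (1 / 4 : ℝ)) ?_ (ae_of_all _ fun E => ?_)
  · exact ((Real.continuous_rpow_const (by norm_num)).comp (cont_Zt hd hτ).norm).aestronglyMeasurable
  · rw [Real.norm_of_nonneg (by positivity)]
    exact Real.rpow_le_rpow (norm_nonneg _) (hC E) (by norm_num)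

theorem exists_disc {h : ℂ → ℂ} (h0 : ∃ z ∈ CN.HP, h z ≠ 0) :
    ∃ w ∈ Metric.ball (0 : ℂ) 1, h (zw w) ≠ 0 := by
  obtain ⟨z, hz, hz1⟩ := h0
  have hz' : 0 < z.im := hz
  have hne : z + I ≠ 0 := by
    intro h
    have := congrArg Complex.im h
    simp at this
    linarith
  have hlt : ‖z - I‖ < ‖z + I‖ := by
    rw [← sq_lt_sq₀ (norm_nonneg _) (norm_nonneg _), ← Complex.normSq_eq_norm_sq,
      ← Complex.normSq_eq_norm_sq, Complex.normSq_apply, Complex.normSq_apply]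
    simp
    nlinarith
  have hw : ‖(z - I) / (z + I)‖ < 1 := by
    rw [norm_div, div_lt_one (norm_pos_iff.mpr hne)]
    exact hlt
  refine ⟨(z - I) / (z + I), by simpa using hw, ?_⟩
  have h1 : zw ((z - I) / (z + I)) = z := by
    have h2 := one_sub_ne hw
    unfold zw
    rw [div_eq_iff h2]
    field_simp
    ring
  rw [h1]
  exact hz1

/-- the negative part of the logarithm has bounded integral -/
theorem log_bound {h : ℂ → ℂ} (hd : DifferentiableOn ℂ h CN.HP) {C : ℝ}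
    (hC : ∀ t, 0 < t → t ≤ 1 → ∫ E, ‖h (Zt t E)‖ ^ (1 / 4 : ℝ) ∂kap ≤ C) :
    ∃ C' : ℝ, ∀ τ, 0 < τ → τ ≤ 1 / 3 →
      ∫⁻ E, ENNReal.ofReal (-Real.log ‖h (Zt τ E)‖) ∂kap ≤ ENNReal.ofReal C' := by
  have hf : DifferentiableOn ℂ (fun w => h (zw w)) (Metric.ball 0 1) :=
    hd.comp differentiableOn_zw fun w hw => zw_im (by simpa using hw)
  obtain ⟨C₁, hC₁⟩ := jensen hf
  refine ⟨4 * C + C₁, fun τ hτ hτ3 => ?_⟩
  have hτ1 : τ ≤ 1 := by linarith
  obtain ⟨hr0, hr1⟩ := rt_mem hτ hτ1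
  have hr : 1 / 2 ≤ rt τ := by
    unfold rt
    rw [div_le_div_iff₀ (by norm_num) (by linarith)]
    linarith
  have hr0' : 0 < rt τ := by linarith
  have ha : AnalyticOnNhd ℂ (fun w => h (zw w)) (Metric.ball 0 1) :=
    hf.analyticOnNhd Metric.isOpen_ball
  have hmer : MeromorphicOn (fun w => h (zw w)) (Metric.sphere 0 |rt τ|) :=
    (ha.mono (Metric.sphere_subset_closedBall.trans (closedBall_sub hr0 hr1))).meromorphicOn
  have hLint : Integrable (fun E => Real.log ‖h (Zt τ E)‖) kap := by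
    have h1 := integrable_circle (fun w => Real.log ‖h (zw w)‖) (rt τ)
      hmer.circleIntegrable_log_norm
    simpa only [zw_rt hτ] using h1
  have hL : -C₁ ≤ ∫ E, Real.log ‖h (Zt τ E)‖ ∂kap := by
    have h1 := integral_circle (fun w => Real.log ‖h (zw w)‖) (rt τ)
    simp only [zw_rt hτ] at h1
    rw [h1]
    exact hC₁ _ hr hr1
  have hposint : Integrable (fun E => max (Real.log ‖h (Zt τ E)‖) 0) kap := hLint.pos_part
  have hnegint : Integrable (fun E => max (-Real.log ‖h (Zt τ E)‖) 0) kap := hLint.neg.pos_part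
  have h1 : ∫ E, max (Real.log ‖h (Zt τ E)‖) 0 ∂kap ≤ 4 * C := by
    calc ∫ E, max (Real.log ‖h (Zt τ E)‖) 0 ∂kap ≤ ∫ E, 4 * ‖h (Zt τ E)‖ ^ (1 / 4 : ℝ) ∂kap := by
          refine integral_mono hposint ((integrable_rpow hd hτ hτ1).const_mul 4) fun E => ?_
          refine max_le ?_ (by positivity)
          have h2 := Real.log_le_rpow_div (norm_nonneg (h (Zt τ E))) (show (0 : ℝ) < 1 / 4 by norm_num)
          refine h2.trans (le_of_eq ?_)
          ring
      _ = 4 * ∫ E, ‖h (Zt τ E)‖ ^ (1 / 4 : ℝ) ∂kap := integral_const_mul _ _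
      _ ≤ 4 * C := by linarith [hC τ hτ hτ1]
  have h2 : ∫ E, max (-Real.log ‖h (Zt τ E)‖) 0 ∂kap ≤ 4 * C + C₁ := by
    have h3 : ∀ a : ℝ, max (-a) 0 = max a 0 - a := by
      intro a
      rcases le_total a 0 with ha | ha
      · rw [max_eq_left (by linarith), max_eq_right ha]; ring
      · rw [max_eq_right (by linarith), max_eq_left ha]; ring
    simp only [h3]
    rw [integral_sub hposint hLint]
    linarith
  have h4 : ∀ E, ENNReal.ofReal (-Real.log ‖h (Zt τ E)‖) =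
      ENNReal.ofReal (max (-Real.log ‖h (Zt τ E)‖) 0) := by
    intro E
    rw [ENNReal.ofReal_max, ENNReal.ofReal_zero, max_eq_left zero_le]
  rw [lintegral_congr h4, ← ofReal_integral_eq_lintegral_ofReal hnegint
    (ae_of_all _ fun E => le_max_right _ _)]
  exact ENNReal.ofReal_le_ofReal h2

theorem jen_null {h : ℂ → ℂ} (hd : DifferentiableOn ℂ h CN.HP) (h0 : ∃ z ∈ CN.HP, h z ≠ 0) {C : ℝ}
    (hC : ∀ t, 0 < t → t ≤ 1 → ∫ E, ‖h (Zt t E)‖ ^ (1 / 4 : ℝ) ∂kap ≤ C)
    {t : ℕ → ℝ} (ht : ∀ k, 0 < t k) (hl : Tendsto t atTop (𝓝 0)) :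
    ∀ᵐ E ∂kap, ¬ Tendsto (fun k => h (Zt (t k) E)) atTop (𝓝 0) := by
  obtain ⟨C', hC'⟩ := log_bound hd hC
  have hf : DifferentiableOn ℂ (fun w => h (zw w)) (Metric.ball 0 1) :=
    hd.comp differentiableOn_zw fun w hw => zw_im (by simpa using hw)
  have hev : ∀ᶠ k in atTop, t k < 1 / 3 := hl.eventually (gt_mem_nhds (by norm_num))
  obtain ⟨K, hK⟩ := eventually_atTop.mp hev
  set s : ℕ → ℝ := fun k => t (k + K) with hs
  have hs0 : ∀ k, 0 < s k := fun k => ht _
  have hs1 : ∀ k, s k ≤ 1 / 3 := fun k => (hK (k + K) (by omega)).le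
  have hne : ∀ᵐ E ∂kap, ∀ k, h (Zt (s k) E) ≠ 0 := by
    rw [ae_all_iff]
    intro k
    have hr1 := (rt_mem (hs0 k) (by linarith [hs1 k])).2
    have hr0 : 0 < rt (s k) := by
      unfold rt
      have h1 := hs0 k
      have h2 := hs1 k
      exact div_pos (by linarith) (by linarith)
    have h1 := ae_ne_zero hf (exists_disc h0) hr0 hr1
    filter_upwards [h1] with E hE
    rwa [zw_rt (hs0 k)] at hE
  have hmeas : ∀ k, Measurable fun E => ENNReal.ofReal (-Real.log ‖h (Zt (s k) E)‖) := by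
    intro k
    exact ENNReal.measurable_ofReal.comp
      (Real.measurable_log.comp (cont_Zt hd (hs0 k)).norm.measurable).neg
  have hlim : ∫⁻ E, liminf (fun k => ENNReal.ofReal (-Real.log ‖h (Zt (s k) E)‖)) atTop ∂kap ≤
      ENNReal.ofReal C' := by
    refine (lintegral_liminf_le hmeas).trans ?_
    refine (liminf_le_liminf (v := fun _ => ENNReal.ofReal C') (Eventually.of_forall fun k =>
      hC' (s k) (hs0 k) (hs1 k))).trans ?_
    rw [liminf_const]
  have hfin := ae_lt_top (Measurable.liminf hmeas) (ne_top_of_le_ne_top ENNReal.ofReal_ne_top hlim)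
  filter_upwards [hne, hfin] with E hE1 hE2 hcon
  have h1 : Tendsto (fun k => h (Zt (s k) E)) atTop (𝓝 0) :=
    (tendsto_add_atTop_iff_nat (f := fun k => h (Zt (t k) E)) K).mpr hcon
  have h2 : Tendsto (fun k => ‖h (Zt (s k) E)‖) atTop (𝓝[≠] 0) := by
    refine tendsto_nhdsWithin_of_tendsto_nhds_of_eventually_within _ ?_
      (Eventually.of_forall fun k => ?_)
    · simpa using h1.norm
    · exact norm_ne_zero_iff.mpr (hE1 k)
  have h3 : Tendsto (fun k => -Real.log ‖h (Zt (s k) E)‖) atTop atTop :=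
    tendsto_neg_atBot_atTop.comp (Real.tendsto_log_nhdsNE_zero.comp h2)
  have h4 : Tendsto (fun k => ENNReal.ofReal (-Real.log ‖h (Zt (s k) E)‖)) atTop (𝓝 ⊤) :=
    ENNReal.tendsto_ofReal_atTop.comp h3
  rw [h4.liminf_eq] at hE2
  exact lt_irrefl _ hE2

/-! ### Green functions -/

section green

variable {Λ : Type*} [DecidableEq Λ] {E : Type*} [NormedAddCommGroup E] [InnerProductSpace ℂ E]
  [CompleteSpace E] {c : ℝ} {e : Λ → E} {H : (Λ → ℝ) → (E →L[ℂ] E)}

theorem diffOn_Gr (M : Model c e H) (ω : Λ → ℝ) (x y : Λ) :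
    DifferentiableOn ℂ (fun z => Gr e H ω z x y) CN.HP := fun _ hz =>
  (M.differentiableAt_Gr ω hz x y).differentiableWithinAt

/-- polarisation -/
theorem Gr_polar (M : Model c e H) (ω : Λ → ℝ) {z : ℂ} (hz : 0 < z.im) (x y : Λ) :
    ⟪e x + e y, Rv (H ω) z (e x + e y)⟫_ℂ =
      Gr e H ω z x x + Gr e H ω z y y + 2 * Gr e H ω z x y := by
  have h1 := M.Gr_symm ω hz x y
  rw [map_add, inner_add_left, inner_add_right, inner_add_right]
  change Gr e H ω z x x + Gr e H ω z x y + (Gr e H ω z y x + Gr e H ω z y y) = _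
  rw [← h1]
  ring

theorem add_ne (M : Model c e H) (x y : Λ) : e x + e y ≠ 0 := by
  intro h
  have h1 := orthonormal_iff_ite.mp M.ortho x x
  have h2 := orthonormal_iff_ite.mp M.ortho x y
  have h3 : ⟪e x, e x + e y⟫_ℂ = 0 := by rw [h, inner_zero_right]
  rw [inner_add_right, h1, h2, if_pos rfl] at h3
  split_ifs at h3
  · norm_num at h3
  · norm_num at h3

theorem jen_Gr (M : Model c e H) (ω : Λ → ℝ) (x y : Λ)
    (hne : ∃ z : ℂ, 0 < z.im ∧ Gr e H ω z x y ≠ 0)
    {t : ℕ → ℝ} (ht : ∀ k, 0 < t k) (hl : Tendsto t atTop (𝓝 0)) :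
    ∀ᵐ E ∂kap, ¬ Tendsto (fun k => Gr e H ω (Zt (t k) E) x y) atTop (𝓝 0) := by
  obtain ⟨z₀, hz₀, hz₁⟩ := hne
  have hdx := diffOn_Gr M ω x x
  have hdy := diffOn_Gr M ω y y
  have hdxy := diffOn_Gr M ω x y
  have hds : DifferentiableOn ℂ
      (fun z => Gr e H ω z x x + Gr e H ω z y y + 2 * Gr e H ω z x y) CN.HP :=
    (hdx.add hdy).add (hdxy.const_mul 2)
  have hix : ∀ z ∈ CN.HP, 0 < (Gr e H ω z x x).im := fun z hz => M.im_Gr_pos ω hz x
  have hiy : ∀ z ∈ CN.HP, 0 < (Gr e H ω z y y).im := fun z hz => M.im_Gr_pos ω hz y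
  have his : ∀ z ∈ CN.HP, 0 < (Gr e H ω z x x + Gr e H ω z y y + 2 * Gr e H ω z x y).im := by
    intro z hz
    have hz' : 0 < z.im := hz
    rw [← Gr_polar M ω hz' x y, im_inner_Rv (M.sa ω) hz'.ne']
    have h3 : 0 < ‖Rv (H ω) z (e x + e y)‖ :=
      norm_pos_iff.mpr (Rv_ne_zero (M.sa ω) hz'.ne' (add_ne M x y))
    positivity
  refine jen_null hdxy ⟨z₀, hz₀, hz₁⟩ (C := 1 + 2 * ‖CN.sq (Gr e H ω I x x)‖ +
    2 * ‖CN.sq (Gr e H ω I y y)‖ +
    2 * ‖CN.sq (Gr e H ω I x x + Gr e H ω I y y + 2 * Gr e H ω I x y)‖) ?_ ht hl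
  intro τ hτ hτ1
  have kx := CN.kolmogorov hdx hix hτ hτ1
  have ky := CN.kolmogorov hdy hiy hτ hτ1
  have ks := CN.kolmogorov hds his hτ hτ1
  have ix := (CN.integrable_circle (CN.differentiableOn_sq hdx hix) hτ hτ1).norm
  have iy := (CN.integrable_circle (CN.differentiableOn_sq hdy hiy) hτ hτ1).norm
  have js := (CN.integrable_circle (CN.differentiableOn_sq hds his) hτ hτ1).norm
  have hpt : ∀ s : ℝ, ‖Gr e H ω (Zt τ s) x y‖ ^ (1 / 4 : ℝ) ≤
      ((1 + ‖CN.sq (Gr e H ω (Zt τ s) x x)‖) + ‖CN.sq (Gr e H ω (Zt τ s) y y)‖) +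
        ‖CN.sq (Gr e H ω (Zt τ s) x x + Gr e H ω (Zt τ s) y y + 2 * Gr e H ω (Zt τ s) x y)‖ := by
    intro s
    have hz := Zt_im_pos hτ s
    have nx := CN.norm_sq' (hix _ hz)
    have ny := CN.norm_sq' (hiy _ hz)
    have ns := CN.norm_sq' (his _ hz)
    set A := Gr e H ω (Zt τ s) x x
    set B := Gr e H ω (Zt τ s) y y
    set D := Gr e H ω (Zt τ s) x y
    have a0 := norm_nonneg (CN.sq A)
    have b0 := norm_nonneg (CN.sq B)
    have d0 := norm_nonneg (CN.sq (A + B + 2 * D))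
    have h1 : 2 * ‖D‖ ≤ ‖A + B + 2 * D‖ + ‖A‖ + ‖B‖ := by
      have h4 : 2 * D = (A + B + 2 * D) - A - B := by ring
      have h5 : ‖2 * D‖ ≤ ‖A + B + 2 * D‖ + ‖A‖ + ‖B‖ := by
        conv_lhs => rw [h4]
        exact (norm_sub_le _ _).trans (by gcongr; exact norm_sub_le _ _)
      rwa [norm_mul, Complex.norm_ofNat] at h5
    have h2 : ‖D‖ ≤ (((1 + ‖CN.sq A‖) + ‖CN.sq B‖) + ‖CN.sq (A + B + 2 * D)‖) ^ 2 := by
      rw [← nx, ← ny, ← ns] at h1
      nlinarith [norm_nonneg D, mul_nonneg a0 b0, mul_nonneg a0 d0, mul_nonneg b0 d0]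
    set Q := ((1 + ‖CN.sq A‖) + ‖CN.sq B‖) + ‖CN.sq (A + B + 2 * D)‖ with hQ
    have hQ1 : 1 ≤ Q := by linarith
    calc ‖D‖ ^ (1 / 4 : ℝ) ≤ (Q ^ 2) ^ (1 / 4 : ℝ) :=
          Real.rpow_le_rpow (norm_nonneg _) h2 (by norm_num)
      _ ≤ (Q ^ 2) ^ (1 / 2 : ℝ) :=
          Real.rpow_le_rpow_of_exponent_le (one_le_pow₀ hQ1) (by norm_num)
      _ = Q := by
          rw [← Real.sqrt_eq_rpow, Real.sqrt_sq (by linarith)]
  have i1 : Integrable (fun s => 1 + ‖CN.sq (Gr e H ω (Zt τ s) x x)‖) kap :=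
    (integrable_const 1).add ix
  have i2 : Integrable (fun s => (1 + ‖CN.sq (Gr e H ω (Zt τ s) x x)‖) +
      ‖CN.sq (Gr e H ω (Zt τ s) y y)‖) kap := i1.add iy
  have i3 : Integrable (fun s => ((1 + ‖CN.sq (Gr e H ω (Zt τ s) x x)‖) +
      ‖CN.sq (Gr e H ω (Zt τ s) y y)‖) +
      ‖CN.sq (Gr e H ω (Zt τ s) x x + Gr e H ω (Zt τ s) y y + 2 * Gr e H ω (Zt τ s) x y)‖) kap :=
    i2.add js
  refine (integral_mono (integrable_rpow hdxy hτ hτ1) i3 hpt).trans ?_
  rw [integral_add i2 js, integral_add i1 iy, integral_add (integrable_const 1) ix]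
  have h1 : ∫ _ : ℝ, (1 : ℝ) ∂kap = 1 := by simp
  rw [h1]
  linarith

end green

/-! ### Neighbours -/

theorem HH_nbr (d : ℕ) (c : ℝ) (ω : (Fin d → ℤ) → ℝ) (x : Fin d → ℤ) (i : Fin d) :
    ⟪ee d x, HH d c ω (ee d (x + Pi.single i 1))⟫_ℂ = -1 := by
  rw [ee_eq, inner_eb, HH_apply]
  have h0 : x ≠ x + Pi.single i 1 := by
    intro h
    have := congrFun h i
    simp at this
  have h1 : ∀ j : Fin d, (x + Pi.single j 1 = x + Pi.single i 1 ↔ j = i) := by
    intro j
    constructor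
    · intro h
      by_contra hji
      have := congrFun h i
      simp only [Pi.add_apply, Pi.single_eq_same, add_right_inj] at this
      rw [Pi.single_eq_of_ne (Ne.symm hji)] at this
      exact absurd this (by norm_num)
    · rintro rfl; rfl
  have h2 : ∀ j : Fin d, x - Pi.single j 1 ≠ x + Pi.single i 1 := by
    intro j h
    have := congrFun h i
    simp only [Pi.sub_apply, Pi.add_apply, Pi.single_eq_same] at this
    by_cases hji : j = i
    · subst hji
      rw [Pi.single_eq_same] at this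
      omega
    · rw [Pi.single_eq_of_ne (Ne.symm hji)] at this
      omega
  simp only [eb_apply, h1, if_neg h0, if_neg (h2 _), sub_zero, add_zero, mul_zero]
  rw [Finset.sum_ite_eq' Finset.univ i, if_pos (Finset.mem_univ _)]

theorem Gr_ne_nbr {d : ℕ} {c : ℝ} (hc : 0 < c) (ω : (Fin d → ℤ) → ℝ) (x : Fin d → ℤ) (i : Fin d) :
    ∃ z : ℂ, 0 < z.im ∧ Gr (ee d) (HH d c) ω z x (x + Pi.single i 1) ≠ 0 := by
  set y := x + Pi.single i 1 with hy
  have M := model (d := d) hc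
  set T := HH d c ω with hT
  set L : ℝ := 2 * (‖T‖ ^ 2 + 1) with hL
  have hL0 : 0 < L := by positivity
  set z : ℂ := (L : ℂ) * I with hz
  have hzim : z.im = L := by simp [hz]
  have hz0 : 0 < z.im := by rw [hzim]; exact hL0
  refine ⟨z, hz0, fun hG => ?_⟩
  have hsa : IsSelfAdjoint T := M.sa ω
  set u := Rv T z (ee d y) with hu
  have hG' : ⟪ee d x, u⟫_ℂ = 0 := hG
  have h1 : T u = ee d y + z • u := H_Rv_apply hsa hz0.ne' (ee d y)
  have h2 : T (T u) = T (ee d y) + z • (ee d y + z • u) := by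
    conv_lhs => rw [h1]
    rw [map_add, map_smul, h1]
  have hxy : ⟪ee d x, ee d y⟫_ℂ = 0 := by
    have := orthonormal_iff_ite.mp M.ortho x y
    rw [this, if_neg]
    intro h
    have := congrFun h i
    simp [hy] at this
  have h3 : ⟪ee d x, T (T u)⟫_ℂ = -1 := by
    rw [h2, inner_add_right, inner_smul_right, inner_add_right, inner_smul_right, hG', hxy,
      HH_nbr]
    simp
  have h4 : ‖u‖ ≤ 1 / L := by
    have h5 := norm_Rv_le hsa hz0.ne' (ee d y)
    rw [M.ortho.1 y, hzim, abs_of_pos hL0] at h5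
    rw [le_div_iff₀ hL0]
    linarith
  have h5 : ‖⟪ee d x, T (T u)⟫_ℂ‖ ≤ ‖T‖ * (‖T‖ * (1 / L)) := by
    refine (norm_inner_le_norm _ _).trans ?_
    rw [M.ortho.1 x, one_mul]
    refine (T.le_opNorm _).trans ?_
    gcongr
    refine (T.le_opNorm _).trans ?_
    gcongr
  rw [h3, norm_neg, norm_one] at h5
  have h6 : ‖T‖ * (‖T‖ * (1 / L)) = ‖T‖ ^ 2 / L := by ring
  rw [h6, le_div_iff₀ hL0] at h5
  nlinarith [sq_nonneg ‖T‖]

end Pool.Agent.Lib.MP_562b47_mp.TR
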