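import Mathlib
import Pool.Agent.Lib.MP_562b47_mp.TR.Jen
import Pool.Agent.Lib.MP_562b47_mp.TR.Ball2

/-!
Transient energies (MP_562b47_mp), module Main2: the lattice.
-/

open MeasureTheory Set Filter Topology Complex
open scoped Real ENNReal NNReal InnerProductSpace

set_option linter.unusedSectionVars false

namespace Pool.Agent.Lib.MP_562b47_mp.TR

open Pool.Agent.Lib.MP_562b47_mp.QP Pool.Agent.Lib.MP_562b47_mp.QV
open Pool.Agent.Lib.MP_562b47_mp.QL (NoAC)

variable {d : ℕ}

/-- nearest neighbours -/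
def adj (d : ℕ) (x y : Fin d → ℤ) : Prop :=
  (∃ i, y = x + Pi.single i 1) ∨ (∃ i, x = y + Pi.single i 1)

theorem adj_conn (x y : Fin d → ℤ) : Relation.ReflTransGen (adj d) x y := by
  -- the displacements which can be reached from every point
  have h0 : ∀ x : Fin d → ℤ, Relation.ReflTransGen (adj d) x (x + 0) := fun x => by
    rw [add_zero]
  have hadd : ∀ v w : Fin d → ℤ, (∀ x, Relation.ReflTransGen (adj d) x (x + v)) →
      (∀ x, Relation.ReflTransGen (adj d) x (x + w)) →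
      ∀ x, Relation.ReflTransGen (adj d) x (x + (v + w)) := by
    intro v w hv hw x
    rw [← add_assoc]
    exact (hv x).trans (hw _)
  have hp : ∀ (i : Fin d) (x : Fin d → ℤ),
      Relation.ReflTransGen (adj d) x (x + Pi.single i 1) := fun i x =>
    Relation.ReflTransGen.single (Or.inl ⟨i, rfl⟩)
  have hm : ∀ (i : Fin d) (x : Fin d → ℤ),
      Relation.ReflTransGen (adj d) x (x + Pi.single i (-1)) := fun i x => by
    refine Relation.ReflTransGen.single (Or.inr ⟨i, ?_⟩)
    rw [add_assoc, ← Pi.single_add, neg_add_cancel, Pi.single_zero, add_zero]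
  have hs : ∀ (i : Fin d) (k : ℤ) (x : Fin d → ℤ),
      Relation.ReflTransGen (adj d) x (x + Pi.single i k) := by
    intro i k
    induction k using Int.induction_on with
    | zero =>
      intro x
      rw [Pi.single_zero]
      exact h0 x
    | succ n ih =>
      intro x
      rw [Pi.single_add]
      exact hadd _ _ ih (hp i) x
    | pred n ih =>
      intro x
      rw [sub_eq_add_neg, Pi.single_add]
      exact hadd _ _ ih (hm i) x
  have hall : ∀ (v : Fin d → ℤ) (x : Fin d → ℤ), Relation.ReflTransGen (adj d) x (x + v) := by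
    intro v
    have h1 : v = ∑ i, Pi.single i (v i) := (Finset.univ_sum_single v).symm
    rw [h1]
    refine Finset.sum_induction (fun i => Pi.single i (v i))
      (fun w => ∀ x : Fin d → ℤ, Relation.ReflTransGen (adj d) x (x + w)) hadd h0 ?_
    intro i _
    exact hs i (v i)
  have h1 := hall (y - x) x
  rwa [add_sub_cancel] at h1

theorem adj_ne {c : ℝ} (hc : 0 < c) {x y : Fin d → ℤ} (h : adj d x y) (ω : (Fin d → ℤ) → ℝ) :
    ∃ z : ℂ, 0 < z.im ∧ Gr (ee d) (HH d c) ω z x y ≠ 0 := by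
  rcases h with ⟨i, rfl⟩ | ⟨i, rfl⟩
  · exact Gr_ne_nbr hc ω x i
  · obtain ⟨z, hz, h1⟩ := Gr_ne_nbr hc ω y i
    refine ⟨z, hz, ?_⟩
    rw [(model hc).Gr_symm ω hz]
    exact h1

/-- **The transient energies carry the absolutely continuous spectrum.** -/
theorem final2 {V : Type*} [NormedAddCommGroup V] [InnerProductSpace ℂ V] [CompleteSpace V]
    (b : HilbertBasis (Fin d → ℤ) ℂ V) {c : ℝ} (hc : 0 < c) :
    ∃ P : Set ℝ, MeasurableSet P ∧
      (∀ᵐ s ∂(volume : Measure ℝ), s ∈ P → s ∈ TT2 c (ee d) (HH d c) ∧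
        ∀ᵐ ω ∂(PP (Fin d → ℤ) c), ∃ j : ℕ, (s, ω) ∈ ZZ (ee d) (HH d c) j) ∧
      ∀ᵐ ω ∂(PP (Fin d → ℤ) c), ∀ (u : V) (μ : Measure ℝ), IsFiniteMeasure μ →
        IsSpec (HB b c ω) u μ → NoAC μ Pᶜ := by
  obtain ⟨P, hPm, hP1, hP2⟩ := main2 (model (d := d) hc) (adj := adj d)
    (fun x y ha ω t ht hl => jen_Gr (model hc) ω x y (adj_ne hc ha ω) ht hl) adj_conn
  refine ⟨P, hPm, ?_, noAC_HB b hc _ hP2⟩
  filter_upwards [hP1, set2_mem (model hc) (shiftCov hc) (covOp_HH hc)] with s h1 h2 h3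
  exact ⟨h2 (h1 h3), h1 h3⟩

end Pool.Agent.Lib.MP_562b47_mp.TR
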