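import Mathlib
import Pool.Agent.Lib.MP_562b47_mp.TR.Main2

/-!
Transient energies (MP_562b47_mp), module Rel: sets which carry a fraction of the total mass.
-/

open MeasureTheory Set Filter Topology Complex
open scoped Real ENNReal NNReal InnerProductSpace

set_option linter.unusedSectionVars false

namespace Pool.Agent.Lib.MP_562b47_mp.TR

open Pool.Agent.Lib.MP_562b47_mp.QP Pool.Agent.Lib.MP_562b47_mp.QV
open Pool.Agent.Lib.MP_562b47_mp.QL (DE)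

variable {d : ℕ}

/-- the sum over a set -/
noncomputable def gs (d : ℕ) (c : ℝ) (ω : (Fin d → ℤ) → ℝ) (S : Set (Fin d → ℤ)) (u η : ℝ) :
    ℝ≥0∞ :=
  ∑' x : {x : Fin d → ℤ // x ∈ S}, ‖Gr (ee d) (HH d c) ω (⟨u, η⟩ : ℂ) 0 x‖ₑ ^ 2

/-- the sum over all sites -/
noncomputable def ga (d : ℕ) (c : ℝ) (ω : (Fin d → ℤ) → ℝ) (u η : ℝ) : ℝ≥0∞ :=
  ∑' x : Fin d → ℤ, ‖Gr (ee d) (HH d c) ω (⟨u, η⟩ : ℂ) 0 x‖ₑ ^ 2

/-- the number of sites in the ball of radius `R` of a set which carries the fraction `θ` -/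
noncomputable def sr (d : ℕ) (c : ℝ) (ω : (Fin d → ℤ) → ℝ) (R θ u η : ℝ) : ℝ≥0∞ :=
  ⨅ (S : Set (Fin d → ℤ)) (_ : ENNReal.ofReal θ * ga d c ω u η ≤ gs d c ω S u η),
    ((S ∩ ballZ d R).ncard : ℝ≥0∞)

/-- the number of sites which suffices with probability `p` -/
noncomputable def NR (d : ℕ) (c R p θ u η : ℝ) : ℝ≥0∞ :=
  ⨅ (n : ℕ) (_ : ENNReal.ofReal p ≤ (PP (Fin d → ℤ) c) {ω | sr d c ω R θ u η ≤ n}),
    (n : ℝ≥0∞)

theorem ga_tot {c : ℝ} (hc : 0 < c) (ω : (Fin d → ℤ) → ℝ) (u : ℝ) {η : ℝ} (hη : 0 < η) :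
    ENNReal.ofReal η * ga d c ω u η
      = ENNReal.ofReal (Gr (ee d) (HH d c) ω (⟨u, η⟩ : ℂ) 0 0).im := by
  rw [← ft_tot hc ω u hη]
  unfold ga ft
  rw [ENNReal.tsum_mul_left]

/-- from a fraction to a mass -/
theorem st_le_sr {c : ℝ} (hc : 0 < c) {ω : (Fin d → ℤ) → ℝ} {R θ θ₀ u η : ℝ} (hθ : 0 ≤ θ)
    (hη : 0 < η) (h : θ₀ ≤ (Gr (ee d) (HH d c) ω (⟨u, η⟩ : ℂ) 0 0).im) :
    st d c ω R (θ * θ₀) u η ≤ sr d c ω R θ u η := by
  unfold sr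
  refine le_iInf₂ fun S hS => ?_
  unfold st
  refine iInf₂_le S ?_
  calc ENNReal.ofReal (θ * θ₀) = ENNReal.ofReal θ * ENNReal.ofReal θ₀ := ENNReal.ofReal_mul hθ
    _ ≤ ENNReal.ofReal θ *
        ENNReal.ofReal (Gr (ee d) (HH d c) ω (⟨u, η⟩ : ℂ) 0 0).im := by gcongr
    _ = ENNReal.ofReal η * (ENNReal.ofReal θ * ga d c ω u η) := by
        rw [← ga_tot hc ω u hη]
        ring
    _ ≤ ENNReal.ofReal η * gs d c ω S u η := by gcongr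
    _ = fi d c ω S u η := rfl

/-- the quantiles -/
theorem NQ_le_NR {c : ℝ} (hc : 0 < c) {R p θ u η : ℝ} (hp : 0 < p) (hθ : 0 ≤ θ) (hη : 0 < η)
    {j : ℕ} (hj : (PP (Fin d → ℤ) c).real {ω | (u, ω) ∉ ZZ (ee d) (HH d c) j} ≤ p / 2)
    (hηj : η < 1 / ((j:ℝ) + 1)) :
    NQ d c R (p / 2) (θ * (1 / ((j:ℝ) + 1))) u η ≤ NR d c R p θ u η := by
  have := PP_prob (Fin d → ℤ) hc
  unfold NR
  refine le_iInf₂ fun n hn => ?_
  unfold NQ
  refine iInf₂_le n ?_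
  have hsub : {ω | sr d c ω R θ u η ≤ n} ⊆ {ω | st d c ω R (θ * (1 / ((j:ℝ) + 1))) u η ≤ n} ∪
      {ω | (u, ω) ∉ ZZ (ee d) (HH d c) j} := by
    intro ω hω
    by_cases h1 : (u, ω) ∈ ZZ (ee d) (HH d c) j
    · left
      exact (st_le_sr hc hθ hη (h1 η hη hηj)).trans hω
    · exact Or.inr h1
  have hj' : (PP (Fin d → ℤ) c) {ω | (u, ω) ∉ ZZ (ee d) (HH d c) j} ≤ ENNReal.ofReal (p / 2) := by
    rw [measureReal_def] at hj
    exact (ENNReal.le_ofReal_iff_toReal_le (measure_ne_top _ _) (by positivity)).2 hj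
  have h2 : ENNReal.ofReal (p / 2) + ENNReal.ofReal (p / 2)
      ≤ (PP (Fin d → ℤ) c) {ω | st d c ω R (θ * (1 / ((j:ℝ) + 1))) u η ≤ n}
        + ENNReal.ofReal (p / 2) := by
    rw [← ENNReal.ofReal_add (by positivity) (by positivity), add_halves]
    refine hn.trans ((measure_mono hsub).trans ((measure_union_le _ _).trans ?_))
    exact add_le_add le_rfl hj'
  exact (ENNReal.add_le_add_iff_right ENNReal.ofReal_ne_top).1 h2

/-- **The integral converges at a transient energy, for every fraction of the mass.** -/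
theorem rel_fin {c : ℝ} (hc : 0 < c) {K : ℝ} (hK : 0 ≤ K)
    (hDE : ∀ u η : ℝ, 0 < η → η ≤ 1 → DE d c ⟨u, η⟩ ≤ ENNReal.ofReal (K / η ^ 2)) {u : ℝ}
    (hu : u ∈ TT2 c (ee d) (HH d c))
    (hZ : ∀ᵐ ω ∂(PP (Fin d → ℤ) c), ∃ j : ℕ, (u, ω) ∈ ZZ (ee d) (HH d c) j)
    {p θ : ℝ} (hp : 0 < p) (hθ : 0 < θ) :
    ∃ R a : ℝ, 0 < R ∧ 0 < a ∧ ∫⁻ η in Ioo 0 a, ENNReal.ofReal (1 / η ^ 2) *
      (NR d c (R / √η) p θ u η)⁻¹ < ⊤ := by
  obtain ⟨j, hj⟩ := ZZ_large (model (d := d) hc) hZ (show 0 < p / 2 by positivity)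
  obtain ⟨R, a, hR, ha, hfin⟩ := ball_fin2 hc hK hDE hu (p := p / 2)
    (θ := θ * (1 / ((j:ℝ) + 1))) (by positivity) (by positivity)
  refine ⟨R, min a (1 / ((j:ℝ) + 1)), hR, lt_min ha (by positivity), ?_⟩
  refine lt_of_le_of_lt ?_ hfin
  refine (setLIntegral_mono' measurableSet_Ioo fun η hη => ?_).trans
    (lintegral_mono_set (Ioo_subset_Ioo_right (min_le_left _ _)))
  refine mul_le_mul' le_rfl (ENNReal.inv_le_inv.2 ?_)
  exact NQ_le_NR hc hp hθ.le hη.1 hj (hη.2.trans_le (min_le_right _ _))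

end Pool.Agent.Lib.MP_562b47_mp.TR
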