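import Mathlib
import Pool.Agent.Lib.MP_562b47_mp.TR.Rel

/-!
Transient energies (MP_562b47_mp), module Quen: the statement for almost every potential.
-/

open MeasureTheory Set Filter Topology Complex
open scoped Real ENNReal NNReal InnerProductSpace

set_option linter.unusedSectionVars false

namespace Pool.Agent.Lib.MP_562b47_mp.TR

open Pool.Agent.Lib.MP_562b47_mp.QP Pool.Agent.Lib.MP_562b47_mp.QV
open Pool.Agent.Lib.MP_562b47_mp.QL (NoAC)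

variable {d : ℕ}

/-- the number of sites in the ball `|x| ≤ R / √η` -/
noncomputable def cs (d : ℕ) (c : ℝ) (ω : (Fin d → ℤ) → ℝ) (R θ u η : ℝ) : ℝ≥0∞ :=
  sr d c ω (R / √η) θ u η

theorem ballZ_mono {R R' : ℝ} (h0 : 0 ≤ R) (h : R ≤ R') : ballZ d R ⊆ ballZ d R' := by
  intro x hx
  have h1 : ∑ j, (x j : ℝ) ^ 2 ≤ R ^ 2 := hx
  exact h1.trans (pow_le_pow_left₀ h0 h 2)

theorem sr_mono {c : ℝ} {ω : (Fin d → ℤ) → ℝ} {R R' θ θ' u η : ℝ} (h0 : 0 ≤ R) (h : R ≤ R')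
    (h1 : θ ≤ θ') : sr d c ω R θ u η ≤ sr d c ω R' θ' u η := by
  unfold sr
  refine le_iInf₂ fun S hS => (iInf₂_le S ((mul_le_mul' (ENNReal.ofReal_le_ofReal h1)
    le_rfl).trans hS)).trans ?_
  have hfin : (S ∩ ballZ d R').Finite := (finite_ballZ d R').subset inter_subset_right
  exact_mod_cast ncard_le_ncard (inter_subset_inter_right S (ballZ_mono h0 h)) hfin

theorem cs_mono {c : ℝ} {ω : (Fin d → ℤ) → ℝ} {R R' θ θ' u η : ℝ} (h0 : 0 ≤ R) (h : R ≤ R')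
    (h1 : θ ≤ θ') (hη : 0 < η) : cs d c ω R θ u η ≤ cs d c ω R' θ' u η := by
  unfold cs
  have h2 : 0 < √η := Real.sqrt_pos.2 hη
  exact sr_mono (by positivity) (by gcongr) h1

/-- the number of sites is infinite or a natural number -/
theorem sr_nat {c : ℝ} (ω : (Fin d → ℤ) → ℝ) (R : ℝ) (θ : ℝ) (u η : ℝ) :
    sr d c ω R θ u η = ⊤ ∨ ∃ m : ℕ, sr d c ω R θ u η = m := by
  classical
  by_cases hex : ∃ m : ℕ, sr d c ω R θ u η ≤ m
  · right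
    refine ⟨Nat.find hex, le_antisymm (Nat.find_spec hex) ?_⟩
    conv_rhs => unfold sr
    refine le_iInf₂ fun S hS => ?_
    have h1 : sr d c ω R θ u η ≤ ((S ∩ ballZ d R).ncard : ℝ≥0∞) := by
      unfold sr
      exact iInf₂_le S hS
    exact_mod_cast Nat.find_min' hex h1
  · left
    refine eq_top_iff.2 ?_
    conv_rhs => unfold sr
    refine le_iInf₂ fun S hS => ?_
    have h1 : sr d c ω R θ u η ≤ ((S ∩ ballZ d R).ncard : ℝ≥0∞) := by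
      unfold sr
      exact iInf₂_le S hS
    exact absurd ⟨_, h1⟩ hex

theorem gs_mono {c : ℝ} {ω : (Fin d → ℤ) → ℝ} {S T : Set (Fin d → ℤ)} (h : S ⊆ T) (u η : ℝ) :
    gs d c ω S u η ≤ gs d c ω T u η := by
  classical
  unfold gs
  rw [tsum_in (fun x => ‖Gr (ee d) (HH d c) ω (⟨u, η⟩ : ℂ) 0 x‖ₑ ^ 2) S,
    tsum_in (fun x => ‖Gr (ee d) (HH d c) ω (⟨u, η⟩ : ℂ) 0 x‖ₑ ^ 2) T]
  refine ENNReal.tsum_le_tsum fun x => ?_
  by_cases hS : x ∈ S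
  · rw [if_pos hS, if_pos (h hS)]
  · rw [if_neg hS]
    exact zero_le

/-- a number of sites is attained -/
theorem sr_attained {c : ℝ} {ω : (Fin d → ℤ) → ℝ} {R θ u η : ℝ} {n : ℕ}
    (h : sr d c ω R θ u η ≤ n) : ∃ S : Set (Fin d → ℤ),
      ENNReal.ofReal θ * ga d c ω u η ≤ gs d c ω S u η ∧ (S ∩ ballZ d R).ncard ≤ n := by
  have h1 : sr d c ω R θ u η < ((n + 1 : ℕ) : ℝ≥0∞) :=
    lt_of_le_of_lt h (by exact_mod_cast Nat.lt_succ_self n)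
  unfold sr at h1
  obtain ⟨S, hS⟩ := iInf_lt_iff.1 h1
  obtain ⟨hS1, hS2⟩ := iInf_lt_iff.1 hS
  refine ⟨S, hS1, ?_⟩
  have h2 : (S ∩ ballZ d R).ncard < n + 1 := by exact_mod_cast hS2
  omega

/-- the number of sites, by finite sets -/
theorem sr_le_iff {c : ℝ} {ω : (Fin d → ℤ) → ℝ} {R θ u η : ℝ} {m : ℕ} :
    sr d c ω R θ u η ≤ m ↔ ∃ T : Finset (Fin d → ℤ), T.card ≤ m ∧
      ENNReal.ofReal θ * ga d c ω u η
        ≤ gs d c ω ((T : Set (Fin d → ℤ)) ∪ (ballZ d R)ᶜ) u η := by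
  classical
  constructor
  · intro h
    obtain ⟨S, hS1, hS2⟩ := sr_attained h
    have hfin : (S ∩ ballZ d R).Finite := (finite_ballZ d R).subset inter_subset_right
    refine ⟨hfin.toFinset, ?_, ?_⟩
    · rw [← ncard_eq_toFinset_card _ hfin]
      exact hS2
    · refine hS1.trans (gs_mono ?_ u η)
      intro x hx
      by_cases h1 : x ∈ ballZ d R
      · left
        rw [Finite.coe_toFinset]
        exact ⟨hx, h1⟩
      · exact Or.inr h1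
  · rintro ⟨T, hT1, hT2⟩
    have h0 : sr d c ω R θ u η ≤
        ((((T : Set (Fin d → ℤ)) ∪ (ballZ d R)ᶜ) ∩ ballZ d R).ncard : ℝ≥0∞) := by
      unfold sr
      exact iInf₂_le ((T : Set (Fin d → ℤ)) ∪ (ballZ d R)ᶜ) hT2
    refine h0.trans ?_
    have h1 : ((T : Set (Fin d → ℤ)) ∪ (ballZ d R)ᶜ) ∩ ballZ d R ⊆ (T : Set (Fin d → ℤ)) := by
      rintro x ⟨hx | hx, hx2⟩
      · exact hx
      · exact absurd hx2 hx
    have h2 := ncard_le_ncard h1 T.finite_toSet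
    rw [ncard_coe_finset] at h2
    exact_mod_cast h2.trans hT1

/-- measurability in the exponential coordinate -/
theorem cs_meas_exp {c : ℝ} (hc : 0 < c) (R θ : ℝ) (m : ℕ) :
    MeasurableSet {p : (ℝ × ℝ) × ((Fin d → ℤ) → ℝ) | cs d c p.2 R θ p.1.1 (rexp p.1.2) ≤ m} := by
  classical
  set M := model (d := d) hc with hM
  have h1 : {p : (ℝ × ℝ) × ((Fin d → ℤ) → ℝ) | cs d c p.2 R θ p.1.1 (rexp p.1.2) ≤ m}
      = ⋃ (T : Finset (Fin d → ℤ)) (_ : T.card ≤ m), {p : (ℝ × ℝ) × ((Fin d → ℤ) → ℝ) |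
        ENNReal.ofReal θ * ∑' x : Fin d → ℤ,
          ‖Gr (ee d) (HH d c) p.2 (⟨p.1.1, rexp p.1.2⟩ : ℂ) 0 x‖ₑ ^ 2 ≤ ∑' x : Fin d → ℤ,
          (if x ∈ T ∨ (R / √(rexp p.1.2)) ^ 2 < ∑ j, (x j : ℝ) ^ 2 then
            ‖Gr (ee d) (HH d c) p.2 (⟨p.1.1, rexp p.1.2⟩ : ℂ) 0 x‖ₑ ^ 2 else 0)} := by
    ext p
    simp only [mem_ofPred_eq, mem_iUnion, exists_prop]
    unfold cs
    rw [sr_le_iff]
    refine exists_congr fun T => and_congr_right fun _ => ?_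
    unfold ga gs
    rw [tsum_in (fun x => ‖Gr (ee d) (HH d c) p.2 (⟨p.1.1, rexp p.1.2⟩ : ℂ) 0 x‖ₑ ^ 2)
      ((T : Set (Fin d → ℤ)) ∪ (ballZ d (R / √(rexp p.1.2)))ᶜ)]
    have h2 : ∀ x : Fin d → ℤ, (x ∈ (T : Set (Fin d → ℤ)) ∪
        (ballZ d (R / √(rexp p.1.2)))ᶜ) ↔
        (x ∈ T ∨ (R / √(rexp p.1.2)) ^ 2 < ∑ j, (x j : ℝ) ^ 2) := by
      intro x
      rw [mem_union, Finset.mem_coe, mem_compl_iff]
      refine or_congr_right ?_
      change (¬ ∑ j, (x j : ℝ) ^ 2 ≤ (R / √(rexp p.1.2)) ^ 2) ↔ _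
      exact not_le
    simp_rw [h2]
  rw [h1]
  refine MeasurableSet.iUnion fun T => MeasurableSet.iUnion fun _ => ?_
  refine measurableSet_le (Measurable.const_mul (Measurable.tsum fun x =>
    (qv_cont_Gr M x).enorm.measurable.pow_const 2) _) (Measurable.tsum fun x => ?_)
  refine Measurable.ite ?_ ((qv_cont_Gr M x).enorm.measurable.pow_const 2) measurable_const
  have h3 : Measurable fun p : (ℝ × ℝ) × ((Fin d → ℤ) → ℝ) =>
      (R / √(rexp p.1.2)) ^ 2 := by fun_prop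
  by_cases hx : x ∈ T
  · simp [hx]
  · simp only [hx, false_or]
    exact measurableSet_lt h3 measurable_const

/-- the set where the number of sites is at most `t` -/
theorem cs_meas {c : ℝ} (hc : 0 < c) (R θ : ℝ) {t : ℝ → ℝ≥0∞} (ht : Measurable t) :
    MeasurableSet {q : (((Fin d → ℤ) → ℝ) × ℝ) × ℝ |
      0 < q.2 → cs d c q.1.1 R θ q.1.2 q.2 ≤ t q.2} := by
  have h1 : {q : (((Fin d → ℤ) → ℝ) × ℝ) × ℝ | 0 < q.2 → cs d c q.1.1 R θ q.1.2 q.2 ≤ t q.2}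
      = ({q | q.2 ≤ 0} ∪ {q | t q.2 = ⊤}) ∪
        ⋃ m : ℕ, ((fun q : (((Fin d → ℤ) → ℝ) × ℝ) × ℝ =>
          (((q.1.2, Real.log q.2), q.1.1) : (ℝ × ℝ) × ((Fin d → ℤ) → ℝ))) ⁻¹'
            {p | cs d c p.2 R θ p.1.1 (rexp p.1.2) ≤ m} ∩ {q | (m : ℝ≥0∞) ≤ t q.2} ∩
              {q | 0 < q.2}) := by
    ext q
    simp only [mem_ofPred_eq, mem_union, mem_iUnion, mem_inter_iff, mem_preimage]
    constructor
    · intro h
      by_cases hq : 0 < q.2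
      · rcases sr_nat (c := c) q.1.1 (R / √q.2) θ q.1.2 q.2 with hm | ⟨m, hm⟩
        · left
          right
          have h5 : cs d c q.1.1 R θ q.1.2 q.2 = ⊤ := hm
          have h6 := h hq
          rw [h5] at h6
          exact top_le_iff.1 h6
        · right
          refine ⟨m, ⟨?_, ?_⟩, hq⟩
          · rw [Real.exp_log hq]
            exact hm.le
          · rw [← hm]
            exact h hq
      · exact Or.inl (Or.inl (not_lt.1 hq))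
    · rintro ((h | h) | ⟨m, ⟨h2, h3⟩, h4⟩) hq
      · exact absurd hq (not_lt.2 h)
      · rw [h]
        exact le_top
      · rw [Real.exp_log hq] at h2
        exact h2.trans h3
  rw [h1]
  refine ((measurableSet_le measurable_snd measurable_const).union
    ((ht.comp measurable_snd) (measurableSet_singleton ⊤))).union
    (MeasurableSet.iUnion fun m => (MeasurableSet.inter ?_ ?_).inter ?_)
  · refine (cs_meas_exp hc R θ m).preimage ?_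
    exact ((measurable_snd.comp measurable_fst).prodMk
      (Real.measurable_log.comp measurable_snd)).prodMk (measurable_fst.comp measurable_fst)
  · exact measurableSet_le measurable_const (ht.comp measurable_snd)
  · exact measurableSet_lt measurable_const measurable_snd

/-- few sites at almost all small scales -/
def Few (d : ℕ) (c : ℝ) (t : ℝ → ℝ≥0∞) (R θ a : ℝ) : Set (((Fin d → ℤ) → ℝ) × ℝ) :=
  {q | ∀ᵐ η ∂(volume.restrict (Ioo 0 a)), cs d c q.1 R θ q.2 η ≤ t η}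

theorem Few_meas {c : ℝ} (hc : 0 < c) {t : ℝ → ℝ≥0∞} (ht : Measurable t) (R θ a : ℝ) :
    MeasurableSet (Few d c t R θ a) := by
  have h1 : Few d c t R θ a = {q | (volume.restrict (Ioo 0 a)) (Prod.mk q ⁻¹'
      {q : (((Fin d → ℤ) → ℝ) × ℝ) × ℝ |
        0 < q.2 → cs d c q.1.1 R θ q.1.2 q.2 ≤ t q.2}ᶜ) = 0} := by
    ext q
    have h2 : (∀ᵐ η ∂(volume.restrict (Ioo 0 a)), cs d c q.1 R θ q.2 η ≤ t η) ↔
        ∀ᵐ η ∂(volume.restrict (Ioo 0 a)), (0 < η → cs d c q.1 R θ q.2 η ≤ t η) := by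
      have h3 : ∀ᵐ η ∂(volume.restrict (Ioo 0 a)), η ∈ Ioo (0:ℝ) a :=
        ae_restrict_mem measurableSet_Ioo
      constructor
      · intro h4
        filter_upwards [h4] with η h5 _
        exact h5
      · intro h4
        filter_upwards [h4, h3] with η h5 h6
        exact h5 h6.1
    change (∀ᵐ η ∂(volume.restrict (Ioo 0 a)), cs d c q.1 R θ q.2 η ≤ t η) ↔ _
    rw [h2, ae_iff]
    rfl
  rw [h1]
  exact (measurable_measure_prodMk_left (cs_meas hc R θ ht).compl) (measurableSet_singleton 0)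

/-- few sites, for the radius `j + 1` -/
def FewJ (d : ℕ) (c : ℝ) (N₀ : ℝ → ℝ≥0∞) (l j C : ℕ) : Set (((Fin d → ℤ) → ℝ) × ℝ) :=
  Few d c (fun η => ((C + 1 : ℕ) : ℝ≥0∞) * N₀ η) ((j:ℝ) + 1) (1 / ((l:ℝ) + 1))
    (1 / ((C:ℝ) + 1))

theorem FewJ_meas {c : ℝ} (hc : 0 < c) {N₀ : ℝ → ℝ≥0∞} (hN : Measurable N₀) (l j C : ℕ) :
    MeasurableSet (FewJ d c N₀ l j C) :=
  Few_meas hc (measurable_const.mul hN) _ _ _

/-- the pairs with few sites -/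
def FewA (d : ℕ) (c : ℝ) (N₀ : ℝ → ℝ≥0∞) : Set (((Fin d → ℤ) → ℝ) × ℝ) :=
  {q | ∃ l : ℕ, ∀ j : ℕ, ∃ C : ℕ, q ∈ FewJ d c N₀ l j C}

theorem FewA_meas {c : ℝ} (hc : 0 < c) {N₀ : ℝ → ℝ≥0∞} (hN : Measurable N₀) :
    MeasurableSet (FewA d c N₀) := by
  have e1 : FewA d c N₀ = ⋃ l : ℕ, ⋂ j : ℕ, ⋃ C : ℕ, FewJ d c N₀ l j C := by
    ext q
    simp [FewA]
  rw [e1]
  exact MeasurableSet.iUnion fun l => MeasurableSet.iInter fun j => MeasurableSet.iUnion fun C =>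
    FewJ_meas hc hN l j C

/-- **At a transient energy the number of sites is not small, almost surely.** -/
theorem quen_sec {c : ℝ} (hc : 0 < c) {N₀ : ℝ → ℝ≥0∞} (hN : Measurable N₀)
    (hdiv : ∀ a : ℝ, 0 < a → ∫⁻ η in Ioo 0 a, ENNReal.ofReal (1 / η ^ 2) * (N₀ η)⁻¹ = ⊤) {u : ℝ}
    (hT : ∀ θ : ℝ, 0 < θ → ∀ p : ℝ, 0 < p → ∃ R a : ℝ, 0 < R ∧ 0 < a ∧
      ∫⁻ η in Ioo 0 a, ENNReal.ofReal (1 / η ^ 2) * (NR d c (R / √η) p θ u η)⁻¹ < ⊤) :
    ∀ᵐ ω ∂(PP (Fin d → ℤ) c), (ω, u) ∉ FewA d c N₀ := by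
  have := PP_prob (Fin d → ℤ) hc
  have hle : ∀ (l : ℕ) (p : ℝ), 0 < p → (PP (Fin d → ℤ) c) {ω | ∀ j : ℕ, ∃ C : ℕ,
      (ω, u) ∈ FewJ d c N₀ l j C} ≤ ENNReal.ofReal p := by
    intro l p hp
    set θ : ℝ := 1 / ((l:ℝ) + 1) with hθ
    have hθ0 : 0 < θ := by positivity
    obtain ⟨R, δ, hR, hδ, hfin⟩ := hT θ hθ0 p hp
    obtain ⟨j, hj⟩ := exists_nat_ge R
    have hj' : R ≤ (j:ℝ) + 1 := hj.trans (by linarith)
    set B : ℕ → Set ((Fin d → ℤ) → ℝ) := fun C => {ω | (ω, u) ∈ FewJ d c N₀ l j C} with hB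
    have hBm : ∀ C, MeasurableSet (B C) := fun C =>
      (FewJ_meas hc hN l j C).preimage measurable_prodMk_right
    have hmono : Monotone B := by
      intro C C' hCC ω hω
      have h1 : (1:ℝ) / ((C':ℝ) + 1) ≤ 1 / ((C:ℝ) + 1) := by
        have : (C:ℝ) ≤ C' := by exact_mod_cast hCC
        gcongr
      have h2 : ∀ᵐ η ∂(volume.restrict (Ioo 0 (1 / ((C':ℝ) + 1)))),
          cs d c ω ((j:ℝ) + 1) θ u η ≤ ((C + 1 : ℕ) : ℝ≥0∞) * N₀ η :=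
        ae_restrict_of_ae_restrict_of_subset (Ioo_subset_Ioo_right h1) hω
      change ∀ᵐ η ∂(volume.restrict (Ioo 0 (1 / ((C':ℝ) + 1)))),
          cs d c ω ((j:ℝ) + 1) θ u η ≤ ((C' + 1 : ℕ) : ℝ≥0∞) * N₀ η
      filter_upwards [h2] with η h3
      refine h3.trans (mul_le_mul' ?_ le_rfl)
      exact_mod_cast Nat.succ_le_succ hCC
    refine (measure_mono (t := ⋃ C, B C) fun ω hω => ?_).trans ?_
    · exact mem_iUnion.2 (hω j)
    rw [hmono.measure_iUnion]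
    refine iSup_le fun C => ?_
    by_contra hcon
    push Not at hcon
    -- the quantile is small
    set a : ℝ := min (1 / ((C:ℝ) + 1)) δ with ha
    have ha0 : 0 < a := lt_min (by positivity) hδ
    have hswap : ∀ᵐ η ∂(volume.restrict (Ioo 0 a)), ∀ᵐ ω ∂(PP (Fin d → ℤ) c),
        ω ∈ B C → (0 < η → cs d c ω ((j:ℝ) + 1) θ u η ≤ ((C + 1 : ℕ) : ℝ≥0∞) * N₀ η) := by
      have hm : MeasurableSet {q : ((Fin d → ℤ) → ℝ) × ℝ | q.1 ∈ B C →
          (0 < q.2 → cs d c q.1 ((j:ℝ) + 1) θ u q.2 ≤ ((C + 1 : ℕ) : ℝ≥0∞) * N₀ q.2)} := by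
        have e1 : {q : ((Fin d → ℤ) → ℝ) × ℝ | q.1 ∈ B C →
            (0 < q.2 → cs d c q.1 ((j:ℝ) + 1) θ u q.2 ≤ ((C + 1 : ℕ) : ℝ≥0∞) * N₀ q.2)}
            = (Prod.fst ⁻¹' (B C))ᶜ ∪ ((fun q : ((Fin d → ℤ) → ℝ) × ℝ =>
              (((q.1, u), q.2) : (((Fin d → ℤ) → ℝ) × ℝ) × ℝ)) ⁻¹'
              {q | 0 < q.2 → cs d c q.1.1 ((j:ℝ) + 1) θ q.1.2 q.2
                ≤ ((C + 1 : ℕ) : ℝ≥0∞) * N₀ q.2}) := by
          ext q
          simp only [mem_ofPred_eq, mem_union, mem_compl_iff, mem_preimage]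
          tauto
        rw [e1]
        refine (measurable_fst (hBm C)).compl.union ((cs_meas hc _ _
          (measurable_const.mul hN)).preimage ?_)
        exact (measurable_fst.prodMk measurable_const).prodMk measurable_snd
      refine (Measure.ae_ae_comm (p := fun ω η => ω ∈ B C → (0 < η →
        cs d c ω ((j:ℝ) + 1) θ u η ≤ ((C + 1 : ℕ) : ℝ≥0∞) * N₀ η)) hm).1 ?_
      refine ae_of_all _ fun ω => ?_
      by_cases hω : ω ∈ B C
      · have h1 : ∀ᵐ η ∂(volume.restrict (Ioo 0 a)),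
            cs d c ω ((j:ℝ) + 1) θ u η ≤ ((C + 1 : ℕ) : ℝ≥0∞) * N₀ η :=
          ae_restrict_of_ae_restrict_of_subset (Ioo_subset_Ioo_right (min_le_left _ _)) hω
        filter_upwards [h1] with η h2 _ _
        exact h2
      · exact ae_of_all _ fun η h => absurd h hω
    have hNR : ∀ᵐ η ∂(volume.restrict (Ioo 0 a)), ENNReal.ofReal (1 / η ^ 2) *
        (((C + 1 : ℕ) : ℝ≥0∞)⁻¹ * (N₀ η)⁻¹) ≤ ENNReal.ofReal (1 / η ^ 2) *
        (NR d c (R / √η) p θ u η)⁻¹ := by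
      filter_upwards [hswap, ae_restrict_mem measurableSet_Ioo] with η h1 hη
      have hη0 : 0 < η := hη.1
      have hC0 : ((C + 1 : ℕ) : ℝ≥0∞) ≠ 0 := Nat.cast_ne_zero.2 (Nat.succ_ne_zero C)
      rw [← ENNReal.mul_inv (Or.inl hC0) (Or.inl (ENNReal.natCast_ne_top _))]
      refine mul_le_mul' le_rfl (ENNReal.inv_le_inv.2 ?_)
      set t : ℝ≥0∞ := ((C + 1 : ℕ) : ℝ≥0∞) * N₀ η with ht
      by_cases htop : t = ⊤
      · rw [htop]
        exact le_top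
      have hfl : ((⌊t.toReal⌋₊ : ℕ) : ℝ≥0∞) ≤ t := by
        rw [← ENNReal.ofReal_natCast]
        conv_rhs => rw [← ENNReal.ofReal_toReal htop]
        exact ENNReal.ofReal_le_ofReal (Nat.floor_le ENNReal.toReal_nonneg)
      refine le_trans ?_ hfl
      unfold NR
      refine iInf₂_le ⌊t.toReal⌋₊ (hcon.le.trans (measure_mono_ae ?_))
      filter_upwards [h1] with ω h2 hω
      have h3 : cs d c ω ((j:ℝ) + 1) θ u η ≤ t := h2 hω hη0
      have h4 : cs d c ω R θ u η ≤ t := (cs_mono hR.le hj' le_rfl hη0).trans h3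
      change cs d c ω R θ u η ≤ ((⌊t.toReal⌋₊ : ℕ) : ℝ≥0∞)
      rcases sr_nat (c := c) ω (R / √η) θ u η with hm | ⟨m, hm⟩
      · have hm' : cs d c ω R θ u η = ⊤ := hm
        rw [hm'] at h4
        exact absurd (top_le_iff.1 h4) htop
      · have hm' : cs d c ω R θ u η = m := hm
        rw [hm'] at h4 ⊢
        have h5 : (m:ℝ) ≤ t.toReal := by
          have := ENNReal.toReal_mono htop h4
          rwa [ENNReal.toReal_natCast] at this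
        exact_mod_cast Nat.le_floor h5
    have h1 : ∫⁻ η in Ioo 0 a, ENNReal.ofReal (1 / η ^ 2) *
        (((C + 1 : ℕ) : ℝ≥0∞)⁻¹ * (N₀ η)⁻¹) < ⊤ :=
      lt_of_le_of_lt ((lintegral_mono_ae hNR).trans
        (lintegral_mono_set (Ioo_subset_Ioo_right (min_le_right _ _)))) hfin
    have h2 : ∫⁻ η in Ioo 0 a, ENNReal.ofReal (1 / η ^ 2) *
        (((C + 1 : ℕ) : ℝ≥0∞)⁻¹ * (N₀ η)⁻¹) = ⊤ := by
      have h3 : ∀ η : ℝ, ENNReal.ofReal (1 / η ^ 2) * (((C + 1 : ℕ) : ℝ≥0∞)⁻¹ * (N₀ η)⁻¹)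
          = ((C + 1 : ℕ) : ℝ≥0∞)⁻¹ * (ENNReal.ofReal (1 / η ^ 2) * (N₀ η)⁻¹) := fun η => by ring
      simp_rw [h3]
      have hC0 : ((C + 1 : ℕ) : ℝ≥0∞) ≠ 0 := Nat.cast_ne_zero.2 (Nat.succ_ne_zero C)
      rw [lintegral_const_mul' _ _ (ENNReal.inv_ne_top.2 hC0), hdiv a ha0]
      exact ENNReal.mul_top (ENNReal.inv_ne_zero.2 (ENNReal.natCast_ne_top _))
    rw [h2] at h1
    exact lt_irrefl _ h1
  have h0 : ∀ l : ℕ, (PP (Fin d → ℤ) c) {ω | ∀ j : ℕ, ∃ C : ℕ,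
      (ω, u) ∈ FewJ d c N₀ l j C} = 0 := by
    intro l
    refine le_antisymm (ENNReal.le_of_forall_pos_le_add fun ε hε _ => ?_) zero_le
    rw [zero_add]
    have := hle l ε hε
    rwa [ENNReal.ofReal_coe_nnreal] at this
  have h1 : ∀ᵐ ω ∂(PP (Fin d → ℤ) c), ∀ l : ℕ, ¬ ∀ j : ℕ, ∃ C : ℕ,
      (ω, u) ∈ FewJ d c N₀ l j C :=
    ae_all_iff.2 fun l => measure_eq_zero_iff_ae_notMem.1 (h0 l)
  filter_upwards [h1] with ω h2
  rintro ⟨l, hl⟩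
  exact h2 l hl

/-- **The quenched statement.** -/
theorem quen {V : Type*} [NormedAddCommGroup V] [InnerProductSpace ℂ V] [CompleteSpace V]
    (b : HilbertBasis (Fin d → ℤ) ℂ V) {c : ℝ} (hc : 0 < c) {P : Set ℝ} (hP : MeasurableSet P)
    (hP1 : ∀ᵐ s ∂(volume : Measure ℝ), s ∈ P → ∀ θ : ℝ, 0 < θ → ∀ p : ℝ, 0 < p →
      ∃ R a : ℝ, 0 < R ∧ 0 < a ∧
      ∫⁻ η in Ioo 0 a, ENNReal.ofReal (1 / η ^ 2) * (NR d c (R / √η) p θ s η)⁻¹ < ⊤)
    (hP2 : ∀ᵐ ω ∂(PP (Fin d → ℤ) c), ∀ (u : V) (μ : Measure ℝ), IsFiniteMeasure μ →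
        IsSpec (HB b c ω) u μ → NoAC μ Pᶜ)
    {N₀ : ℝ → ℝ≥0∞} (hN : Measurable N₀)
    (hdiv : ∀ a : ℝ, 0 < a → ∫⁻ η in Ioo 0 a, ENNReal.ofReal (1 / η ^ 2) * (N₀ η)⁻¹ = ⊤) :
    ∀ᵐ ω ∂(PP (Fin d → ℤ) c), ∀ (u : V) (μ : Measure ℝ), IsFiniteMeasure μ →
      IsSpec (HB b c ω) u μ → ∀ᵐ s ∂(volume : Measure ℝ), (ω, s) ∈ FewA d c N₀ →
        Dens μ s = 0 := by
  have := PP_prob (Fin d → ℤ) hc
  have hBm : MeasurableSet (FewA d c N₀) := FewA_meas hc hN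
  have h1 : ∀ᵐ s ∂(volume : Measure ℝ), ∀ᵐ ω ∂(PP (Fin d → ℤ) c),
      ¬ (s ∈ P ∧ (ω, s) ∈ FewA d c N₀) := by
    filter_upwards [hP1] with s hs
    by_cases hsP : s ∈ P
    · filter_upwards [quen_sec hc hN hdiv (hs hsP)] with ω hω h2
      exact hω h2.2
    · exact ae_of_all _ fun ω h2 => hsP h2.1
  have hm : MeasurableSet {q : ℝ × ((Fin d → ℤ) → ℝ) | ¬ (q.1 ∈ P ∧
      (q.2, q.1) ∈ FewA d c N₀)} :=
    ((measurable_fst hP).inter (measurable_swap hBm)).compl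
  have h2 := (Measure.ae_ae_comm (p := fun s ω => ¬ (s ∈ P ∧ (ω, s) ∈ FewA d c N₀)) hm).1 h1
  filter_upwards [h2, hP2] with ω h3 h4 u μ hμf hμ
  have h5 := h4 u μ hμf hμ
  unfold NoAC at h5
  rw [ae_restrict_iff' hP.compl] at h5
  filter_upwards [h3, h5] with s h6 h7 h8
  exact h7 fun hs => h6 ⟨hs, h8⟩

end Pool.Agent.Lib.MP_562b47_mp.TR
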